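import Mathlib

set_option autoImplicit false
set_option linter.unusedSectionVars false

/-! Combinatorics of the clique complex of the 600-cell graph (abstractly). -/

namespace Pool.Agent.MP249bfd

open Finset

/-- The local combinatorial structure of the 600-cell: a graph in which the common neighbours of
two adjacent vertices form a cycle of length five. -/
structure Cell0 (ι : Type) where
  /-- adjacency -/
  adj : ι → ι → Prop
  symm : ∀ i j, adj i j → adj j i
  irrefl : ∀ i, ¬ adj i i
  /-- the cyclically ordered common neighbours -/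
  nb : ι → ι → ZMod 5 → ι
  nb_inj : ∀ i j, adj i j → Function.Injective (nb i j)
  nb_common : ∀ i j, adj i j → ∀ x, (adj i x ∧ adj j x) ↔ ∃ k, nb i j k = x
  nb_adj : ∀ i j, adj i j → ∀ k l, adj (nb i j k) (nb i j l) ↔ (l = k + 1 ∨ k = l + 1)

namespace Cell0

variable {ι : Type} [DecidableEq ι] (C : Cell0 ι)

/-- Cliques. -/
def Clq (S : Finset ι) : Prop := ∀ i ∈ S, ∀ j ∈ S, i ≠ j → C.adj i j

/-- The cyclic description of the common neighbours of a two-element clique. -/
structure IsFan (f : Finset ι) (n : ZMod 5 → ι) : Prop where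
  card : f.card = 2
  clq : C.Clq f
  inj : Function.Injective n
  common : ∀ x, (∀ i ∈ f, C.adj i x) ↔ ∃ k, n k = x
  adj : ∀ k l, C.adj (n k) (n l) ↔ (l = k + 1 ∨ k = l + 1)

variable {C}

theorem Clq.mono {S S' : Finset ι} (h : C.Clq S') (hS : S ⊆ S') : C.Clq S :=
  fun i hi j hj hij => h i (hS hi) j (hS hj) hij

theorem clq_insert {S : Finset ι} {x : ι} (hx : x ∉ S) :
    C.Clq (insert x S) ↔ C.Clq S ∧ ∀ i ∈ S, C.adj i x := by
  constructor
  · intro h
    refine ⟨h.mono (subset_insert _ _), fun i hi => ?_⟩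
    exact h i (mem_insert_of_mem hi) x (mem_insert_self _ _) (fun e => hx (e ▸ hi))
  · rintro ⟨h1, h2⟩ i hi j hj hij
    rw [mem_insert] at hi hj
    rcases hi with rfl | hi
    · rcases hj with rfl | hj
      · exact absurd rfl hij
      · exact C.symm _ _ (h2 j hj)
    · rcases hj with rfl | hj
      · exact h2 i hi
      · exact h1 i hi j hj hij

theorem notMem_of_adj {S : Finset ι} {x : ι} (h : ∀ i ∈ S, C.adj i x) : x ∉ S :=
  fun hx => C.irrefl x (h x hx)

theorem exists_fan (f : Finset ι) (hf : f.card = 2) (hc : C.Clq f) :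
    ∃ n : ZMod 5 → ι, C.IsFan f n := by
  obtain ⟨i, j, hij, rfl⟩ := Finset.card_eq_two.mp hf
  have hadj : C.adj i j := hc i (by simp) j (by simp) hij
  refine ⟨C.nb i j, hf, hc, C.nb_inj i j hadj, fun x => ?_, C.nb_adj i j hadj⟩
  rw [← C.nb_common i j hadj x]
  simp

namespace IsFan

variable {f : Finset ι} {n : ZMod 5 → ι} (h : C.IsFan f n)

include h

theorem adj_n (k : ZMod 5) : ∀ i ∈ f, C.adj i (n k) := (h.common (n k)).mpr ⟨k, rfl⟩

theorem n_notMem (k : ZMod 5) : n k ∉ f := notMem_of_adj (h.adj_n k)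

theorem n_ne (k : ZMod 5) : n k ≠ n (k + 1) := by
  intro e
  have := h.inj e
  have h2 : (1 : ZMod 5) = 0 := by linear_combination -this
  exact absurd h2 (by decide)

theorem tri_card (k : ZMod 5) : (insert (n k) f).card = 3 := by
  rw [card_insert_of_notMem (h.n_notMem k), h.card]

theorem tri_clq (k : ZMod 5) : C.Clq (insert (n k) f) :=
  (clq_insert (h.n_notMem k)).mpr ⟨h.clq, h.adj_n k⟩

theorem n_notMem' (k : ZMod 5) : n (k + 1) ∉ insert (n k) f := by
  rw [mem_insert, not_or]
  exact ⟨(h.n_ne k).symm, h.n_notMem _⟩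

theorem cyc_card (k : ZMod 5) : (insert (n (k + 1)) (insert (n k) f)).card = 4 := by
  rw [card_insert_of_notMem (h.n_notMem' k), h.tri_card]

theorem cyc_clq (k : ZMod 5) : C.Clq (insert (n (k + 1)) (insert (n k) f)) := by
  rw [clq_insert (h.n_notMem' k)]
  refine ⟨h.tri_clq k, fun i hi => ?_⟩
  rw [mem_insert] at hi
  rcases hi with rfl | hi
  · exact (h.adj _ _).mpr (Or.inl rfl)
  · exact h.adj_n _ i hi

theorem of_tri {σ : Finset ι} (hσ : σ.card = 3) (hc : C.Clq σ) (hf : f ⊆ σ) :
    ∃ k, σ = insert (n k) f := by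
  have h1 : (σ \ f).card = 1 := by
    rw [card_sdiff_of_subset hf, hσ, h.card]
  obtain ⟨x, hx⟩ := card_eq_one.mp h1
  have hxσ : x ∈ σ ∧ x ∉ f := by
    rw [← mem_sdiff, hx]
    exact mem_singleton_self x
  obtain ⟨k, hk⟩ := (h.common x).mp (fun i hi => hc i (hf hi) x hxσ.1 (fun e => hxσ.2 (e ▸ hi)))
  refine ⟨k, ?_⟩
  rw [hk]
  rw [← union_sdiff_of_subset hf, hx, union_comm]
  rfl

theorem of_cyc {τ : Finset ι} (hτ : τ.card = 4) (hc : C.Clq τ) (hf : f ⊆ τ) :
    ∃ k, τ = insert (n (k + 1)) (insert (n k) f) := by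
  have h1 : (τ \ f).card = 2 := by
    rw [card_sdiff_of_subset hf, hτ, h.card]
  obtain ⟨x, y, hxy, hxy2⟩ := card_eq_two.mp h1
  have hx : x ∈ τ ∧ x ∉ f := by
    rw [← mem_sdiff, hxy2]
    simp
  have hy : y ∈ τ ∧ y ∉ f := by
    rw [← mem_sdiff, hxy2]
    simp
  obtain ⟨k, hk⟩ := (h.common x).mp (fun i hi => hc i (hf hi) x hx.1 (fun e => hx.2 (e ▸ hi)))
  obtain ⟨l, hl⟩ := (h.common y).mp (fun i hi => hc i (hf hi) y hy.1 (fun e => hy.2 (e ▸ hi)))
  have hadj : C.adj (n k) (n l) := by
    rw [hk, hl]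
    exact hc x hx.1 y hy.1 hxy
  have hτe : τ = {x, y} ∪ f := by
    rw [← hxy2, union_comm, union_sdiff_of_subset hf]
  rcases (h.adj k l).mp hadj with e | e
  · refine ⟨k, ?_⟩
    rw [← e, hk, hl, hτe]
    ext z
    simp only [mem_union, mem_insert, mem_singleton]
    tauto
  · refine ⟨l, ?_⟩
    rw [← e, hk, hl, hτe]
    ext z
    simp only [mem_union, mem_insert, mem_singleton]
    tauto

theorem tri_inj {k l : ZMod 5} (e : insert (n k) f = insert (n l) f) : k = l := by
  have h1 : n k ∈ insert (n l) f := e ▸ mem_insert_self _ _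
  rw [mem_insert] at h1
  rcases h1 with h1 | h1
  · exact h.inj h1
  · exact absurd h1 (h.n_notMem k)

theorem tri_sub_cyc {k l : ZMod 5} :
    insert (n k) f ⊆ insert (n (l + 1)) (insert (n l) f) ↔ (l = k ∨ l = k - 1) := by
  constructor
  · intro hs
    have h1 := hs (mem_insert_self _ _)
    rw [mem_insert, mem_insert] at h1
    rcases h1 with h1 | h1 | h1
    · right
      have := h.inj h1
      rw [this]
      ring
    · left
      exact (h.inj h1).symm
    · exact absurd h1 (h.n_notMem k)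
  · rintro (e | e)
    · rw [e]
      exact subset_insert _ _
    · rw [e]
      have : k - 1 + 1 = k := by ring
      rw [this]
      exact insert_subset_insert _ (subset_insert _ _)

theorem cyc_inj {k l : ZMod 5} (e : insert (n (k + 1)) (insert (n k) f) =
    insert (n (l + 1)) (insert (n l) f)) : k = l := by
  have h1 : insert (n k) f ⊆ insert (n (l + 1)) (insert (n l) f) := by
    rw [← e]
    exact subset_insert _ _
  have h2 : insert (n l) f ⊆ insert (n (k + 1)) (insert (n k) f) := by
    rw [e]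
    exact subset_insert _ _
  rcases h.tri_sub_cyc.mp h1 with e1 | e1
  · exact e1.symm
  · rcases h.tri_sub_cyc.mp h2 with e2 | e2
    · exact e2
    · exfalso
      rw [e1] at e2
      have h3 : (2 : ZMod 5) = 0 := by linear_combination e2
      exact absurd h3 (by decide)

end IsFan

end Cell0

end Pool.Agent.MP249bfd
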