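import Mathlib
import Pool.Agent.Lib.MP_249bfd_co.Comb

set_option autoImplicit false
set_option linter.unusedSectionVars false

/-! The Euler characteristic argument. -/

namespace Pool.Agent.MP249bfd

open Finset

namespace Cell0

variable {ι : Type} [DecidableEq ι] [Fintype ι] (C : Cell0 ι)

open Classical in
/-- Vertices of the dual polytope: four-element cliques. -/
noncomputable def Q : Finset (Finset ι) :=
  Finset.univ.filter (fun S => S.card = 4 ∧ C.Clq S)

theorem mem_Q {τ : Finset ι} : τ ∈ C.Q ↔ τ.card = 4 ∧ C.Clq τ := by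
  simp [Q]

/-- The combinatorial consequences of being a Hamiltonian sphere. -/
structure HamData (KK : Finset ι → Prop) : Prop where
  vert : ∀ τ ∈ C.Q, KK τ
  up : ∀ S S' τ, τ ∈ C.Q → S ⊆ S' → S' ⊆ τ → KK S → KK S'
  sub : ∀ S, KK S → ∃ τ ∈ C.Q, S ⊆ τ
  two_le : ∀ S, KK S → 2 ≤ S.card
  not_three : ∀ a b c, a ≠ b → a ≠ c → b ≠ c → KK {a, b, c} →
    ¬ (KK {a, b} ∧ KK {a, c} ∧ KK {b, c})
  two_of_three : ∀ a b c, a ≠ b → a ≠ c → b ≠ c → KK {a, b, c} → KK {a, c} ∨ KK {b, c}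
  four : ∀ τ ∈ C.Q, ∃ σ ⊆ τ, σ.card = 3 ∧ KK σ
  conn : ∀ A : Finset ι → Prop,
    (∀ τ ∈ C.Q, ∀ τ' ∈ C.Q, KK (τ ∩ τ') → A τ → A τ') →
    ∀ τ ∈ C.Q, ∀ τ' ∈ C.Q, A τ → A τ'
  sconn : ∀ A : Finset ι → Prop,
    (∀ f f' σ, f.card = 2 → f'.card = 2 → σ.card = 3 → KK f → KK f' → KK σ →
      f ⊆ σ → f' ⊆ σ → A f → A f') →
    ∀ f f', f.card = 2 → f'.card = 2 → KK f → KK f' → A f → A f'
  coh : ∀ c : Finset ι → Finset ι → ℤ,
    (∀ τ ∈ C.Q, ∀ τ' ∈ C.Q, ∀ τ'' ∈ C.Q, KK (τ ∩ τ' ∩ τ'') → c τ τ' + c τ' τ'' = c τ τ'') →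
    ∃ g : Finset ι → ℤ, ∀ τ ∈ C.Q, ∀ τ' ∈ C.Q, KK (τ ∩ τ') → c τ τ' = g τ' - g τ

namespace HamData

variable {C} {KK : Finset ι → Prop} (H : C.HamData KK)

include H

theorem clq {S : Finset ι} (hS : KK S) : C.Clq S := by
  obtain ⟨τ, hτ, hs⟩ := H.sub S hS
  exact ((C.mem_Q).mp hτ).2.mono hs

theorem pairs {σ : Finset ι} (hσ : σ.card = 3) (hK : KK σ) :
    ∃ f f', f ≠ f' ∧ f.card = 2 ∧ f'.card = 2 ∧ f ⊆ σ ∧ f' ⊆ σ ∧ KK f ∧ KK f' ∧
      ∀ f'', f''.card = 2 → f'' ⊆ σ → KK f'' → f'' = f ∨ f'' = f' := by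
  obtain ⟨a, b, c, hab, hac, hbc, rfl⟩ := Finset.card_eq_three.mp hσ
  have hsubs : ∀ f : Finset ι, f.card = 2 → f ⊆ {a, b, c} →
      f = {a, b} ∨ f = {a, c} ∨ f = {b, c} := by
    intro f hf hs
    obtain ⟨x, y, hxy, rfl⟩ := Finset.card_eq_two.mp hf
    have hx := hs (mem_insert_self _ _)
    have hy := hs (mem_insert_of_mem (mem_singleton_self _))
    simp only [mem_insert, mem_singleton] at hx hy
    rcases hx with rfl | rfl | rfl <;> rcases hy with rfl | rfl | rfl <;>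
      simp_all [Finset.pair_comm]
  have e1 : ({a, c, b} : Finset ι) = {a, b, c} := by
    ext z; simp only [mem_insert, mem_singleton]; tauto
  have e2 : ({b, c, a} : Finset ι) = {a, b, c} := by
    ext z; simp only [mem_insert, mem_singleton]; tauto
  have h1 := H.two_of_three a b c hab hac hbc hK
  have h2 := H.two_of_three a c b hac hab hbc.symm (e1 ▸ hK)
  have h3 := H.two_of_three b c a hbc hab.symm hac.symm (e2 ▸ hK)
  have h4 := H.not_three a b c hab hac hbc hK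
  rw [Finset.pair_comm c b] at h2
  rw [Finset.pair_comm b a, Finset.pair_comm c a] at h3
  have hsab : ({a, b} : Finset ι) ⊆ {a, b, c} := by
    intro z; simp only [mem_insert, mem_singleton]; tauto
  have hsac : ({a, c} : Finset ι) ⊆ {a, b, c} := by
    intro z; simp only [mem_insert, mem_singleton]; tauto
  have hsbc : ({b, c} : Finset ι) ⊆ {a, b, c} := by
    intro z; simp only [mem_insert, mem_singleton]; tauto
  have cab : ({a, b} : Finset ι).card = 2 := Finset.card_pair hab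
  have cac : ({a, c} : Finset ι).card = 2 := Finset.card_pair hac
  have cbc : ({b, c} : Finset ι).card = 2 := Finset.card_pair hbc
  have nab_ac : ({a, b} : Finset ι) ≠ {a, c} := by
    intro e
    have : b ∈ ({a, c} : Finset ι) := e ▸ (by simp)
    simp only [mem_insert, mem_singleton] at this
    tauto
  have nab_bc : ({a, b} : Finset ι) ≠ {b, c} := by
    intro e
    have : a ∈ ({b, c} : Finset ι) := e ▸ (by simp)
    simp only [mem_insert, mem_singleton] at this
    tauto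
  have nac_bc : ({a, c} : Finset ι) ≠ {b, c} := by
    intro e
    have : a ∈ ({b, c} : Finset ι) := e ▸ (by simp)
    simp only [mem_insert, mem_singleton] at this
    tauto
  by_cases pab : KK {a, b}
  · by_cases pac : KK {a, c}
    · have pbc : ¬ KK {b, c} := fun h => h4 ⟨pab, pac, h⟩
      refine ⟨{a, b}, {a, c}, nab_ac, cab, cac, hsab, hsac, pab, pac, fun f'' c'' s'' k'' => ?_⟩
      rcases hsubs f'' c'' s'' with e | e | e
      · exact Or.inl e
      · exact Or.inr e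
      · exact absurd (e ▸ k'') pbc
    · have pbc : KK {b, c} := by tauto
      refine ⟨{a, b}, {b, c}, nab_bc, cab, cbc, hsab, hsbc, pab, pbc, fun f'' c'' s'' k'' => ?_⟩
      rcases hsubs f'' c'' s'' with e | e | e
      · exact Or.inl e
      · exact absurd (e ▸ k'') pac
      · exact Or.inr e
  · have pac : KK {a, c} := by tauto
    have pbc : KK {b, c} := by tauto
    refine ⟨{a, c}, {b, c}, nac_bc, cac, cbc, hsac, hsbc, pac, pbc, fun f'' c'' s'' k'' => ?_⟩
    rcases hsubs f'' c'' s'' with e | e | e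
    · exact absurd (e ▸ k'') pab
    · exact Or.inl e
    · exact Or.inr e

/-- Every member contains a two-element member. -/
theorem exists_pair {S : Finset ι} (hS : KK S) : ∃ f ⊆ S, f.card = 2 ∧ KK f := by
  obtain ⟨τ, hτ, hs⟩ := H.sub S hS
  have h2 := H.two_le S hS
  have h4 : S.card ≤ 4 := by
    have := card_le_card hs
    rw [((C.mem_Q).mp hτ).1] at this
    exact this
  have hc : S.card = 2 ∨ S.card = 3 ∨ S.card = 4 := by omega
  rcases hc with hc | hc | hc
  · exact ⟨S, Subset.refl _, hc, hS⟩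
  · obtain ⟨f, -, -, h1, -, h3, -, h5, -⟩ := H.pairs hc hS
    exact ⟨f, h3, h1, h5⟩
  · have hSτ : S = τ := eq_of_subset_of_card_le hs (by rw [((C.mem_Q).mp hτ).1, hc])
    obtain ⟨σ, hσ, hσ3, hσK⟩ := H.four τ hτ
    obtain ⟨f, -, -, h1, -, h3, -, h5, -⟩ := H.pairs hσ3 hσK
    exact ⟨f, h3.trans (hSτ ▸ hσ), h1, h5⟩

end HamData

end Cell0

end Pool.Agent.MP249bfd
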