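import Mathlib
import Pool.Agent.Lib.MP_249bfd_co.Euler

set_option autoImplicit false
set_option linter.unusedSectionVars false

/-! Counting the four-element cliques. -/

namespace Pool.Agent.MP249bfd

open Finset

namespace Cell0

variable {ι : Type} [DecidableEq ι] [Fintype ι] (C : Cell0 ι)

open Classical in
/-- edges -/
noncomputable def Ed : Finset (Finset ι) :=
  Finset.univ.filter (fun S => S.card = 2 ∧ C.Clq S)

theorem mem_Ed {f : Finset ι} : f ∈ C.Ed ↔ f.card = 2 ∧ C.Clq f := by
  simp [Ed]

open Classical in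
theorem card_Q_Ed : 6 * C.Q.card = 5 * C.Ed.card := by
  have h := Finset.sum_card_bipartiteAbove_eq_sum_card_bipartiteBelow
    (s := C.Q) (t := C.Ed) (fun τ f => f ⊆ τ)
  have h1 : ∀ τ ∈ C.Q, (Finset.bipartiteAbove (fun τ f : Finset ι => f ⊆ τ) C.Ed τ).card = 6 := by
    intro τ hτ
    obtain ⟨h4, hc⟩ := C.mem_Q.mp hτ
    have : Finset.bipartiteAbove (fun τ f : Finset ι => f ⊆ τ) C.Ed τ = powersetCard 2 τ := by
      ext f
      rw [mem_bipartiteAbove, mem_Ed, mem_powersetCard]
      constructor
      · rintro ⟨⟨h2, h3⟩, h5⟩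
        exact ⟨h5, h2⟩
      · rintro ⟨h5, h2⟩
        exact ⟨⟨h2, hc.mono h5⟩, h5⟩
    rw [this, card_powersetCard, h4]
    rfl
  have h2 : ∀ f ∈ C.Ed, (Finset.bipartiteBelow (fun τ f : Finset ι => f ⊆ τ) C.Q f).card = 5 := by
    intro f hf
    obtain ⟨hf2, hfc⟩ := C.mem_Ed.mp hf
    obtain ⟨n, hn⟩ := exists_fan f hf2 hfc
    have : Finset.bipartiteBelow (fun τ f : Finset ι => f ⊆ τ) C.Q f =
        Finset.univ.image (fun k : ZMod 5 => insert (n (k + 1)) (insert (n k) f)) := by
      ext τ
      rw [mem_bipartiteBelow, mem_Q, mem_image]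
      constructor
      · rintro ⟨⟨h4, hc⟩, hs⟩
        obtain ⟨k, hk⟩ := hn.of_cyc h4 hc hs
        exact ⟨k, mem_univ _, hk.symm⟩
      · rintro ⟨k, -, rfl⟩
        exact ⟨⟨hn.cyc_card k, hn.cyc_clq k⟩, (subset_insert _ _).trans (subset_insert _ _)⟩
    rw [this, card_image_of_injective _ (fun k l e => hn.cyc_inj e), card_univ, ZMod.card]
  rw [Finset.sum_congr rfl h1, Finset.sum_congr rfl h2] at h
  simp only [sum_const, smul_eq_mul] at h
  omega

open Classical in
theorem card_Ed (D : ℕ) (hD : ∀ i, (Finset.univ.filter (fun j => C.adj i j)).card = D) :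
    2 * C.Ed.card = D * Fintype.card ι := by
  have h := Finset.sum_card_bipartiteAbove_eq_sum_card_bipartiteBelow
    (s := C.Ed) (t := (Finset.univ : Finset ι)) (fun f i => i ∈ f)
  have h1 : ∀ f ∈ C.Ed, (Finset.bipartiteAbove (fun (f : Finset ι) i => i ∈ f) Finset.univ f).card
      = 2 := by
    intro f hf
    obtain ⟨hf2, hfc⟩ := C.mem_Ed.mp hf
    have : Finset.bipartiteAbove (fun (f : Finset ι) i => i ∈ f) Finset.univ f = f := by
      ext i
      rw [mem_bipartiteAbove]
      simp
    rw [this, hf2]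
  have h2 : ∀ i ∈ (Finset.univ : Finset ι),
      (Finset.bipartiteBelow (fun (f : Finset ι) i => i ∈ f) C.Ed i).card = D := by
    intro i _
    rw [← hD i]
    have : Finset.bipartiteBelow (fun (f : Finset ι) i => i ∈ f) C.Ed i =
        (Finset.univ.filter (fun j => C.adj i j)).image (fun j => ({i, j} : Finset ι)) := by
      ext f
      rw [mem_bipartiteBelow, mem_Ed, mem_image]
      constructor
      · rintro ⟨⟨hf2, hfc⟩, hi⟩
        obtain ⟨a, b, hab, rfl⟩ := card_eq_two.mp hf2
        rw [mem_insert, mem_singleton] at hi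
        rcases hi with rfl | rfl
        · refine ⟨b, ?_, rfl⟩
          rw [mem_filter]
          exact ⟨mem_univ _, hfc i (by simp) b (by simp) hab⟩
        · refine ⟨a, ?_, pair_comm _ _⟩
          rw [mem_filter]
          exact ⟨mem_univ _, hfc i (by simp) a (by simp) hab.symm⟩
      · rintro ⟨j, hj, rfl⟩
        rw [mem_filter] at hj
        have hij : i ≠ j := fun e => C.irrefl j (e ▸ hj.2)
        refine ⟨⟨card_pair hij, ?_⟩, by simp⟩
        intro a ha b hb hab
        rw [mem_insert, mem_singleton] at ha hb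
        rcases ha with rfl | rfl <;> rcases hb with rfl | rfl
        · exact absurd rfl hab
        · exact hj.2
        · exact C.symm _ _ hj.2
        · exact absurd rfl hab
    rw [this, card_image_of_injOn]
    intro a ha b hb hab
    have ha' : C.adj i a := by simpa using ha
    have hb' : C.adj i b := by simpa using hb
    have hab' : ({i, a} : Finset ι) = {i, b} := hab
    have h3 : a ∈ ({i, b} : Finset ι) := hab' ▸ (by simp)
    rw [mem_insert, mem_singleton] at h3
    rcases h3 with rfl | h3
    · exact absurd ha' (C.irrefl a)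
    · exact h3
  rw [Finset.sum_congr rfl h1, Finset.sum_congr rfl h2] at h
  simp only [sum_const, smul_eq_mul, card_univ] at h
  rw [mul_comm, h, mul_comm]

end Cell0

end Pool.Agent.MP249bfd
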