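import Mathlib
import Pool.Agent.Lib.MP_249bfd_co.Data

set_option autoImplicit false
set_option linter.unusedSectionVars false

/-! The 600-cell as a `Cell`. -/

namespace Pool.Agent.MP249bfd

namespace Dat

open Real

/-- vertices of the 600-cell -/
noncomputable def gv (i : Fin 120) : E4 :=
  WithLp.toLp 2 ![((cf i 0 : ℝ) + cf i 1 * goldenRatio) / 2, ((cf i 2 : ℝ) + cf i 3 * goldenRatio) / 2,
    ((cf i 4 : ℝ) + cf i 5 * goldenRatio) / 2, ((cf i 6 : ℝ) + cf i 7 * goldenRatio) / 2]

theorem inner_gv (i j : Fin 120) :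
    inner ℝ (gv i) (gv j) = ((dA i j : ℝ) + dB i j * goldenRatio) / 4 := by
  have h := goldenRatio_sq
  rw [PiLp.inner_apply, Fin.sum_univ_four]
  simp only [gv, Matrix.cons_val_zero, Matrix.cons_val_one, Matrix.cons_val, RCLike.inner_apply,
    conj_trivial, dA, dB]
  push_cast
  generalize goldenRatio = p at *
  linear_combination ((cf i 1 : ℝ) * cf j 1 + cf i 3 * cf j 3 + cf i 5 * cf j 5 +
    cf i 7 * cf j 7) / 4 * h

theorem testBit_sum (a b c d e x : Nat) :
    Nat.testBit (1 <<< a ||| 1 <<< b ||| 1 <<< c ||| 1 <<< d ||| 1 <<< e) x = true ↔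
      a = x ∨ b = x ∨ c = x ∨ d = x ∨ e = x := by
  simp only [Nat.testBit_or, Nat.one_shiftLeft, Nat.testBit_two_pow, Bool.or_eq_true,
    decide_eq_true_eq]
  tauto

theorem testBit_row (i j x : Fin 120) (h : adjB i j = true) :
    (adjB i x = true ∧ adjB j x = true) ↔
      ∃ k : Fin 5, nbf (row i &&& row j) k = x := by
  have h1 : (adjB i x = true ∧ adjB j x = true) ↔ Nat.testBit (row i &&& row j) x = true := by
    rw [Nat.testBit_and, Bool.and_eq_true]
    rfl
  have h2 := chk_sum i j h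
  rw [h1]
  generalize row i &&& row j = m at *
  have h3 : Nat.testBit m x = true ↔ n0 m = x ∨ n1 m = x ∨ n2 m = x ∨ n3 m = x ∨ n4 m = x := by
    rw [← testBit_sum, ← h2]
  rw [h3]
  constructor
  · rintro (h | h | h | h | h)
    · exact ⟨0, h⟩
    · exact ⟨1, h⟩
    · exact ⟨2, h⟩
    · exact ⟨3, h⟩
    · exact ⟨4, h⟩
  · rintro ⟨k, hk⟩
    fin_cases k
    · exact Or.inl hk
    · exact Or.inr (Or.inl hk)
    · exact Or.inr (Or.inr (Or.inl hk))
    · exact Or.inr (Or.inr (Or.inr (Or.inl hk)))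
    · exact Or.inr (Or.inr (Or.inr (Or.inr hk)))

/-- the ordered common neighbours -/
def nbr (i j : Fin 120) (k : ZMod 5) : Fin 120 :=
  Fin.ofNat 120 (nbf (row i &&& row j) (k : Fin 5))

theorem nbr_val (i j : Fin 120) (h : adjB i j = true) (k : ZMod 5) :
    (nbr i j k : Nat) = nbf (row i &&& row j) (k : Fin 5) := by
  show _ % 120 = _
  exact Nat.mod_eq_of_lt (chk_lt i j h k)

theorem nbr_adj (i j : Fin 120) (h : adjB i j = true) (k l : ZMod 5) :
    adjB (nbr i j k) (nbr i j l) = true ↔ (l = k + 1 ∨ k = l + 1) := by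
  rw [nbr_val i j h, nbr_val i j h, chk_adj i j h k l, decide_eq_true_eq]
  exact Iff.rfl

theorem five_sep : ∀ k l : Fin 5, (∀ m : Fin 5, (m = k + 1 ∨ k = m + 1) ↔ (m = l + 1 ∨ l = m + 1)) →
    k = l := by
  decide

theorem nbr_inj (i j : Fin 120) (h : adjB i j = true) : Function.Injective (nbr i j) := by
  intro k l hkl
  apply five_sep k l
  intro m
  have h1 := nbr_adj i j h k m
  have h2 := nbr_adj i j h l m
  rw [hkl] at h1
  exact h1.symm.trans h2

/-- The 600-cell graph. -/
def cell0 : Cell0 (Fin 120) where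
  adj i j := adjB i j = true
  symm i j h := by rw [← chk_symm]; exact h
  irrefl i h := by
    rw [chk_irrefl i] at h
    exact absurd h (by decide)
  nb := nbr
  nb_inj := nbr_inj
  nb_common := by
    intro i j h x
    rw [testBit_row i j x h]
    constructor
    · rintro ⟨k, hk⟩
      exact ⟨k, Fin.ext (by rw [nbr_val i j h]; exact hk)⟩
    · rintro ⟨k, hk⟩
      exact ⟨k, by rw [← hk, nbr_val i j h]⟩
  nb_adj := nbr_adj

/-- The 600-cell. -/
noncomputable def cell : Cell (Fin 120) where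
  toCell0 := cell0
  g := gv
  α := goldenRatio / 2
  α_nonneg := by have := goldenRatio_pos; positivity
  α_lt := by have := goldenRatio_lt_two; linarith
  inner_self := by
    intro i
    obtain ⟨h1, h2⟩ := chk_self i
    rw [inner_gv, h1, h2]
    norm_num
  inner_adj := by
    intro i j h
    obtain ⟨h1, h2⟩ := chk_inner_adj i j h
    rw [inner_gv, h1, h2]
    push_cast
    ring
  inner_le := by
    intro i j h
    rw [inner_gv]
    have hp := one_lt_goldenRatio
    rcases chk_inner_le i j h with ⟨h1, h2⟩ | ⟨h1, h2⟩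
    · have h1' : (dA i j : ℝ) ≤ 0 := by exact_mod_cast h1
      have h2' : (dB i j : ℝ) ≤ 2 := by exact_mod_cast h2
      nlinarith
    · have h1' : (dA i j : ℝ) ≤ 2 := by exact_mod_cast h1
      have h2' : (dB i j : ℝ) ≤ 0 := by exact_mod_cast h2
      nlinarith
  exists_adj := chk_exists

end Dat

end Pool.Agent.MP249bfd
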