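import Mathlib
import Pool.Agent.Lib.MP_249bfd_co.Euler

set_option autoImplicit false
set_option linter.unusedSectionVars false

/-! The Euler characteristic argument: chain complex. -/

namespace Pool.Agent.MP249bfd

open Finset

namespace Cell0

namespace HamData

variable {ι : Type} [DecidableEq ι] [Fintype ι] {C : Cell0 ι} {KK : Finset ι → Prop}

/-- vertices -/
abbrev V (C : Cell0 ι) := {τ : Finset ι // τ ∈ C.Q}
/-- edges -/
abbrev E (KK : Finset ι → Prop) := {σ : Finset ι // σ.card = 3 ∧ KK σ}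
/-- two-faces -/
abbrev F (KK : Finset ι → Prop) := {f : Finset ι // f.card = 2 ∧ KK f}

noncomputable instance : Fintype (E KK) := Fintype.ofFinite _
noncomputable instance : Fintype (F KK) := Fintype.ofFinite _

variable (H : C.HamData KK)

/-- cyclic neighbours -/
noncomputable def nF (f : F KK) : ZMod 5 → ι := (exists_fan f.1 f.2.1 (H.clq f.2.2)).choose

theorem fan (f : F KK) : C.IsFan f.1 (H.nF f) := (exists_fan f.1 f.2.1 (H.clq f.2.2)).choose_spec

/-- vertices of a face -/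
noncomputable def cF (f : F KK) (k : ZMod 5) : V C :=
  ⟨insert (H.nF f (k + 1)) (insert (H.nF f k) f.1),
    (C.mem_Q).mpr ⟨(H.fan f).cyc_card k, (H.fan f).cyc_clq k⟩⟩

/-- edges of a face -/
noncomputable def eF (f : F KK) (k : ZMod 5) : E KK :=
  ⟨insert (H.nF f k) f.1, (H.fan f).tri_card k,
    H.up f.1 _ _ (H.cF f k).2 (subset_insert _ _) (subset_insert _ _) f.2.2⟩

theorem eF_inj (f : F KK) : Function.Injective (H.eF f) := by
  intro k l e
  exact (H.fan f).tri_inj (congrArg Subtype.val e)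

theorem cF_inj (f : F KK) : Function.Injective (H.cF f) := by
  intro k l e
  exact (H.fan f).cyc_inj (congrArg Subtype.val e)

theorem sub_eF (f : F KK) (k : ZMod 5) : f.1 ⊆ (H.eF f k).1 := subset_insert _ _

theorem sub_cF (f : F KK) (k : ZMod 5) : f.1 ⊆ (H.cF f k).1 :=
  (subset_insert _ _).trans (subset_insert _ _)

theorem exists_eF (f : F KK) (σ : E KK) (h : f.1 ⊆ σ.1) : ∃ k, σ = H.eF f k := by
  obtain ⟨k, hk⟩ := (H.fan f).of_tri σ.2.1 (H.clq σ.2.2) h
  exact ⟨k, Subtype.ext hk⟩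

theorem exists_cF (f : F KK) (τ : V C) (h : f.1 ⊆ τ.1) : ∃ k, τ = H.cF f k := by
  obtain ⟨k, hk⟩ := (H.fan f).of_cyc ((C.mem_Q).mp τ.2).1 ((C.mem_Q).mp τ.2).2 h
  exact ⟨k, Subtype.ext hk⟩

theorem eF_sub_cF (f : F KK) (k l : ZMod 5) :
    (H.eF f k).1 ⊆ (H.cF f l).1 ↔ (l = k ∨ l = k - 1) := (H.fan f).tri_sub_cyc

theorem cF_ne (f : F KK) (k : ZMod 5) : H.cF f (k - 1) ≠ H.cF f k := by
  intro e
  have := H.cF_inj f e
  have h2 : (1 : ZMod 5) = 0 := by linear_combination -this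
  exact absurd h2 (by decide)

include H in
theorem exists_ends (σ : E KK) : ∃ t h : V C, t ≠ h ∧ σ.1 ⊆ t.1 ∧ σ.1 ⊆ h.1 ∧
    ∀ τ : V C, σ.1 ⊆ τ.1 → τ = t ∨ τ = h := by
  obtain ⟨f, -, -, h1, -, h3, -, h5, -⟩ := H.pairs σ.2.1 σ.2.2
  obtain ⟨k, rfl⟩ := H.exists_eF ⟨f, h1, h5⟩ σ h3
  set f' : F KK := ⟨f, h1, h5⟩
  refine ⟨H.cF f' (k - 1), H.cF f' k, H.cF_ne f' k, ?_, ?_, ?_⟩
  · exact (H.eF_sub_cF f' k _).mpr (Or.inr rfl)
  · exact (H.eF_sub_cF f' k _).mpr (Or.inl rfl)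
  · intro τ hτ
    obtain ⟨l, rfl⟩ := H.exists_cF f' τ ((H.sub_eF f' k).trans hτ)
    rcases (H.eF_sub_cF f' k l).mp hτ with e | e
    · right; rw [e]
    · left; rw [e]

/-- tail of an edge -/
noncomputable def tl (σ : E KK) : V C := (H.exists_ends σ).choose
/-- head of an edge -/
noncomputable def hd (σ : E KK) : V C := (H.exists_ends σ).choose_spec.choose

theorem ends_spec (σ : E KK) : H.tl σ ≠ H.hd σ ∧ σ.1 ⊆ (H.tl σ).1 ∧ σ.1 ⊆ (H.hd σ).1 ∧
    ∀ τ : V C, σ.1 ⊆ τ.1 → τ = H.tl σ ∨ τ = H.hd σ :=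
  (H.exists_ends σ).choose_spec.choose_spec

theorem ends_eF (f : F KK) (k : ZMod 5) :
    (H.tl (H.eF f k) = H.cF f (k - 1) ∧ H.hd (H.eF f k) = H.cF f k) ∨
    (H.tl (H.eF f k) = H.cF f k ∧ H.hd (H.eF f k) = H.cF f (k - 1)) := by
  obtain ⟨h1, h2, h3, h4⟩ := H.ends_spec (H.eF f k)
  have a1 := h4 (H.cF f (k - 1)) ((H.eF_sub_cF f k _).mpr (Or.inr rfl))
  have a2 := h4 (H.cF f k) ((H.eF_sub_cF f k _).mpr (Or.inl rfl))
  have a3 := H.cF_ne f k
  rcases a1 with e1 | e1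
  · rcases a2 with e2 | e2
    · exact absurd (e1.trans e2.symm) a3
    · exact Or.inl ⟨e1.symm, e2.symm⟩
  · rcases a2 with e2 | e2
    · exact Or.inr ⟨e2.symm, e1.symm⟩
    · exact absurd (e1.trans e2.symm) a3

open Classical in
/-- incidence signs -/
noncomputable def sg (f : F KK) (k : ZMod 5) : ℤ :=
  if H.tl (H.eF f k) = H.cF f (k - 1) then 1 else -1

theorem sg_sq (f : F KK) (k : ZMod 5) : H.sg f k * H.sg f k = 1 := by
  unfold sg
  split_ifs <;> simp

theorem sg_spec {A : Type*} [AddCommGroup A] (g : V C → A) (f : F KK) (k : ZMod 5) :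
    g (H.hd (H.eF f k)) - g (H.tl (H.eF f k)) =
      H.sg f k • (g (H.cF f k) - g (H.cF f (k - 1))) := by
  rcases H.ends_eF f k with ⟨e1, e2⟩ | ⟨e1, e2⟩
  · have : H.sg f k = 1 := by
      unfold sg
      rw [if_pos e1]
    rw [this, e1, e2, one_smul]
  · have : H.sg f k = -1 := by
      unfold sg
      rw [if_neg]
      rw [e1]
      exact (H.cF_ne f k).symm
    rw [this, e1, e2, neg_smul, one_smul]
    abel

/-- zeroth coboundary -/
noncomputable def d0 : (V C → ℚ) →ₗ[ℚ] (E KK → ℚ) where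
  toFun g σ := g (H.hd σ) - g (H.tl σ)
  map_add' g g' := by
    funext σ
    simp only [Pi.add_apply]
    ring
  map_smul' r g := by
    funext σ
    simp only [Pi.smul_apply, smul_eq_mul, RingHom.id_apply]
    ring

/-- first coboundary -/
noncomputable def d1 : (E KK → ℚ) →ₗ[ℚ] (F KK → ℚ) where
  toFun c f := ∑ k : ZMod 5, (H.sg f k : ℚ) * c (H.eF f k)
  map_add' g g' := by
    funext f
    simp only [Pi.add_apply, mul_add, Finset.sum_add_distrib]
  map_smul' r g := by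
    funext f
    simp only [Pi.smul_apply, smul_eq_mul, RingHom.id_apply, Finset.mul_sum]
    refine Finset.sum_congr rfl fun k _ => ?_
    ring

theorem d0_apply (g : V C → ℚ) (σ : E KK) : H.d0 g σ = g (H.hd σ) - g (H.tl σ) := rfl
theorem d1_apply (c : E KK → ℚ) (f : F KK) :
    H.d1 c f = ∑ k : ZMod 5, (H.sg f k : ℚ) * c (H.eF f k) := rfl

theorem d1_d0 (g : V C → ℚ) : H.d1 (H.d0 g) = 0 := by
  funext f
  rw [d1_apply]
  have h1 : ∀ k : ZMod 5, (H.sg f k : ℚ) * H.d0 g (H.eF f k) =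
      g (H.cF f k) - g (H.cF f (k - 1)) := by
    intro k
    rw [d0_apply, H.sg_spec g f k, zsmul_eq_mul, ← mul_assoc]
    have : (H.sg f k : ℚ) * (H.sg f k : ℚ) = 1 := by exact_mod_cast H.sg_sq f k
    rw [this, one_mul]
  simp only [h1, Finset.sum_sub_distrib, Pi.zero_apply]
  rw [sub_eq_zero]
  exact (Fintype.sum_equiv (Equiv.subRight (1 : ZMod 5)) _ _ (fun k => rfl)).symm

end HamData

end Cell0

end Pool.Agent.MP249bfd
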