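import Mathlib
import Pool.Agent.Lib.MP_249bfd_co.Euler2

set_option autoImplicit false
set_option linter.unusedSectionVars false

/-! The Euler characteristic argument: exactness. -/

namespace Pool.Agent.MP249bfd

open Finset

theorem cyclic_potential (a : ZMod 5 → ℤ) (h : ∑ k, a k = 0) :
    ∃ p : ZMod 5 → ℤ, ∀ k, p k - p (k - 1) = a k := by
  have h' : a 0 + a 1 + a 2 + a 3 + a 4 = 0 := by
    have : (∑ k : Fin 5, a k) = 0 := h
    rw [Fin.sum_univ_five] at this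
    exact this
  refine ⟨fun k => (![0, a 1, a 1 + a 2, a 1 + a 2 + a 3, a 1 + a 2 + a 3 + a 4] : Fin 5 → ℤ) k,
    ?_⟩
  intro k
  fin_cases k
  · change (0 : ℤ) - (a 1 + a 2 + a 3 + a 4) = a 0
    linarith
  · change a 1 - (0 : ℤ) = a 1
    ring
  · change a 1 + a 2 - a 1 = a 2
    ring
  · change a 1 + a 2 + a 3 - (a 1 + a 2) = a 3
    ring
  · change a 1 + a 2 + a 3 + a 4 - (a 1 + a 2 + a 3) = a 4
    ring

theorem exists_common_denom {E : Type*} [Fintype E] (c : E → ℚ) :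
    ∃ N : ℕ, N ≠ 0 ∧ ∀ σ, ∃ m : ℤ, (N : ℚ) * c σ = m := by
  refine ⟨∏ σ, (c σ).den, Finset.prod_ne_zero_iff.mpr (fun σ _ => (c σ).den_nz), fun σ => ?_⟩
  obtain ⟨k, hk⟩ := Finset.dvd_prod_of_mem (fun σ => (c σ).den) (Finset.mem_univ σ)
  refine ⟨k * (c σ).num, ?_⟩
  rw [hk]
  push_cast
  have h1 : ((c σ).den : ℚ) * c σ = (c σ).num := by
    rw [mul_comm]
    exact Rat.mul_den_eq_num (c σ)
  linear_combination (k : ℚ) * h1

namespace Cell0

namespace HamData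

variable {ι : Type} [DecidableEq ι] [Fintype ι] {C : Cell0 ι} {KK : Finset ι → Prop}

variable (H : C.HamData KK)

theorem int_exact (c : E KK → ℤ) (hc : ∀ f, ∑ k : ZMod 5, H.sg f k * c (H.eF f k) = 0) :
    ∃ g : V C → ℤ, ∀ σ, c σ = g (H.hd σ) - g (H.tl σ) := by
  classical
  choose p hp using fun f => cyclic_potential (fun k => H.sg f k * c (H.eF f k)) (hc f)
  set P : F KK → V C → ℤ := fun f τ => p f (Function.invFun (H.cF f) τ) with hP
  have hPc : ∀ f k, P f (H.cF f k) = p f k := by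
    intro f k
    simp only [hP]
    rw [Function.leftInverse_invFun (H.cF_inj f)]
  have hA : ∀ (f : F KK) (σ : E KK), f.1 ⊆ σ.1 → P f (H.hd σ) - P f (H.tl σ) = c σ := by
    intro f σ hfσ
    obtain ⟨k, rfl⟩ := H.exists_eF f σ hfσ
    rw [H.sg_spec (P f) f k, hPc, hPc, hp, smul_eq_mul, ← mul_assoc, H.sg_sq, one_mul]
  have hWD : ∀ (f f' : F KK) (τ τ' : V C), f.1 ⊆ τ.1 → f.1 ⊆ τ'.1 → f'.1 ⊆ τ.1 → f'.1 ⊆ τ'.1 →
      P f τ' - P f τ = P f' τ' - P f' τ := by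
    intro f f' τ τ' h1 h2 h3 h4
    by_cases hτ : τ = τ'
    · rw [hτ]; simp
    by_cases hff : f = f'
    · rw [hff]
    have hc4 := ((C.mem_Q).mp τ.2).1
    have hc4' := ((C.mem_Q).mp τ'.2).1
    have hsub : f.1 ∪ f'.1 ⊆ τ.1 ∩ τ'.1 :=
      union_subset (subset_inter h1 h2) (subset_inter h3 h4)
    have hge : 3 ≤ (τ.1 ∩ τ'.1).card := by
      by_contra hlt
      push Not at hlt
      have hle := card_le_card hsub
      have e1 : f.1 = f.1 ∪ f'.1 :=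
        eq_of_subset_of_card_le subset_union_left (by rw [f.2.1]; omega)
      have e2 : f'.1 = f.1 ∪ f'.1 :=
        eq_of_subset_of_card_le subset_union_right (by rw [f'.2.1]; omega)
      exact hff (Subtype.ext (e1.trans e2.symm))
    have hle : (τ.1 ∩ τ'.1).card ≤ 3 := by
      by_contra hgt
      push Not at hgt
      have e1 : τ.1 ∩ τ'.1 = τ.1 := eq_of_subset_of_card_le inter_subset_left (by rw [hc4]; omega)
      have e2 : τ.1 ∩ τ'.1 = τ'.1 :=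
        eq_of_subset_of_card_le inter_subset_right (by rw [hc4']; omega)
      exact hτ (Subtype.ext (e1.symm.trans e2))
    set σ : E KK := ⟨τ.1 ∩ τ'.1, by omega,
      H.up f.1 _ τ.1 τ.2 (subset_inter h1 h2) inter_subset_left f.2.2⟩ with hσ
    have hfσ : f.1 ⊆ σ.1 := subset_inter h1 h2
    have hfσ' : f'.1 ⊆ σ.1 := subset_inter h3 h4
    obtain ⟨-, -, -, hends⟩ := H.ends_spec σ
    have a1 := hA f σ hfσ
    have a2 := hA f' σ hfσ'
    rcases hends τ inter_subset_left with e1 | e1 <;>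
      rcases hends τ' inter_subset_right with e2 | e2
    · exact absurd (e1.trans e2.symm) hτ
    · rw [e1, e2, a1, a2]
    · rw [e1, e2]
      linarith
    · exact absurd (e1.trans e2.symm) hτ
  -- the Cech cochain
  set cc : Finset ι → Finset ι → ℤ := fun τ τ' =>
    if h : ∃ (x : V C × V C × F KK), x.1.1 = τ ∧ x.2.1.1 = τ' ∧ x.2.2.1 ⊆ τ ∧ x.2.2.1 ⊆ τ' then
      P h.choose.2.2 h.choose.2.1 - P h.choose.2.2 h.choose.1 else 0 with hcc
  have hcc_eq : ∀ (τ τ' : V C) (f : F KK), f.1 ⊆ τ.1 → f.1 ⊆ τ'.1 →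
      cc τ.1 τ'.1 = P f τ' - P f τ := by
    intro τ τ' f h1 h2
    have hex : ∃ (x : V C × V C × F KK), x.1.1 = τ.1 ∧ x.2.1.1 = τ'.1 ∧ x.2.2.1 ⊆ τ.1 ∧
        x.2.2.1 ⊆ τ'.1 := ⟨(τ, τ', f), rfl, rfl, h1, h2⟩
    simp only [hcc]
    rw [dif_pos hex]
    obtain ⟨b1, b2, b3, b4⟩ := hex.choose_spec
    have c1 : hex.choose.1 = τ := Subtype.ext b1
    have c2 : hex.choose.2.1 = τ' := Subtype.ext b2
    rw [c1, c2]
    exact hWD _ _ _ _ b3 b4 h1 h2
  obtain ⟨g, hg⟩ := H.coh cc (by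
    intro τ hτ τ' hτ' τ'' hτ'' hK
    obtain ⟨f, hf, hf2, hfK⟩ := H.exists_pair hK
    have s1 : f ⊆ τ := hf.trans (inter_subset_left.trans inter_subset_left)
    have s2 : f ⊆ τ' := hf.trans (inter_subset_left.trans inter_subset_right)
    have s3 : f ⊆ τ'' := hf.trans inter_subset_right
    have a1 := hcc_eq ⟨τ, hτ⟩ ⟨τ', hτ'⟩ ⟨f, hf2, hfK⟩ s1 s2
    have a2 := hcc_eq ⟨τ', hτ'⟩ ⟨τ'', hτ''⟩ ⟨f, hf2, hfK⟩ s2 s3
    have a3 := hcc_eq ⟨τ, hτ⟩ ⟨τ'', hτ''⟩ ⟨f, hf2, hfK⟩ s1 s3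
    simp only at a1 a2 a3
    rw [a1, a2, a3]
    ring)
  refine ⟨fun τ => g τ.1, fun σ => ?_⟩
  obtain ⟨f, hf, hf2, hfK⟩ := H.exists_pair σ.2.2
  obtain ⟨-, b1, b2, -⟩ := H.ends_spec σ
  have a1 := hcc_eq (H.tl σ) (H.hd σ) ⟨f, hf2, hfK⟩ (hf.trans b1) (hf.trans b2)
  rw [hA ⟨f, hf2, hfK⟩ σ hf] at a1
  rw [← a1]
  apply hg _ (H.tl σ).2 _ (H.hd σ).2
  exact H.up σ.1 _ (H.tl σ).1 (H.tl σ).2 (subset_inter b1 b2) inter_subset_left σ.2.2

theorem rat_exact (c : E KK → ℚ) (hc : H.d1 c = 0) : ∃ g : V C → ℚ, H.d0 g = c := by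
  obtain ⟨N, hN, hm⟩ := exists_common_denom c
  choose m hm using hm
  obtain ⟨g, hg⟩ := H.int_exact m (by
    intro f
    have h1 := congrFun hc f
    rw [d1_apply, Pi.zero_apply] at h1
    have h2 : ((∑ k : ZMod 5, H.sg f k * m (H.eF f k) : ℤ) : ℚ) = 0 := by
      push_cast
      have : ∀ k : ZMod 5, (H.sg f k : ℚ) * (m (H.eF f k) : ℚ) =
          N * ((H.sg f k : ℚ) * c (H.eF f k)) := by
        intro k
        rw [← hm]
        ring
      simp only [this]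
      rw [← Finset.mul_sum, h1, mul_zero]
    exact_mod_cast h2)
  have hNQ : (N : ℚ) ≠ 0 := by exact_mod_cast hN
  refine ⟨fun τ => (g τ : ℚ) / N, ?_⟩
  funext σ
  rw [d0_apply]
  have h1 := hg σ
  have h2 := hm σ
  rw [h1] at h2
  push_cast at h2
  field_simp
  linarith

end HamData

end Cell0

end Pool.Agent.MP249bfd
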