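import Mathlib
import Pool.Agent.Lib.MP_249bfd_co.Euler3

set_option autoImplicit false
set_option linter.unusedSectionVars false

/-! The Euler characteristic argument: dimension count. -/

namespace Pool.Agent.MP249bfd

open Finset

theorem const_of_shift {A : Type*} (p : ZMod 5 → A) (h : ∀ k, p k = p (k - 1)) (k l : ZMod 5) :
    p k = p l := by
  have h1 : ∀ n : ℕ, p (n : ZMod 5) = p 0 := by
    intro n
    induction n with
    | zero => simp
    | succ n ih =>
      rw [h]
      push_cast
      rw [add_sub_cancel_right, ih]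
  have h2 : ∀ k : ZMod 5, p k = p 0 := by
    intro k
    have := h1 k.val
    rwa [ZMod.natCast_zmod_val] at this
  rw [h2 k, h2 l]

namespace Cell0

namespace HamData

variable {ι : Type} [DecidableEq ι] [Fintype ι] {C : Cell0 ι} {KK : Finset ι → Prop}

variable (H : C.HamData KK)

theorem const_of_d0 (g : V C → ℚ) (hg : H.d0 g = 0) (τ τ' : V C) : g τ = g τ' := by
  have h1 := H.conn (fun S => ∀ h : S ∈ C.Q, g τ = g ⟨S, h⟩) (by
    intro S hS S' hS' hK hA _
    obtain ⟨f, hf, hf2, hfK⟩ := H.exists_pair hK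
    set f' : F KK := ⟨f, hf2, hfK⟩
    obtain ⟨k, hk⟩ := H.exists_cF f' ⟨S, hS⟩ (hf.trans inter_subset_left)
    obtain ⟨l, hl⟩ := H.exists_cF f' ⟨S', hS'⟩ (hf.trans inter_subset_right)
    rw [hA hS, hk, hl]
    apply const_of_shift (fun k => g (H.cF f' k))
    intro k
    have h2 := H.sg_spec g f' k
    have h3 : H.d0 g (H.eF f' k) = 0 := by rw [hg]; rfl
    rw [d0_apply, h2, zsmul_eq_mul] at h3
    have h4 : (H.sg f' k : ℚ) ≠ 0 := by
      intro h0
      have h5 : (H.sg f' k : ℚ) * (H.sg f' k : ℚ) = 1 := by exact_mod_cast H.sg_sq f' k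
      rw [h0] at h5
      simp at h5
    have h5 := (mul_eq_zero.mp h3).resolve_left h4
    linarith) τ.1 τ.2 τ'.1 τ'.2 (fun _ => rfl)
  exact h1 τ'.2

theorem finrank_ker_d0 (τ0 : V C) : Module.finrank ℚ (LinearMap.ker H.d0) = 1 := by
  rw [finrank_eq_one_iff']
  refine ⟨⟨fun _ => 1, ?_⟩, ?_, ?_⟩
  · rw [LinearMap.mem_ker]
    funext σ
    simp [d0_apply]
  · intro h
    have h1 := congrFun (congrArg Subtype.val h) τ0
    simp at h1
  · rintro ⟨g, hg⟩
    rw [LinearMap.mem_ker] at hg
    refine ⟨g τ0, ?_⟩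
    apply Subtype.ext
    funext τ
    simp only [SetLike.mk_smul_mk, Pi.smul_apply, smul_eq_mul, mul_one]
    exact H.const_of_d0 g hg τ0 τ

theorem ker_d1 : LinearMap.ker H.d1 = LinearMap.range H.d0 := by
  ext c
  rw [LinearMap.mem_ker, LinearMap.mem_range]
  constructor
  · intro h
    exact H.rat_exact c h
  · rintro ⟨g, rfl⟩
    exact H.d1_d0 g

open Classical in
theorem d1_single (σ : E KK) (f : F KK) :
    (f.1 ⊆ σ.1 → ∃ s : ℚ, s * s = 1 ∧ H.d1 (Pi.single σ 1) f = s) ∧
    (¬ f.1 ⊆ σ.1 → H.d1 (Pi.single σ 1) f = 0) := by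
  constructor
  · intro hs
    obtain ⟨k, hk⟩ := H.exists_eF f σ hs
    refine ⟨H.sg f k, by exact_mod_cast H.sg_sq f k, ?_⟩
    rw [d1_apply, Finset.sum_eq_single k]
    · rw [hk, Pi.single_eq_same, mul_one]
    · intro l _ hl
      rw [Pi.single_eq_of_ne, mul_zero]
      intro e
      exact hl (H.eF_inj f (e.trans hk))
    · intro h
      exact absurd (mem_univ k) h
  · intro hs
    rw [d1_apply]
    apply Finset.sum_eq_zero
    intro k _
    rw [Pi.single_eq_of_ne, mul_zero]
    intro e
    exact hs (e ▸ H.sub_eF f k)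

open Classical in
theorem quot_le_one (f0 : F KK) :
    Module.finrank ℚ ((F KK → ℚ) ⧸ LinearMap.range H.d1) ≤ 1 := by
  set mk := (LinearMap.range H.d1).mkQ with hmk
  have hA : ∀ f : F KK, ∃ s : ℚ, mk (Pi.single f 1) = s • mk (Pi.single f0 1) := by
    intro f
    have h1 := H.sconn
      (fun S => ∀ h : S.card = 2 ∧ KK S, ∃ s : ℚ, mk (Pi.single ⟨S, h⟩ 1) = s • mk (Pi.single f0 1))
      (by
        intro S S' σ c2 c2' c3 kS kS' kσ sub sub' hAS hS'
        obtain ⟨s, hs⟩ := hAS ⟨c2, kS⟩
        by_cases hSS : S = S'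
        · subst hSS
          exact ⟨s, hs⟩
        set f : F KK := ⟨S, c2, kS⟩ with hf
        set f' : F KK := ⟨S', c2', kS'⟩ with hf'
        set e : E KK := ⟨σ, c3, kσ⟩ with he
        have hff : f ≠ f' := fun h => hSS (congrArg Subtype.val h)
        obtain ⟨u, hu, hu2⟩ := (H.d1_single e f).1 sub
        obtain ⟨u', hu', hu2'⟩ := (H.d1_single e f').1 sub'
        have hsum : H.d1 (Pi.single e 1) = u • Pi.single f 1 + u' • Pi.single f' 1 := by
          funext f''
          by_cases h1 : f'' = f
          · rw [h1, hu2]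
            simp [hff]
          by_cases h2 : f'' = f'
          · rw [h2, hu2']
            simp [hff.symm]
          rw [(H.d1_single e f'').2]
          · simp [h1, h2]
          · intro hs''
            obtain ⟨a, b, -, -, -, -, -, -, -, hall⟩ := H.pairs c3 kσ
            have a1 := hall S c2 sub kS
            have a2 := hall S' c2' sub' kS'
            have a3 := hall f''.1 f''.2.1 hs'' f''.2.2
            have : f''.1 = S ∨ f''.1 = S' := by
              rcases a1 with a1 | a1 <;> rcases a2 with a2 | a2 <;> rcases a3 with a3 | a3 <;>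
                simp_all
            rcases this with h | h
            · exact h1 (Subtype.ext h)
            · exact h2 (Subtype.ext h)
        have hz : mk (H.d1 (Pi.single e 1)) = 0 := by
          rw [hmk, Submodule.mkQ_apply, Submodule.Quotient.mk_eq_zero]
          exact LinearMap.mem_range_self _ _
        rw [hsum, map_add, map_smul, map_smul, hs] at hz
        refine ⟨-(u' * u * s), ?_⟩
        have h3 : u' • (u' • mk (Pi.single f' 1)) =
            u' • (-(u • s • mk (Pi.single f0 1))) := by
          rw [← eq_neg_of_add_eq_zero_right hz]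
        rw [smul_smul, hu', one_smul] at h3
        rw [h3, smul_neg, smul_smul, smul_smul, neg_smul])
      f0.1 f.1 f0.2.1 f.2.1 f0.2.2 f.2.2 (fun _ => ⟨1, by rw [one_smul]⟩)
    exact h1 f.2
  choose s hs using hA
  apply finrank_le_one (mk (Pi.single f0 1))
  intro w
  obtain ⟨x, rfl⟩ := Submodule.mkQ_surjective _ w
  refine ⟨∑ f, x f * s f, ?_⟩
  have hx : x = ∑ f, x f • (Pi.single f (1 : ℚ) : F KK → ℚ) := by
    funext f
    simp [Finset.sum_apply, Pi.single_apply]
  conv_rhs => rw [hx]
  rw [map_sum, Finset.sum_smul]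
  refine Finset.sum_congr rfl fun f _ => ?_
  rw [map_smul, ← hmk, hs f, smul_smul]

include H in
theorem double_count : Fintype.card (F KK) * 5 = Fintype.card (E KK) * 2 := by
  classical
  have := Finset.card_mul_eq_card_mul (s := (univ : Finset (F KK))) (t := (univ : Finset (E KK)))
    (fun f σ => f.1 ⊆ σ.1) (m := 5) (n := 2) ?_ ?_
  · simpa using this
  · intro f _
    have : (univ : Finset (E KK)).bipartiteAbove (fun f σ => f.1 ⊆ σ.1) f =
        univ.image (H.eF f) := by
      ext σ
      simp only [bipartiteAbove, mem_filter, mem_univ, true_and, mem_image]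
      constructor
      · intro h
        obtain ⟨k, hk⟩ := H.exists_eF f σ h
        exact ⟨k, hk.symm⟩
      · rintro ⟨k, rfl⟩
        exact H.sub_eF f k
    rw [this, card_image_of_injective _ (H.eF_inj f)]
    rfl
  · intro σ _
    obtain ⟨a, b, hab, ca, cb, sa, sb, ka, kb, hall⟩ := H.pairs σ.2.1 σ.2.2
    have : (univ : Finset (F KK)).bipartiteBelow (fun f σ => f.1 ⊆ σ.1) σ =
        {⟨a, ca, ka⟩, ⟨b, cb, kb⟩} := by
      ext f
      simp only [bipartiteBelow, mem_filter, mem_univ, true_and, mem_insert, mem_singleton]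
      constructor
      · intro h
        rcases hall f.1 f.2.1 h f.2.2 with e | e
        · exact Or.inl (Subtype.ext e)
        · exact Or.inr (Subtype.ext e)
      · rintro (rfl | rfl)
        · exact sa
        · exact sb
    rw [this, card_pair]
    intro h
    exact hab (congrArg Subtype.val h)

include H in
/-- The number of vertices cannot be divisible by three. -/
theorem not_three_dvd (hne : C.Q.Nonempty) : ¬ 3 ∣ C.Q.card := by
  obtain ⟨τ0, hτ0⟩ := hne
  obtain ⟨f0, -, hf2, hfK⟩ := H.exists_pair (H.vert τ0 hτ0)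
  have h1 := H.finrank_ker_d0 ⟨τ0, hτ0⟩
  have h2 := LinearMap.finrank_range_add_finrank_ker H.d0
  have h3 := LinearMap.finrank_range_add_finrank_ker H.d1
  have h4 := H.quot_le_one ⟨f0, hf2, hfK⟩
  have h5 := Submodule.finrank_quotient_add_finrank (LinearMap.range H.d1)
  have h6 := H.double_count
  rw [H.ker_d1] at h3
  rw [Module.finrank_pi] at h2 h3 h5
  have h7 : Fintype.card (V C) = C.Q.card := Fintype.card_coe C.Q
  rw [h7] at h2
  omega

end HamData

end Cell0

end Pool.Agent.MP249bfd
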