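import Mathlib
import Pool.Agent.Lib.MP_249bfd_co.Euler

set_option autoImplicit false
set_option linter.unusedSectionVars false

/-! Geometry of the dual polytope: vertices, slack functions, faces. -/

namespace Pool.Agent.MP249bfd

open Finset

/-- Four-dimensional Euclidean space. -/
abbrev E4 := EuclideanSpace ℝ (Fin 4)

/-- The 600-cell: combinatorics together with unit normal vectors. -/
structure Cell (ι : Type) extends Cell0 ι where
  /-- facet normals -/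
  g : ι → E4
  /-- inner product of adjacent normals -/
  α : ℝ
  α_nonneg : 0 ≤ α
  α_lt : α < 1
  inner_self : ∀ i, inner ℝ (g i) (g i) = 1
  inner_adj : ∀ i j, adj i j → inner ℝ (g i) (g j) = α
  inner_le : ∀ i j, i ≠ j → inner ℝ (g i) (g j) ≤ α
  exists_adj : ∀ i, ∃ j, adj i j

namespace Cell

variable {ι : Type} [DecidableEq ι] [Fintype ι] (C : Cell ι)

/-- circumradius normalisation -/
noncomputable def rad : ℝ := Real.sqrt (4 + 12 * C.α)

theorem rad_pos : 0 < C.rad := Real.sqrt_pos.mpr (by linarith [C.α_nonneg])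

theorem rad_sq : C.rad ^ 2 = 4 + 12 * C.α := Real.sq_sqrt (by linarith [C.α_nonneg])

/-- common value of the facet functionals -/
noncomputable def cst : ℝ := C.rad⁻¹ * (1 + 3 * C.α)

/-- vertices -/
noncomputable def z (τ : Finset ι) : E4 := C.rad⁻¹ • ∑ i ∈ τ, C.g i

/-- slack functions -/
noncomputable def sl (i : ι) (x : E4) : ℝ := C.cst - inner ℝ (C.g i) x

theorem continuous_sl (i : ι) : Continuous (C.sl i) := by
  unfold sl
  fun_prop

theorem inner_z (i : ι) (τ : Finset ι) :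
    inner ℝ (C.g i) (C.z τ) = C.rad⁻¹ * ∑ j ∈ τ, inner ℝ (C.g i) (C.g j) := by
  rw [z, inner_smul_right, inner_sum]

theorem sum_inner_mem {τ : Finset ι} (hτ : τ ∈ C.Q) {i : ι} (hi : i ∈ τ) :
    ∑ j ∈ τ, inner ℝ (C.g i) (C.g j) = 1 + 3 * C.α := by
  obtain ⟨h4, hc⟩ := (C.mem_Q).mp hτ
  rw [← Finset.add_sum_erase _ _ hi, C.inner_self]
  have : ∀ j ∈ τ.erase i, inner ℝ (C.g i) (C.g j) = C.α := by
    intro j hj
    rw [mem_erase] at hj
    exact C.inner_adj i j (hc i hi j hj.2 (Ne.symm hj.1))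
  rw [Finset.sum_congr rfl this, Finset.sum_const, card_erase_of_mem hi, h4]
  norm_num

theorem sum_inner_notMem {τ : Finset ι} (hτ : τ ∈ C.Q) {i : ι} (hi : i ∉ τ) :
    ∑ j ∈ τ, inner ℝ (C.g i) (C.g j) < 1 + 3 * C.α := by
  obtain ⟨h4, hc⟩ := (C.mem_Q).mp hτ
  have h1 : ∑ j ∈ τ, inner ℝ (C.g i) (C.g j) ≤ ∑ j ∈ τ, C.α := by
    apply Finset.sum_le_sum
    intro j hj
    exact C.inner_le i j (fun e => hi (e ▸ hj))
  rw [Finset.sum_const, h4] at h1
  have := C.α_lt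
  simp only [nsmul_eq_mul] at h1
  push_cast at h1
  linarith

theorem sl_z_mem {τ : Finset ι} (hτ : τ ∈ C.Q) {i : ι} (hi : i ∈ τ) : C.sl i (C.z τ) = 0 := by
  rw [sl, inner_z, C.sum_inner_mem hτ hi, cst]
  ring

theorem sl_z_notMem {τ : Finset ι} (hτ : τ ∈ C.Q) {i : ι} (hi : i ∉ τ) :
    0 < C.sl i (C.z τ) := by
  rw [sl, inner_z, cst, ← mul_sub]
  have := C.sum_inner_notMem hτ hi
  have h2 := inv_pos.mpr C.rad_pos
  apply mul_pos h2
  linarith

theorem sl_z_nonneg {τ : Finset ι} (hτ : τ ∈ C.Q) (i : ι) : 0 ≤ C.sl i (C.z τ) := by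
  by_cases hi : i ∈ τ
  · rw [C.sl_z_mem hτ hi]
  · exact (C.sl_z_notMem hτ hi).le

theorem sl_z_eq_zero {τ : Finset ι} (hτ : τ ∈ C.Q) {i : ι} : C.sl i (C.z τ) = 0 ↔ i ∈ τ := by
  constructor
  · intro h
    by_contra hi
    exact (C.sl_z_notMem hτ hi).ne' h
  · exact C.sl_z_mem hτ

theorem norm_z {τ : Finset ι} (hτ : τ ∈ C.Q) : ‖C.z τ‖ = 1 := by
  have h1 : inner ℝ (C.z τ) (C.z τ) = 1 := by
    conv_lhs => rw [z, inner_smul_left, sum_inner]
    have : ∀ i ∈ τ, inner ℝ (C.g i) (C.rad⁻¹ • ∑ i ∈ τ, C.g i) = C.rad⁻¹ * (1 + 3 * C.α) := by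
      intro i hi
      have h := C.inner_z i τ
      rw [C.sum_inner_mem hτ hi] at h
      exact h
    rw [Finset.sum_congr rfl this, Finset.sum_const, ((C.mem_Q).mp hτ).1]
    have h2 := C.rad_sq
    have h3 := C.rad_pos.ne'
    simp only [nsmul_eq_mul, conj_trivial]
    push_cast
    field_simp
    linarith
  rw [real_inner_self_eq_norm_sq] at h1
  nlinarith [norm_nonneg (C.z τ)]

/-- affine combination formula for slack functions -/
theorem sl_comb {κ : Type*} (s : Finset κ) (w : κ → ℝ) (y : κ → E4) (hw : ∑ k ∈ s, w k = 1)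
    (i : ι) : C.sl i (∑ k ∈ s, w k • y k) = ∑ k ∈ s, w k * C.sl i (y k) := by
  simp only [sl, inner_sum, inner_smul_right, mul_sub, Finset.sum_sub_distrib]
  rw [← Finset.sum_mul, hw, one_mul]

/-- the polytope -/
noncomputable def P : Set E4 := convexHull ℝ (C.z '' (C.Q : Set (Finset ι)))

theorem z_mem_P {τ : Finset ι} (hτ : τ ∈ C.Q) : C.z τ ∈ C.P :=
  subset_convexHull ℝ _ ⟨τ, hτ, rfl⟩

theorem convex_P : Convex ℝ C.P := convex_convexHull ℝ _

theorem exists_rep {x : E4} (hx : x ∈ C.P) : ∃ (κ : Type) (_ : Fintype κ) (w : κ → ℝ)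
    (t : κ → Finset ι), (∀ k, 0 ≤ w k) ∧ ∑ k, w k = 1 ∧ (∀ k, t k ∈ C.Q) ∧
      ∑ k, w k • C.z (t k) = x := by
  rw [P, mem_convexHull_iff_exists_fintype] at hx
  obtain ⟨κ, hκ, w, y, hw, hw1, hy, hx⟩ := hx
  choose t ht using hy
  refine ⟨κ, hκ, w, t, hw, hw1, fun k => (ht k).1, ?_⟩
  rw [← hx]
  refine Finset.sum_congr rfl fun k _ => ?_
  rw [(ht k).2]

theorem sl_nonneg {x : E4} (hx : x ∈ C.P) (i : ι) : 0 ≤ C.sl i x := by
  obtain ⟨κ, hκ, w, t, hw, hw1, ht, rfl⟩ := C.exists_rep hx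
  rw [C.sl_comb _ _ _ hw1]
  exact Finset.sum_nonneg fun k _ => mul_nonneg (hw k) (C.sl_z_nonneg (ht k) i)

/-- If a linear functional attains its maximum over the polytope at `x`, then it attains it at a
vertex whose facets include all the facets through `x`. -/
theorem exists_vertex {x : E4} (hx : x ∈ C.P) (l : E4 →ₗ[ℝ] ℝ) (hl : ∀ y ∈ C.P, l y ≤ l x) :
    ∃ τ ∈ C.Q, (∀ i, C.sl i x = 0 → i ∈ τ) ∧ l (C.z τ) = l x := by
  obtain ⟨κ, hκ, w, t, hw, hw1, ht, hxe⟩ := C.exists_rep hx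
  obtain ⟨k, hk⟩ : ∃ k, 0 < w k := by
    by_contra hcon
    push Not at hcon
    have : ∑ k, w k ≤ 0 := Finset.sum_nonpos fun k _ => hcon k
    linarith
  refine ⟨t k, ht k, ?_, ?_⟩
  · intro i hi
    rw [← C.sl_z_eq_zero (ht k)]
    rw [← hxe, C.sl_comb _ _ _ hw1] at hi
    have := (Finset.sum_eq_zero_iff_of_nonneg
      (fun k _ => mul_nonneg (hw k) (C.sl_z_nonneg (ht k) i))).mp hi k (mem_univ k)
    exact (mul_eq_zero.mp this).resolve_left hk.ne'
  · have h1 : ∑ k, w k * (l x - l (C.z (t k))) = 0 := by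
      simp only [mul_sub, Finset.sum_sub_distrib]
      rw [← Finset.sum_mul, hw1, one_mul, sub_eq_zero]
      conv_lhs => rw [← hxe]
      rw [map_sum]
      refine Finset.sum_congr rfl fun k _ => ?_
      rw [map_smul, smul_eq_mul]
    have h2 := (Finset.sum_eq_zero_iff_of_nonneg
      (fun k _ => mul_nonneg (hw k) (sub_nonneg.mpr (hl _ (C.z_mem_P (ht k)))))).mp h1 k (mem_univ k)
    have h3 := (mul_eq_zero.mp h2).resolve_left hk.ne'
    linarith

theorem exists_sup {x : E4} (hx : x ∈ C.P) : ∃ τ ∈ C.Q, ∀ i, C.sl i x = 0 → i ∈ τ := by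
  obtain ⟨τ, hτ, h, -⟩ := C.exists_vertex hx 0 (fun y _ => by simp)
  exact ⟨τ, hτ, h⟩

end Cell

end Pool.Agent.MP249bfd
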