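import Mathlib
import Pool.Agent.Lib.MP_249bfd_co.Geom

set_option autoImplicit false
set_option linter.unusedSectionVars false

/-! Geometry of the dual polytope: local coordinates and classification of faces. -/

namespace Pool.Agent.MP249bfd

open Finset

namespace Cell

variable {ι : Type} [DecidableEq ι] [Fintype ι] (C : Cell ι)

/-- neighbouring vertices -/
theorem exists_nbr {τ : Finset ι} (hτ : τ ∈ C.Q) {i : ι} (hi : i ∈ τ) :
    ∃ τ' ∈ C.Q, τ.erase i ⊆ τ' ∧ i ∉ τ' := by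
  obtain ⟨h4, hc⟩ := (C.mem_Q).mp hτ
  have h3 : (τ.erase i).card = 3 := by rw [card_erase_of_mem hi, h4]
  obtain ⟨f, hf, hf2⟩ := Finset.exists_subset_card_eq (show 2 ≤ (τ.erase i).card by omega)
  have hfτ : f ⊆ τ := hf.trans (erase_subset _ _)
  obtain ⟨n, hn⟩ := Cell0.exists_fan (C := C.toCell0) f hf2 (hc.mono hfτ)
  obtain ⟨k, hk⟩ := hn.of_cyc h4 hc hfτ
  obtain ⟨l, hl⟩ := hn.of_tri h3 (hc.mono (erase_subset _ _)) hf
  have key : ∀ m, insert (n l) f ⊆ insert (n (m + 1)) (insert (n m) f) → m ≠ k →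
      ∃ τ' ∈ C.Q, τ.erase i ⊆ τ' ∧ i ∉ τ' := by
    intro m hm hmk
    refine ⟨insert (n (m + 1)) (insert (n m) f),
      (C.mem_Q).mpr ⟨hn.cyc_card m, hn.cyc_clq m⟩, by rw [hl]; exact hm, ?_⟩
    intro hi'
    have hsub : τ ⊆ insert (n (m + 1)) (insert (n m) f) := by
      rw [← insert_erase hi, hl]
      intro y hy
      rw [mem_insert] at hy
      rcases hy with rfl | hy
      · exact hi'
      · exact hm hy
    have heq := eq_of_subset_of_card_le hsub (by rw [hn.cyc_card, h4])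
    rw [hk] at heq
    exact hmk (hn.cyc_inj heq).symm
  have hkl : k = l ∨ k = l - 1 := by
    rw [← hn.tri_sub_cyc, ← hk, ← hl]
    exact erase_subset _ _
  rcases hkl with e | e
  · apply key (l - 1) (hn.tri_sub_cyc.mpr (Or.inr rfl))
    rw [e]
    intro h
    have h2 : (1 : ZMod 5) = 0 := by linear_combination -h
    exact absurd h2 (by decide)
  · apply key l (hn.tri_sub_cyc.mpr (Or.inl rfl))
    rw [e]
    intro h
    have h2 : (1 : ZMod 5) = 0 := by linear_combination h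
    exact absurd h2 (by decide)

open Classical in
/-- the neighbour of the vertex `τ` across the facet `i` -/
noncomputable def nbr (τ : Finset ι) (i : ι) : Finset ι :=
  if h : τ ∈ C.Q ∧ i ∈ τ then (C.exists_nbr h.1 h.2).choose else ∅

theorem nbr_spec {τ : Finset ι} (hτ : τ ∈ C.Q) {i : ι} (hi : i ∈ τ) :
    C.nbr τ i ∈ C.Q ∧ τ.erase i ⊆ C.nbr τ i ∧ i ∉ C.nbr τ i := by
  unfold nbr
  rw [dif_pos ⟨hτ, hi⟩]
  exact (C.exists_nbr hτ hi).choose_spec

/-- Vectors orthogonal to the four normals at a vertex vanish. -/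
theorem eq_zero_of_orthogonal {τ : Finset ι} (hτ : τ ∈ C.Q) (v : E4)
    (hv : ∀ i ∈ τ, inner ℝ (C.g i) v = 0) : v = 0 := by
  obtain ⟨h4, hc⟩ := (C.mem_Q).mp hτ
  have hli : LinearIndependent ℝ (fun i : τ => C.g i) := by
    rw [Fintype.linearIndependent_iff]
    intro a ha j
    have key : ∀ j : τ, (1 - C.α) * a j + C.α * ∑ i, a i = 0 := by
      intro j
      have h1 : inner ℝ (C.g j) (∑ i : τ, a i • C.g i) = 0 := by rw [ha, inner_zero_right]
      rw [inner_sum] at h1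
      have h2 : ∀ i : τ, inner ℝ (C.g j) (a i • C.g i) =
          (if i = j then (1 - C.α) * a j else 0) + C.α * a i := by
        intro i
        rw [inner_smul_right]
        by_cases hij : i = j
        · rw [if_pos hij, hij, C.inner_self]
          ring
        · rw [if_neg hij, C.inner_adj j i (hc j j.2 i i.2 (fun e => hij (Subtype.ext e.symm)))]
          ring
      rw [Finset.sum_congr rfl (fun i _ => h2 i), Finset.sum_add_distrib, Finset.sum_ite_eq',
        if_pos (mem_univ _), ← Finset.mul_sum] at h1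
      exact h1
    have hsum : (1 + 3 * C.α) * ∑ i, a i = 0 := by
      have h1 : ∑ j : τ, ((1 - C.α) * a j + C.α * ∑ i, a i) = 0 :=
        Finset.sum_eq_zero fun j _ => key j
      rw [Finset.sum_add_distrib, ← Finset.mul_sum, Finset.sum_const, card_univ,
        Fintype.card_coe, h4] at h1
      simp only [nsmul_eq_mul] at h1
      push_cast at h1
      linarith
    have h0 : ∑ i, a i = 0 := by
      rcases mul_eq_zero.mp hsum with h | h
      · have := C.α_nonneg
        linarith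
      · exact h
    have h1 := key j
    rw [h0, mul_zero, add_zero] at h1
    rcases mul_eq_zero.mp h1 with h | h
    · have := C.α_lt
      linarith
    · exact h
  have hspan : Submodule.span ℝ (Set.range (fun i : τ => C.g i)) = ⊤ := by
    apply hli.span_eq_top_of_card_eq_finrank'
    rw [Fintype.card_coe, h4]
    simp
  have hmem : v ∈ Submodule.span ℝ (Set.range (fun i : τ => C.g i)) := by
    rw [hspan]
    trivial
  have hle : Submodule.span ℝ (Set.range (fun i : τ => C.g i)) ≤ (ℝ ∙ v)ᗮ := by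
    rw [Submodule.span_le]
    rintro _ ⟨i, rfl⟩
    rw [SetLike.mem_coe, Submodule.mem_orthogonal_singleton_iff_inner_left]
    exact hv i i.2
  have h2 := hle hmem
  rw [Submodule.mem_orthogonal_singleton_iff_inner_left, inner_self_eq_zero] at h2
  exact h2

/-- edge direction at the vertex `τ` leaving the facet `i`, normalised -/
noncomputable def dv (τ : Finset ι) (i : ι) : E4 :=
  (C.sl i (C.z (C.nbr τ i)))⁻¹ • (C.z (C.nbr τ i) - C.z τ)

theorem D_pos {τ : Finset ι} (hτ : τ ∈ C.Q) {i : ι} (hi : i ∈ τ) :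
    0 < C.sl i (C.z (C.nbr τ i)) :=
  C.sl_z_notMem (C.nbr_spec hτ hi).1 (C.nbr_spec hτ hi).2.2

theorem inner_dv {τ : Finset ι} (hτ : τ ∈ C.Q) {i j : ι} (hi : i ∈ τ) (hj : j ∈ τ) :
    inner ℝ (C.g j) (C.dv τ i) = if j = i then -1 else 0 := by
  obtain ⟨h1, h2, h3⟩ := C.nbr_spec hτ hi
  have e1 : inner ℝ (C.g j) (C.z (C.nbr τ i)) = C.cst - C.sl j (C.z (C.nbr τ i)) := by
    rw [sl]; ring
  have e2 : inner ℝ (C.g j) (C.z τ) = C.cst := by
    have := C.sl_z_mem hτ hj
    rw [sl] at this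
    linarith
  rw [dv, inner_smul_right, inner_sub_right, e1, e2]
  have hD := C.D_pos hτ hi
  split_ifs with hji
  · subst hji
    field_simp
    ring
  · have : C.sl j (C.z (C.nbr τ i)) = 0 := by
      rw [C.sl_z_eq_zero h1]
      exact h2 (mem_erase.mpr ⟨hji, hj⟩)
    rw [this]
    ring

/-- the point with prescribed slacks at the facets through the vertex `τ` -/
noncomputable def Th (τ : Finset ι) (μ : ι → ℝ) : E4 := C.z τ + ∑ i ∈ τ, μ i • C.dv τ i

theorem sl_Th {τ : Finset ι} (hτ : τ ∈ C.Q) (μ : ι → ℝ) {j : ι} (hj : j ∈ τ) :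
    C.sl j (C.Th τ μ) = μ j := by
  rw [sl, Th, inner_add_right, inner_sum]
  have h1 : ∀ i ∈ τ, inner ℝ (C.g j) (μ i • C.dv τ i) = if j = i then -μ j else 0 := by
    intro i hi
    rw [inner_smul_right, C.inner_dv hτ hi hj]
    split_ifs with h
    · rw [h]; ring
    · ring
  rw [Finset.sum_congr rfl h1, Finset.sum_ite_eq, if_pos hj]
  have := C.sl_z_mem hτ hj
  rw [sl] at this
  linarith

theorem eq_Th {τ : Finset ι} (hτ : τ ∈ C.Q) (x : E4) : x = C.Th τ (fun i => C.sl i x) := by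
  rw [← sub_eq_zero]
  apply C.eq_zero_of_orthogonal hτ
  intro i hi
  have h1 := C.sl_Th hτ (fun i => C.sl i x) hi
  simp only [sl] at h1
  rw [inner_sub_right]
  simp only [sl]
  linarith

theorem eq_of_sl {τ : Finset ι} (hτ : τ ∈ C.Q) {x y : E4} (h : ∀ i ∈ τ, C.sl i x = C.sl i y) :
    x = y := by
  rw [C.eq_Th hτ x, C.eq_Th hτ y]
  simp only [Th]
  congr 1
  refine Finset.sum_congr rfl fun i hi => ?_
  rw [h i hi]

/-- the face of the polytope given by a set of facets -/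
def face (S : Finset ι) : Set E4 := {x | x ∈ C.P ∧ ∀ i ∈ S, C.sl i x = 0}

theorem mem_face {S : Finset ι} {x : E4} : x ∈ C.face S ↔ x ∈ C.P ∧ ∀ i ∈ S, C.sl i x = 0 :=
  Iff.rfl

theorem z_mem_face {S τ : Finset ι} (hτ : τ ∈ C.Q) (h : S ⊆ τ) : C.z τ ∈ C.face S :=
  ⟨C.z_mem_P hτ, fun _ hi => C.sl_z_mem hτ (h hi)⟩

theorem face_mono {S S' : Finset ι} (h : S ⊆ S') : C.face S' ⊆ C.face S :=
  fun _ hx => ⟨hx.1, fun i hi => hx.2 i (h hi)⟩

theorem face_empty : C.face ∅ = C.P := by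
  ext x
  simp [face]

theorem face_eq_singleton {τ : Finset ι} (hτ : τ ∈ C.Q) : C.face τ = {C.z τ} := by
  ext x
  rw [Set.mem_singleton_iff]
  constructor
  · rintro ⟨-, h⟩
    exact C.eq_of_sl hτ (fun i hi => by rw [h i hi, C.sl_z_mem hτ hi])
  · rintro rfl
    exact C.z_mem_face hτ (Subset.refl _)

/-- Classification of exposed faces. -/
theorem exists_face {F : Set E4} (hF : IsExposed ℝ C.P F) (hne : F.Nonempty) :
    ∃ S τ, τ ∈ C.Q ∧ S ⊆ τ ∧ F = C.face S := by
  obtain ⟨l, hl⟩ := hF hne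
  obtain ⟨x0, hx0⟩ := hne
  rw [hl] at hx0
  obtain ⟨τ, hτ, -, hlτ⟩ := C.exists_vertex hx0.1 (l : E4 →ₗ[ℝ] ℝ) (fun y hy => hx0.2 y hy)
  have hlτ' : l (C.z τ) = l x0 := hlτ
  set M := l x0 with hM
  refine ⟨τ.filter (fun i => l (C.dv τ i) ≠ 0), τ, hτ, filter_subset _ _, ?_⟩
  have hdv : ∀ i ∈ τ, l (C.dv τ i) ≤ 0 := by
    intro i hi
    rw [dv, map_smul, map_sub, smul_eq_mul]
    have h1 := C.D_pos hτ hi
    have h2 := hx0.2 _ (C.z_mem_P (C.nbr_spec hτ hi).1)
    have h3 := inv_pos.mpr h1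
    rw [hlτ']
    nlinarith
  have hexp : ∀ x : E4, l x = M + ∑ i ∈ τ, C.sl i x * l (C.dv τ i) := by
    intro x
    conv_lhs => rw [C.eq_Th hτ x, Th, map_add, map_sum, hlτ']
    congr 1
    refine Finset.sum_congr rfl fun i _ => ?_
    rw [map_smul, smul_eq_mul]
  rw [hl]
  ext x
  simp only [Set.mem_ofPred_eq, mem_face, mem_filter]
  constructor
  · rintro ⟨hx, hmax⟩
    refine ⟨hx, ?_⟩
    rintro i ⟨hi, hi0⟩
    have h1 : l x = M := le_antisymm (hx0.2 x hx) (hmax x0 hx0.1)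
    rw [hexp x] at h1
    have h2 : ∑ i ∈ τ, C.sl i x * l (C.dv τ i) = 0 := by linarith
    have h3 := (Finset.sum_eq_zero_iff_of_nonpos (fun i hi =>
      mul_nonpos_of_nonneg_of_nonpos (C.sl_nonneg hx i) (hdv i hi))).mp h2 i hi
    exact (mul_eq_zero.mp h3).resolve_right hi0
  · rintro ⟨hx, hS⟩
    refine ⟨hx, ?_⟩
    have h1 : l x = M := by
      rw [hexp x, Finset.sum_eq_zero, add_zero]
      intro i hi
      by_cases h0 : l (C.dv τ i) = 0
      · rw [h0, mul_zero]
      · rw [hS i ⟨hi, h0⟩, zero_mul]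
    intro y hy
    rw [h1]
    exact hx0.2 y hy

theorem face_ne_P {S τ : Finset ι} (hτ : τ ∈ C.Q) (hS : S ⊆ τ) (hne : S.Nonempty) :
    C.face S ≠ C.P := by
  obtain ⟨i, hi⟩ := hne
  intro e
  obtain ⟨h1, -, h3⟩ := C.nbr_spec hτ (hS hi)
  have h4 : C.z (C.nbr τ i) ∈ C.face S := by
    rw [e]
    exact C.z_mem_P h1
  exact h3 ((C.sl_z_eq_zero h1).mp (h4.2 i hi))

theorem isExposed_face {S τ : Finset ι} (hτ : τ ∈ C.Q) (hS : S ⊆ τ) :
    IsExposed ℝ C.P (C.face S) := by
  intro _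
  refine ⟨innerSL ℝ (∑ i ∈ S, C.g i), ?_⟩
  have hval : ∀ x : E4, innerSL ℝ (∑ i ∈ S, C.g i) x = S.card * C.cst - ∑ i ∈ S, C.sl i x := by
    intro x
    rw [innerSL_apply_apply, sum_inner]
    simp only [sl, Finset.sum_sub_distrib, Finset.sum_const, nsmul_eq_mul]
    ring
  ext x
  simp only [Set.mem_ofPred_eq, mem_face]
  constructor
  · rintro ⟨hx, h⟩
    refine ⟨hx, fun y hy => ?_⟩
    rw [hval, hval, Finset.sum_eq_zero h]
    have : 0 ≤ ∑ i ∈ S, C.sl i y := Finset.sum_nonneg fun i _ => C.sl_nonneg hy i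
    linarith
  · rintro ⟨hx, h⟩
    refine ⟨hx, ?_⟩
    have h1 := h _ (C.z_mem_P hτ)
    rw [hval, hval, Finset.sum_eq_zero (fun i hi => C.sl_z_mem hτ (hS hi))] at h1
    have h2 : ∑ i ∈ S, C.sl i x = 0 :=
      le_antisymm (by linarith) (Finset.sum_nonneg fun i _ => C.sl_nonneg hx i)
    exact (Finset.sum_eq_zero_iff_of_nonneg (fun i _ => C.sl_nonneg hx i)).mp h2

end Cell

end Pool.Agent.MP249bfd
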