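import Mathlib

set_option autoImplicit false

/-! Plane topology: continuous logarithms, the two-dimensional Brouwer fixed point theorem and
invariance of domain in the complex plane. -/

namespace Pool.Agent.MP249bfd

open Set Metric Topology Filter

/-- Every nowhere vanishing continuous function on the plane has a continuous logarithm. -/
theorem exists_log_plane (f : ℂ → ℂ) (hf : Continuous f) (h0 : ∀ z, f z ≠ 0) :
    ∃ L : ℂ → ℂ, Continuous L ∧ ∀ z, Complex.exp (L z) = f z := by
  have hsc : IsSimplyConnected (Set.univ : Set ℂ) :=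
    ((Homeomorph.Set.univ ℂ).toHomotopyEquiv).simplyConnectedSpace
  obtain ⟨L, hL, hL2⟩ := Complex.exists_continuousOn_eqOn_exp_comp hsc isOpen_univ
    (g := f) hf.continuousOn (by rintro ⟨z, -, hz⟩; exact h0 z hz)
  refine ⟨L, continuousOn_univ.mp hL, fun z => hL2 (mem_univ z)⟩

/-- The unit circle admits no continuous real argument function. -/
theorem no_continuous_arg (A : ℂ → ℝ) (hA : ContinuousOn A (sphere (0 : ℂ) 1))
    (h : ∀ z ∈ sphere (0 : ℂ) 1, Complex.exp (A z * Complex.I) = z) : False := by
  have hconn : IsPreconnected (sphere (0 : ℂ) 1) := by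
    apply isPreconnected_sphere
    rw [Complex.rank_real_complex]
    norm_num
  have hneg : ∀ z ∈ sphere (0 : ℂ) 1, -z ∈ sphere (0 : ℂ) 1 := by
    intro z hz
    simpa using hz
  set D : ℂ → ℝ := fun z => A z - A (-z) with hD
  have hDc : ContinuousOn D (sphere (0 : ℂ) 1) :=
    hA.sub (hA.comp continuous_neg.continuousOn hneg)
  have h1 : (1 : ℂ) ∈ sphere (0 : ℂ) 1 := by simp
  have hm1 : (-1 : ℂ) ∈ sphere (0 : ℂ) 1 := by simp
  have hodd : D (-1) = - D 1 := by
    simp [hD]
  have hzero : (0 : ℝ) ∈ D '' sphere (0 : ℂ) 1 := by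
    rcases le_total 0 (D 1) with h01 | h01
    · exact hconn.intermediate_value hm1 h1 hDc ⟨by rw [hodd]; linarith, h01⟩
    · exact hconn.intermediate_value h1 hm1 hDc ⟨h01, by rw [hodd]; linarith⟩
  obtain ⟨z, hz, hz0⟩ := hzero
  have e1 := h z hz
  have e2 := h (-z) (hneg z hz)
  have e3 : A z = A (-z) := by
    have : A z - A (-z) = 0 := hz0
    linarith
  rw [← e3, e1] at e2
  have : z = 0 := by
    have h2 : (2 : ℂ) * z = 0 := by linear_combination e2
    simpa using h2
  rw [this] at hz
  simp at hz

/-- Radial retraction of the plane onto the closed unit disc. -/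
noncomputable def retr (z : ℂ) : ℂ := ((max 1 ‖z‖)⁻¹ : ℝ) • z

theorem continuous_retr : Continuous retr := by
  have h1 : Continuous (fun z : ℂ => (max 1 ‖z‖)⁻¹) := by
    apply Continuous.inv₀
    · fun_prop
    · intro z
      positivity
  exact h1.smul continuous_id

theorem retr_mem (z : ℂ) : retr z ∈ closedBall (0 : ℂ) 1 := by
  simp only [retr, mem_closedBall, dist_zero_right, norm_smul, norm_inv, Real.norm_eq_abs]
  have h1 : 0 < max 1 ‖z‖ := by positivity
  rw [abs_of_pos h1, inv_mul_le_iff₀ h1]
  simp

theorem retr_of_mem {z : ℂ} (hz : z ∈ closedBall (0 : ℂ) 1) : retr z = z := by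
  simp only [mem_closedBall, dist_zero_right] at hz
  simp [retr, max_eq_left hz]

/-- Brouwer's fixed point theorem for the closed unit disc. -/
theorem brouwer_disc (h : ℂ → ℂ) (hh : ContinuousOn h (closedBall 0 1))
    (hm : MapsTo h (closedBall 0 1) (closedBall 0 1)) :
    ∃ z ∈ closedBall (0 : ℂ) 1, h z = z := by
  by_contra hcon
  push Not at hcon
  have hcont : Continuous (fun z => h (retr z)) := by
    rw [← continuousOn_univ]
    exact hh.comp continuous_retr.continuousOn (fun z _ => retr_mem z)
  obtain ⟨L, hL, hLe⟩ := exists_log_plane (fun z => retr z - h (retr z))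
    (continuous_retr.sub hcont) (fun z hz => hcon (retr z) (retr_mem z) (by
      have := sub_eq_zero.mp hz
      exact this.symm))
  have hre : ∀ z ∈ sphere (0 : ℂ) 1, 0 < ((starRingEnd ℂ) z * Complex.exp (L z)).re := by
    intro z hz
    have hz1 : ‖z‖ = 1 := by simpa using hz
    have hzb : z ∈ closedBall (0 : ℂ) 1 := sphere_subset_closedBall hz
    rw [hLe z, retr_of_mem hzb]
    have hw : ‖h z‖ ≤ 1 := by simpa using hm hzb
    have hne : h z ≠ z := hcon z hzb
    set w := h z with hwdef
    have h1 : z.re ^ 2 + z.im ^ 2 = 1 := by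
      have := Complex.sq_norm z
      rw [Complex.normSq_apply] at this
      nlinarith [this, hz1]
    have h2 : w.re ^ 2 + w.im ^ 2 ≤ 1 := by
      have := Complex.sq_norm w
      rw [Complex.normSq_apply] at this
      nlinarith [this, hw, norm_nonneg w]
    have h3 : 0 < (z.re - w.re) ^ 2 + (z.im - w.im) ^ 2 := by
      by_contra hle
      push Not at hle
      have e1 : z.re - w.re = 0 := by nlinarith [sq_nonneg (z.re - w.re), sq_nonneg (z.im - w.im)]
      have e2 : z.im - w.im = 0 := by nlinarith [sq_nonneg (z.re - w.re), sq_nonneg (z.im - w.im)]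
      exact hne (Complex.ext (by linarith) (by linarith))
    simp only [Complex.mul_re, Complex.conj_re, Complex.conj_im, Complex.sub_re, Complex.sub_im]
    nlinarith
  apply no_continuous_arg
    (fun z => (L z).im - Complex.arg ((starRingEnd ℂ) z * Complex.exp (L z)))
  · apply ContinuousOn.sub
    · fun_prop
    · intro z hz
      apply ContinuousAt.continuousWithinAt
      have hslit : (starRingEnd ℂ) z * Complex.exp (L z) ∈ Complex.slitPlane :=
        Or.inl (hre z hz)
      have hc : ContinuousAt (fun z => (starRingEnd ℂ) z * Complex.exp (L z)) z := by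
        have : Continuous (fun z => (starRingEnd ℂ) z * Complex.exp (L z)) := by fun_prop
        exact this.continuousAt
      exact ContinuousAt.comp (f := fun z => (starRingEnd ℂ) z * Complex.exp (L z))
        (g := Complex.arg) (Complex.continuousAt_arg hslit) hc
  · intro z hz
    have hz1 : ‖z‖ = 1 := by simpa using hz
    set u := (starRingEnd ℂ) z * Complex.exp (L z) with hu
    have hz0 : z ≠ 0 := by
      intro h0
      rw [h0] at hz1
      simp at hz1
    have hu0 : u ≠ 0 := by
      intro h0
      have := hre z hz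
      rw [← hu, h0] at this
      simp at this
    have hnu : ‖u‖ = Real.exp (L z).re := by
      rw [hu, norm_mul, Complex.norm_exp, RCLike.norm_conj, hz1, one_mul]
    have e1 : (‖u‖ : ℂ) * Complex.exp (Complex.arg u * Complex.I) = u :=
      Complex.norm_mul_exp_arg_mul_I u
    have e2 : Complex.exp (L z) = (‖u‖ : ℂ) * Complex.exp ((L z).im * Complex.I) := by
      rw [hnu]
      conv_lhs => rw [← Complex.re_add_im (L z)]
      rw [Complex.exp_add, Complex.ofReal_exp]
    have e3 : (starRingEnd ℂ) z * z = 1 := by
      rw [mul_comm, Complex.mul_conj, Complex.normSq_eq_norm_sq, hz1]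
      norm_num
    have hnu0 : (‖u‖ : ℂ) ≠ 0 := by
      simpa using hu0
    have e4 : Complex.exp (Complex.arg u * Complex.I) =
        (starRingEnd ℂ) z * Complex.exp ((L z).im * Complex.I) := by
      have : (‖u‖ : ℂ) * Complex.exp (Complex.arg u * Complex.I) =
          (‖u‖ : ℂ) * ((starRingEnd ℂ) z * Complex.exp ((L z).im * Complex.I)) := by
        rw [e1]
        calc u = (starRingEnd ℂ) z * Complex.exp (L z) := hu
          _ = (starRingEnd ℂ) z * ((‖u‖ : ℂ) * Complex.exp ((L z).im * Complex.I)) := by rw [← e2]
          _ = _ := by ring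
      exact mul_left_cancel₀ hnu0 this
    have e5 : Complex.exp (Complex.arg u * Complex.I) ≠ 0 := Complex.exp_ne_zero _
    have e6 : Complex.exp (((L z).im - Complex.arg u : ℝ) * Complex.I) *
        Complex.exp (Complex.arg u * Complex.I) = z * Complex.exp (Complex.arg u * Complex.I) := by
      rw [← Complex.exp_add]
      have : (((L z).im - Complex.arg u : ℝ) : ℂ) * Complex.I + Complex.arg u * Complex.I =
          (L z).im * Complex.I := by
        push_cast
        ring
      rw [this, e4]
      linear_combination (-Complex.exp ((L z).im * Complex.I)) * e3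
    exact mul_right_cancel₀ e5 e6

end Pool.Agent.MP249bfd
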