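import Mathlib
import Pool.Agent.Lib.MP_249bfd_co.Plane

set_option autoImplicit false

/-! Invariance of domain in the complex plane. -/

namespace Pool.Agent.MP249bfd

open Set Metric Topology Filter

theorem exists_zero_of_close (f g : ℂ → ℂ) (hf : ContinuousOn f (closedBall 0 1))
    (hg : ContinuousOn g (f '' closedBall 0 1))
    (hclose : ∀ x ∈ closedBall (0 : ℂ) 1, ‖x - g (f x)‖ ≤ 1) :
    ∃ x ∈ closedBall (0 : ℂ) 1, g (f x) = 0 := by
  obtain ⟨x, hx, hx2⟩ := brouwer_disc (fun x => x - g (f x))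
    (continuousOn_id.sub (hg.comp hf (mapsTo_image _ _)))
    (fun x hx => by simpa using hclose x hx)
  refine ⟨x, hx, ?_⟩
  linear_combination -hx2

/-- A smooth approximation of a continuous function on the plane. -/
theorem exists_smooth_approx (G : ℂ → ℂ) (hG : Continuous G) (δ : ℝ) (hδ : 0 < δ) :
    ∃ P : ℂ → ℂ, ContDiff ℝ 1 P ∧ ∀ z, ‖P z - G z‖ < δ := by
  obtain ⟨P, hP⟩ := exists_contMDiffMap_forall_mem_convex_of_local_const (n := 1)
    (modelWithCornersSelf ℝ ℂ) (t := fun z => ball (G z) δ) (fun z => convex_ball _ _) (by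
      intro x
      refine ⟨G x, ?_⟩
      have : ∀ᶠ y in 𝓝 x, dist (G y) (G x) < δ := by
        have := Metric.continuous_iff'.mp hG x δ hδ
        exact this
      filter_upwards [this] with y hy
      rw [mem_ball, dist_comm]
      exact hy)
  refine ⟨P, P.contMDiff.contDiff, fun z => ?_⟩
  have := hP z
  rw [mem_ball, dist_eq_norm] at this
  exact this

theorem image_closedBall_mem_nhds (f : ℂ → ℂ) (hf : ContinuousOn f (closedBall 0 1))
    (hinj : InjOn f (closedBall 0 1)) : f '' closedBall 0 1 ∈ 𝓝 (f 0) := by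
  by_contra hnot
  have hBc : IsCompact (closedBall (0 : ℂ) 1) := isCompact_closedBall 0 1
  have h0B : (0 : ℂ) ∈ closedBall (0 : ℂ) 1 := by simp
  have hKc : IsCompact (f '' closedBall 0 1) := hBc.image_of_continuousOn hf
  -- extension of the inverse
  obtain ⟨G, hGc, hG⟩ : ∃ G : ℂ → ℂ, Continuous G ∧ ∀ x ∈ closedBall (0 : ℂ) 1, G (f x) = x := by
    have : CompactSpace (closedBall (0 : ℂ) 1) := isCompact_iff_compactSpace.mp hBc
    have hc : Continuous (fun x : closedBall (0 : ℂ) 1 => f x) :=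
      continuousOn_iff_continuous_domRestrict.mp hf
    have hi : Function.Injective (fun x : closedBall (0 : ℂ) 1 => f x) := by
      intro x y hxy
      exact Subtype.ext (hinj x.2 y.2 hxy)
    obtain ⟨G, hG⟩ := ContinuousMap.exists_extension' (hc.isClosedEmbedding hi)
      (⟨Subtype.val, continuous_subtype_val⟩ : C(closedBall (0 : ℂ) 1, ℂ))
    refine ⟨G, G.continuous, fun x hx => ?_⟩
    have := congrFun hG ⟨x, hx⟩
    simpa using this
  have hG0 : G (f 0) = 0 := hG 0 h0B
  -- choice of epsilon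
  obtain ⟨ε', hε', hGε'⟩ := Metric.continuous_iff.mp hGc (f 0) (1 / 10) (by norm_num)
  set ε := ε' / 2 with hε
  have hεpos : 0 < ε := by positivity
  -- choice of c
  obtain ⟨c, hcball, hcK⟩ : ∃ c ∈ ball (f 0) ε, c ∉ f '' closedBall 0 1 := by
    by_contra hcon
    push Not at hcon
    exact hnot (mem_of_superset (ball_mem_nhds (f 0) hεpos) hcon)
  have hcd : ‖c - f 0‖ < ε := by simpa [dist_eq_norm] using hcball
  have hsmall : ∀ y, ‖y - c‖ ≤ ε → ‖G y‖ < 1 / 10 := by
    intro y hy
    have h1 : dist y (f 0) < ε' := by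
      rw [dist_eq_norm]
      calc ‖y - f 0‖ = ‖(y - c) + (c - f 0)‖ := by ring_nf
        _ ≤ ‖y - c‖ + ‖c - f 0‖ := norm_add_le _ _
        _ < ε + ε := by linarith
        _ = ε' := by rw [hε]; ring
    have := hGε' y h1
    rwa [hG0, dist_zero_right] at this
  -- lower bound for G away from c
  obtain ⟨δ, hδpos, hδ10, hδ⟩ : ∃ δ : ℝ, 0 < δ ∧ δ ≤ 1 / 10 ∧
      ∀ y ∈ f '' closedBall 0 1, ε ≤ ‖y - c‖ → δ ≤ ‖G y‖ := by
    set S := f '' closedBall 0 1 ∩ {y | ε ≤ ‖y - c‖} with hS
    have hSc : IsCompact S := hKc.inter_right (isClosed_le continuous_const (by fun_prop))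
    rcases S.eq_empty_or_nonempty with hemp | hne
    · refine ⟨1 / 10, by norm_num, le_refl _, ?_⟩
      intro y hy hy2
      have : y ∈ S := ⟨hy, hy2⟩
      rw [hemp] at this
      exact absurd this (notMem_empty y)
    · obtain ⟨y0, hy0, hmin⟩ := hSc.exists_isMinOn hne (f := fun y => ‖G y‖)
        (hGc.norm.continuousOn)
      have hpos : 0 < ‖G y0‖ := by
        rw [norm_pos_iff]
        intro h0
        obtain ⟨⟨x, hx, hxy⟩, hy2⟩ := hy0
        have : x = 0 := by rw [← hG x hx, hxy, h0]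
        rw [this] at hxy
        have hy3 : ε ≤ ‖y0 - c‖ := hy2
        rw [← hxy, norm_sub_rev] at hy3
        linarith
      refine ⟨min ‖G y0‖ (1 / 10), lt_min hpos (by norm_num), min_le_right _ _, ?_⟩
      intro y hy hy2
      exact (min_le_left _ _).trans (hmin ⟨hy, hy2⟩)
  -- smooth approximation
  obtain ⟨P, hPs, hP⟩ := exists_smooth_approx G hGc (δ / 2) (by positivity)
  -- small shift
  obtain ⟨w, hwr, hw⟩ : ∃ w ∈ (range (fun θ : ℝ => P (c + ε * Complex.exp (θ * Complex.I))))ᶜ,
      ‖w‖ < δ / 2 := by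
    have hcd : ContDiff ℝ 1 (fun θ : ℝ => P (c + ε * Complex.exp (θ * Complex.I))) := by
      apply hPs.comp
      apply contDiff_const.add
      apply contDiff_const.mul
      have h1 : ContDiff ℝ 1 (fun θ : ℝ => (θ : ℂ) * Complex.I) :=
        Complex.ofRealCLM.contDiff.mul contDiff_const
      exact h1.cexp
    have hdense := hcd.dense_compl_range_of_finrank_lt_finrank (by
      rw [Complex.finrank_real_complex]; simp)
    obtain ⟨w, hw, hw2⟩ := hdense.exists_dist_lt (0 : ℂ) (by positivity : 0 < δ / 2)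
    refine ⟨w, hw, ?_⟩
    rwa [dist_comm, dist_zero_right] at hw2
  set Φ : ℂ → ℂ := fun y => c + (max (ε / ‖y - c‖) 1 : ℝ) • (y - c) with hΦ
  have hΦc : ContinuousOn Φ (f '' closedBall 0 1) := by
    apply continuousOn_const.add
    have h1 : ContinuousOn (fun y : ℂ => max (ε / ‖y - c‖) 1) (f '' closedBall 0 1) := by
      apply ContinuousOn.sup _ continuousOn_const
      apply ContinuousOn.div continuousOn_const (by fun_prop)
      intro y hy h0
      rw [norm_eq_zero, sub_eq_zero] at h0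
      exact hcK (h0 ▸ hy)
    have h2 : ContinuousOn (fun y : ℂ => y - c) (f '' closedBall 0 1) := by fun_prop
    exact h1.smul h2
  have hPcont : Continuous P := hPs.continuous
  have hgc : ContinuousOn (fun y => P (Φ y) - w) (f '' closedBall 0 1) :=
    (hPcont.comp_continuousOn hΦc).sub continuousOn_const
  have hbig : ∀ y, ε ≤ ‖y - c‖ → Φ y = y := by
    intro y hy
    have h1 : ε / ‖y - c‖ ≤ 1 := by
      rw [div_le_one (by linarith)]
      exact hy
    simp [hΦ, max_eq_right h1]
  have hsm : ∀ y, y ≠ c → ‖y - c‖ ≤ ε → ‖Φ y - c‖ = ε := by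
    intro y hyc hy
    have hpos : 0 < ‖y - c‖ := by rw [norm_pos_iff, sub_ne_zero]; exact hyc
    have h1 : 1 ≤ ε / ‖y - c‖ := by
      rw [le_div_iff₀ hpos]
      linarith
    simp only [hΦ, max_eq_left h1, add_sub_cancel_left, norm_smul, Real.norm_eq_abs]
    rw [abs_of_pos (by positivity)]
    field_simp
  have hcirc : ∀ y, ‖y - c‖ = ε → P y - w ≠ 0 := by
    intro y hy h0
    apply hwr
    refine ⟨Complex.arg (y - c), ?_⟩
    have h1 := Complex.norm_mul_exp_arg_mul_I (y - c)
    rw [hy] at h1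
    simp only
    rw [h1, add_sub_cancel]
    linear_combination h0
  have happ : ∀ y, ‖P y - w - G y‖ < δ := by
    intro y
    calc ‖P y - w - G y‖ = ‖(P y - G y) - w‖ := by ring_nf
      _ ≤ ‖P y - G y‖ + ‖w‖ := norm_sub_le _ _
      _ < δ / 2 + δ / 2 := by linarith [hP y]
      _ = δ := by ring
  obtain ⟨x, hx, hx0⟩ := exists_zero_of_close f (fun y => P (Φ y) - w) hf hgc (by
    intro x hx
    have hKx : f x ∈ f '' closedBall 0 1 := mem_image_of_mem f hx
    have hxc : f x ≠ c := fun h => hcK (h ▸ hKx)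
    have hGx := hG x hx
    rcases le_total ε ‖f x - c‖ with h1 | h1
    · rw [hbig _ h1]
      have := happ (f x)
      rw [hGx, norm_sub_rev] at this
      linarith
    · have h2 := hsm (f x) hxc h1
      have h3 := hsmall (f x) h1
      have h4 := hsmall (Φ (f x)) h2.le
      have h5 := happ (Φ (f x))
      rw [hGx] at h3
      calc ‖x - (P (Φ (f x)) - w)‖
          = ‖x - (P (Φ (f x)) - w - G (Φ (f x))) - G (Φ (f x))‖ := by ring_nf
        _ ≤ ‖x - (P (Φ (f x)) - w - G (Φ (f x)))‖ + ‖G (Φ (f x))‖ := norm_sub_le _ _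
        _ ≤ ‖x‖ + ‖P (Φ (f x)) - w - G (Φ (f x))‖ + ‖G (Φ (f x))‖ := by
            gcongr
            exact norm_sub_le _ _
        _ ≤ 1 := by linarith)
  -- contradiction
  have hKx : f x ∈ f '' closedBall 0 1 := mem_image_of_mem f hx
  have hxc : f x ≠ c := fun h => hcK (h ▸ hKx)
  rcases le_total ε ‖f x - c‖ with h1 | h1
  · rw [hbig _ h1] at hx0
    have h2 := hδ (f x) hKx h1
    have h3 := happ (f x)
    rw [hx0, zero_sub, norm_neg] at h3
    linarith
  · exact hcirc _ (hsm (f x) hxc h1) hx0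

/-- Invariance of domain in the plane. -/
theorem isOpen_image_plane (U : Set ℂ) (hU : IsOpen U) (f : ℂ → ℂ) (hf : ContinuousOn f U)
    (hinj : InjOn f U) : IsOpen (f '' U) := by
  rw [isOpen_iff_mem_nhds]
  rintro _ ⟨x, hx, rfl⟩
  obtain ⟨r, hr, hrU⟩ := Metric.nhds_basis_closedBall.mem_iff.mp (hU.mem_nhds hx)
  set g : ℂ → ℂ := fun z => f (x + r * z) with hg
  have hmap : MapsTo (fun z : ℂ => x + r * z) (closedBall 0 1) (closedBall x r) := by
    intro z hz
    simp only [mem_closedBall, dist_zero_right] at hz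
    simp only [mem_closedBall, dist_eq_norm, add_sub_cancel_left, norm_mul, Complex.norm_real,
      Real.norm_eq_abs, abs_of_pos hr]
    nlinarith
  have h1 := image_closedBall_mem_nhds g
    (hf.comp (by fun_prop) (fun z hz => hrU (hmap hz)))
    (by
      intro a ha b hb hab
      have := hinj (hrU (hmap ha)) (hrU (hmap hb)) hab
      have h2 : (r : ℂ) * a = r * b := add_left_cancel this
      exact mul_left_cancel₀ (by exact_mod_cast hr.ne') h2)
  have h2 : g 0 = f x := by simp [hg]
  rw [h2] at h1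
  refine mem_of_superset h1 ?_
  rintro _ ⟨z, hz, rfl⟩
  exact ⟨x + r * z, hrU (hmap hz), rfl⟩

end Pool.Agent.MP249bfd
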