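import Mathlib
import Pool.Agent.Lib.MP_249bfd_co.InvDom

set_option autoImplicit false

/-! Topology of the two-dimensional sphere: charts, logarithms, connectedness. -/

namespace Pool.Agent.MP249bfd

open Set Metric Topology Filter

/-- The unit sphere in three-space. -/
abbrev S2 : Type := ↥(sphere (0 : EuclideanSpace ℝ (Fin 3)) 1)

instance factFinrank3 : Fact (Module.finrank ℝ (EuclideanSpace ℝ (Fin 3)) = 2 + 1) :=
  ⟨by simp⟩

theorem exists_chart (v : S2) : ∃ (κ : S2 → ℂ) (χ : ℂ → S2), ContinuousOn κ {v}ᶜ ∧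
    Continuous χ ∧ (∀ z, κ (χ z) = z) ∧ (∀ x, x ≠ v → χ (κ x) = x) ∧ (∀ z, χ z ≠ v) := by
  set e := stereographic' 2 v with he
  set φ := Complex.orthonormalBasisOneI.repr with hφ
  have hsrc : e.source = {v}ᶜ := stereographic'_source v
  have htgt : e.target = univ := stereographic'_target v
  refine ⟨fun x => φ.symm (e x), fun z => e.symm (φ z), ?_, ?_, ?_, ?_, ?_⟩
  · have h1 : ContinuousOn e {v}ᶜ := hsrc ▸ e.continuousOn
    exact φ.symm.continuous.comp_continuousOn h1
  · have h1 : ContinuousOn e.symm univ := htgt ▸ e.continuousOn_symm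
    exact (continuousOn_univ.mp h1).comp φ.continuous
  · intro z
    have : e (e.symm (φ z)) = φ z := e.right_inv (by rw [htgt]; exact mem_univ _)
    simp only [this, LinearIsometryEquiv.symm_apply_apply]
  · intro x hx
    simp only [LinearIsometryEquiv.apply_symm_apply]
    exact e.left_inv (by rw [hsrc]; exact hx)
  · intro z
    have h1 : e.symm (φ z) ∈ e.source := e.map_target (by rw [htgt]; exact mem_univ _)
    rw [hsrc] at h1
    exact h1

theorem exists_ne_S2 (x : S2) : ∃ v : S2, v ≠ x := by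
  refine ⟨-x, ?_⟩
  intro h
  have h1 : -x.1 = x.1 := congrArg Subtype.val h
  have h2 : ‖x.1‖ = 1 := by simp
  have h3 : x.1 = 0 := by
    ext i
    have hi := congrArg (fun w : EuclideanSpace ℝ (Fin 3) => w i) h1
    simp only [PiLp.neg_apply] at hi
    simp only [PiLp.zero_apply]
    linarith
  rw [h3] at h2
  simp at h2

/-- Continuous injective images of planar open sets are open in the sphere. -/
theorem isOpen_image_S2 (U : Set ℂ) (hU : IsOpen U) (f : ℂ → S2) (hf : ContinuousOn f U)
    (hinj : InjOn f U) : IsOpen (f '' U) := by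
  rw [isOpen_iff_mem_nhds]
  rintro _ ⟨x, hx, rfl⟩
  obtain ⟨v, hv⟩ := exists_ne_S2 (f x)
  obtain ⟨κ, χ, hκ, hχ, h1, h2, h3⟩ := exists_chart v
  have hW : IsOpen ({v}ᶜ : Set S2) := isOpen_compl_singleton
  set U' := U ∩ f ⁻¹' {v}ᶜ with hU'
  have hU'o : IsOpen U' := hf.isOpen_inter_preimage hU hW
  have hxU' : x ∈ U' := ⟨hx, by simpa using hv.symm⟩
  have hinjκ : InjOn κ {v}ᶜ := by
    intro a ha b hb hab
    rw [← h2 a ha, ← h2 b hb, hab]
  have ho : IsOpen ((fun z => κ (f z)) '' U') := by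
    apply isOpen_image_plane U' hU'o
    · exact hκ.comp (hf.mono inter_subset_left) (fun z hz => hz.2)
    · intro a ha b hb hab
      exact hinj ha.1 hb.1 (hinjκ ha.2 hb.2 hab)
  have ho2 : IsOpen ({v}ᶜ ∩ κ ⁻¹' ((fun z => κ (f z)) '' U')) :=
    hκ.isOpen_inter_preimage hW ho
  refine mem_of_superset (ho2.mem_nhds ⟨hxU'.2, ⟨x, hxU', rfl⟩⟩) ?_
  rintro y ⟨hy, ⟨z, hz, hzy⟩⟩
  exact ⟨z, hz.1, hinjκ hz.2 hy hzy⟩

/-- The complement of a finite set in the sphere is preconnected. -/
theorem isPreconnected_compl_finite_S2 (F : Set S2) (hF : F.Finite) : IsPreconnected Fᶜ := by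
  rcases F.eq_empty_or_nonempty with h | ⟨v, hv⟩
  · rw [h, compl_empty]
    have : PreconnectedSpace S2 := by
      apply isPreconnected_iff_preconnectedSpace.mp
      apply isPreconnected_sphere
      rw [← Module.finrank_eq_rank]
      simp
    exact isPreconnected_univ
  · obtain ⟨κ, χ, hκ, hχ, h1, h2, h3⟩ := exists_chart v
    have hχi : Function.Injective χ := by
      intro a b hab
      rw [← h1 a, ← h1 b, hab]
    have hfin : (χ ⁻¹' F).Finite := hF.preimage hχi.injOn
    have hconn : IsConnected (χ ⁻¹' F)ᶜ := by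
      apply hfin.countable.isConnected_compl_of_one_lt_rank
      rw [Complex.rank_real_complex]
      norm_num
    have heq : Fᶜ = χ '' (χ ⁻¹' F)ᶜ := by
      ext x
      constructor
      · intro hx
        have hxv : x ≠ v := fun h => hx (h ▸ hv)
        exact ⟨κ x, by rw [mem_compl_iff, mem_preimage, h2 x hxv]; exact hx, h2 x hxv⟩
      · rintro ⟨z, hz, rfl⟩
        exact hz
    rw [heq]
    exact hconn.isPreconnected.image χ hχ.continuousOn

/-- An integer valued continuous function on a preconnected set is constant. -/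
theorem int_valued_const {X : Type*} [TopologicalSpace X] {s : Set X} (hs : IsPreconnected s)
    (g : X → ℝ) (hg : ContinuousOn g s) (hint : ∀ x ∈ s, ∃ n : ℤ, g x = n) {x y : X}
    (hx : x ∈ s) (hy : y ∈ s) : g x = g y := by
  have key : ∀ x ∈ s, ∀ y ∈ s, ¬ g x < g y := by
    intro x hx y hy hlt
    obtain ⟨m, hm⟩ := hint x hx
    obtain ⟨n, hn⟩ := hint y hy
    have hmn : m < n := by
      rw [hm, hn] at hlt
      exact_mod_cast hlt
    have hmn' : (m : ℝ) + 1 ≤ n := by exact_mod_cast hmn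
    obtain ⟨z, hz, hz2⟩ := hs.intermediate_value hx hy hg
      (show g x + 1 / 2 ∈ Icc (g x) (g y) from ⟨by linarith, by rw [hm, hn]; linarith⟩)
    obtain ⟨k, hk⟩ := hint z hz
    rw [hm, hk] at hz2
    have h1 : (2 * k : ℝ) = 2 * m + 1 := by linarith
    have h2 : 2 * k = 2 * m + 1 := by exact_mod_cast h1
    omega
  exact le_antisymm (not_lt.mp (key y hy x hx)) (not_lt.mp (key x hx y hy))

/-- Parametrisation of the two closed hemispheres by the plane. -/
noncomputable def hemi (ε : ℝ) (z : ℂ) : EuclideanSpace ℝ (Fin 3) :=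
  !₂[(retr z).re, (retr z).im, ε * Real.sqrt (1 - ‖retr z‖ ^ 2)]

theorem continuous_hemi (ε : ℝ) : Continuous (hemi ε) := by
  have h := continuous_retr
  unfold hemi
  apply (PiLp.continuous_toLp 2 (fun _ : Fin 3 => ℝ)).comp
  apply continuous_pi
  intro i
  fin_cases i
  · exact Complex.continuous_re.comp h
  · exact Complex.continuous_im.comp h
  · exact continuous_const.mul (Real.continuous_sqrt.comp (continuous_const.sub (h.norm.pow 2)))

theorem hemi_mem (ε : ℝ) (hε : ε ^ 2 = 1) (z : ℂ) :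
    hemi ε z ∈ sphere (0 : EuclideanSpace ℝ (Fin 3)) 1 := by
  have h1 := retr_mem z
  rw [mem_closedBall, dist_zero_right] at h1
  have h2 : ‖hemi ε z‖ ^ 2 = 1 := by
    rw [EuclideanSpace.norm_sq_eq]
    simp only [hemi, Fin.sum_univ_three, Real.norm_eq_abs, sq_abs]
    simp only [Matrix.cons_val_zero, Matrix.cons_val_one, Matrix.cons_val]
    have h3 : 0 ≤ 1 - ‖retr z‖ ^ 2 := by nlinarith [norm_nonneg (retr z)]
    rw [mul_pow, Real.sq_sqrt h3, hε]
    have h4 := Complex.sq_norm (retr z)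
    rw [Complex.normSq_apply] at h4
    nlinarith
  rw [mem_sphere, dist_zero_right]
  have h3 := norm_nonneg (hemi ε z)
  nlinarith

/-- The planar projection of a point of the sphere. -/
noncomputable def proj2 (x : S2) : ℂ := ⟨x.1 0, x.1 1⟩

theorem continuous_proj2 : Continuous proj2 := by
  have h0 : Continuous (fun x : S2 => x.1 0) := by fun_prop
  have h1 : Continuous (fun x : S2 => x.1 1) := by fun_prop
  have h2 : proj2 = fun x : S2 => ((x.1 0 : ℝ) : ℂ) + ((x.1 1 : ℝ) : ℂ) * Complex.I := by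
    funext x
    apply Complex.ext <;> simp [proj2]
  rw [h2]
  fun_prop

theorem S2_eq (x : S2) : x.1 0 ^ 2 + x.1 1 ^ 2 + x.1 2 ^ 2 = 1 := by
  have h1 : ‖x.1‖ ^ 2 = 1 := by simp
  rw [EuclideanSpace.norm_sq_eq] at h1
  simpa [Fin.sum_univ_three] using h1

theorem proj2_norm_sq (x : S2) : ‖proj2 x‖ ^ 2 = x.1 0 ^ 2 + x.1 1 ^ 2 := by
  rw [Complex.sq_norm, Complex.normSq_apply]
  simp only [proj2]
  ring

theorem proj2_mem (x : S2) : proj2 x ∈ closedBall (0 : ℂ) 1 := by
  rw [mem_closedBall, dist_zero_right]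
  have h1 := proj2_norm_sq x
  have h2 := S2_eq x
  nlinarith [norm_nonneg (proj2 x), sq_nonneg (x.1 2)]

theorem hemi_proj2 (ε : ℝ) (hε : ε ^ 2 = 1) (x : S2) (hx : 0 ≤ ε * x.1 2) :
    hemi ε (proj2 x) = x.1 := by
  have h1 := proj2_norm_sq x
  have h2 := S2_eq x
  have h3 : retr (proj2 x) = proj2 x := retr_of_mem (proj2_mem x)
  have h4 : Real.sqrt (1 - ‖proj2 x‖ ^ 2) = ε * x.1 2 := by
    rw [h1, show 1 - (x.1 0 ^ 2 + x.1 1 ^ 2) = (ε * x.1 2) ^ 2 by
      rw [mul_pow, hε]; linarith, Real.sqrt_sq hx]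
  ext i
  fin_cases i
  · change (retr (proj2 x)).re = x.1 0
    rw [h3]
    rfl
  · change (retr (proj2 x)).im = x.1 1
    rw [h3]
    rfl
  · change ε * Real.sqrt (1 - ‖retr (proj2 x)‖ ^ 2) = x.1 2
    rw [h3, h4]
    linear_combination (x.1 2) * hε

/-- Every nowhere vanishing continuous complex function on the sphere has a logarithm. -/
theorem exists_log_S2 (f : S2 → ℂ) (hf : Continuous f) (h0 : ∀ x, f x ≠ 0) :
    ∃ L : S2 → ℂ, Continuous L ∧ ∀ x, Complex.exp (L x) = f x := by
  have e1 : (1 : ℝ) ^ 2 = 1 := by norm_num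
  have e2 : (-1 : ℝ) ^ 2 = 1 := by norm_num
  set P : ℂ → S2 := fun z => ⟨hemi 1 z, hemi_mem 1 e1 z⟩ with hP
  set Q : ℂ → S2 := fun z => ⟨hemi (-1) z, hemi_mem (-1) e2 z⟩ with hQ
  have hPc : Continuous P := (continuous_hemi 1).subtype_mk _
  have hQc : Continuous Q := (continuous_hemi (-1)).subtype_mk _
  obtain ⟨LP, hLP, hLPe⟩ := exists_log_plane (fun z => f (P z)) (hf.comp hPc) (fun z => h0 _)
  obtain ⟨LQ, hLQ, hLQe⟩ := exists_log_plane (fun z => f (Q z)) (hf.comp hQc) (fun z => h0 _)
  have hPQ : ∀ z ∈ sphere (0 : ℂ) 1, P z = Q z := by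
    intro z hz
    have hz1 : ‖z‖ = 1 := by simpa using hz
    have hr : retr z = z := retr_of_mem (sphere_subset_closedBall hz)
    apply Subtype.ext
    simp only [hP, hQ, hemi, hr, hz1]
    norm_num
  have hconn : IsPreconnected (sphere (0 : ℂ) 1) := by
    apply isPreconnected_sphere
    rw [Complex.rank_real_complex]
    norm_num
  have hpi : (2 * Real.pi * Complex.I : ℂ) ≠ 0 := by
    simp [Real.pi_ne_zero]
  set D : ℂ → ℂ := fun z => (LP z - LQ z) / (2 * Real.pi * Complex.I) with hD
  have hDint : ∀ z ∈ sphere (0 : ℂ) 1, ∃ n : ℤ, D z = n := by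
    intro z hz
    have h1 : Complex.exp (LP z) = Complex.exp (LQ z) := by
      rw [hLPe, hLQe, hPQ z hz]
    obtain ⟨n, hn⟩ := Complex.exp_eq_exp_iff_exists_int.mp h1
    refine ⟨n, ?_⟩
    simp only [hD]
    rw [hn]
    field_simp
    ring
  have h1s : (1 : ℂ) ∈ sphere (0 : ℂ) 1 := by simp
  obtain ⟨k, hk⟩ := hDint 1 h1s
  have hDk : ∀ z ∈ sphere (0 : ℂ) 1, LP z = LQ z + k * (2 * Real.pi * Complex.I) := by
    intro z hz
    obtain ⟨n, hn⟩ := hDint z hz
    have h2 : (D z).re = (D 1).re := by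
      apply int_valued_const hconn (fun z => (D z).re)
      · apply Continuous.continuousOn
        fun_prop
      · intro w hw
        obtain ⟨m, hm⟩ := hDint w hw
        exact ⟨m, by rw [hm]; simp⟩
      · exact hz
      · exact h1s
    rw [hn, hk] at h2
    have h3 : n = k := by
      simpa using h2
    have h4 : D z = k := by rw [hn, h3]
    simp only [hD] at h4
    rw [div_eq_iff hpi] at h4
    linear_combination h4
  refine ⟨fun x => if 0 ≤ x.1 2 then LP (proj2 x)
    else LQ (proj2 x) + k * (2 * Real.pi * Complex.I), ?_, ?_⟩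
  · apply Continuous.if_le
    · exact hLP.comp continuous_proj2
    · exact (hLQ.comp continuous_proj2).add continuous_const
    · exact continuous_const
    · fun_prop
    · intro x hx
      apply hDk
      rw [mem_sphere, dist_zero_right]
      have h1 := proj2_norm_sq x
      have h2 := S2_eq x
      rw [← hx] at h2
      nlinarith [norm_nonneg (proj2 x)]
  · intro x
    by_cases hx : 0 ≤ x.1 2
    · simp only [hx, if_true]
      rw [hLPe]
      congr 1
      apply Subtype.ext
      exact hemi_proj2 1 e1 x (by linarith)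
    · simp only [hx, if_false]
      rw [Complex.exp_add, hLQe]
      have h5 : Complex.exp (k * (2 * Real.pi * Complex.I)) = 1 :=
        Complex.exp_int_mul_two_pi_mul_I k
      rw [h5, mul_one]
      congr 1
      apply Subtype.ext
      push Not at hx
      exact hemi_proj2 (-1) e2 x (by linarith)

end Pool.Agent.MP249bfd
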