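import Mathlib
import Pool.Agent.Lib.MP_249bfd_co.Sphere2

set_option autoImplicit false

/-! Properties of spaces homeomorphic to the two-dimensional sphere. -/

namespace Pool.Agent.MP249bfd

open Set Metric Topology Filter

section

variable {X : Type*} [TopologicalSpace X] (h : X ≃ₜ S2)

include h

theorem isOpen_image_of_homeo (U : Set ℂ) (hU : IsOpen U) (f : ℂ → X) (hf : ContinuousOn f U)
    (hinj : InjOn f U) : IsOpen (f '' U) := by
  have h1 := isOpen_image_S2 U hU (fun z => h (f z)) (h.continuous.comp_continuousOn hf)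
    (fun a ha b hb hab => hinj ha hb (h.injective hab))
  have h2 : f '' U = h ⁻¹' ((fun z => h (f z)) '' U) := by
    ext x
    constructor
    · rintro ⟨z, hz, rfl⟩
      exact ⟨z, hz, rfl⟩
    · rintro ⟨z, hz, hzx⟩
      exact ⟨z, hz, h.injective hzx⟩
  rw [h2]
  exact h1.preimage h.continuous

theorem no_half_plane (p : X) (N : Set X) (hN : N ∈ 𝓝 p) (ρ : X → ℂ) (hρ : ContinuousOn ρ N)
    (hinj : InjOn ρ N) (him : ∀ x ∈ N, 0 ≤ (ρ x).im) (hp : (ρ p).im = 0) : False := by
  obtain ⟨v, hv⟩ := exists_ne_S2 (h p)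
  obtain ⟨κ, χ, hκ, hχ, h1, h2, h3⟩ := exists_chart v
  set g : ℂ → X := fun z => h.symm (χ z) with hg
  have hgc : Continuous g := h.symm.continuous.comp hχ
  have hgi : Function.Injective g := by
    intro a b hab
    have : χ a = χ b := h.symm.injective hab
    rw [← h1 a, ← h1 b, this]
  have hgp : g (κ (h p)) = p := by
    simp only [hg]
    rw [h2 _ hv.symm, h.symm_apply_apply]
  set V := g ⁻¹' interior N with hV
  have hVo : IsOpen V := isOpen_interior.preimage hgc
  have hpV : κ (h p) ∈ V := by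
    rw [hV, mem_preimage, hgp]
    exact mem_interior_iff_mem_nhds.mpr hN
  have ho := isOpen_image_plane V hVo (fun z => ρ (g z))
    (hρ.comp hgc.continuousOn (fun z hz => interior_subset hz))
    (fun a ha b hb hab => hgi (hinj (interior_subset ha) (interior_subset hb) hab))
  have hmem : ρ p ∈ (fun z => ρ (g z)) '' V := ⟨κ (h p), hpV, by simp only [hgp]⟩
  obtain ⟨r, hr, hrs⟩ := Metric.isOpen_iff.mp ho _ hmem
  have hq : ρ p - (r / 2 : ℝ) * Complex.I ∈ ball (ρ p) r := by
    rw [mem_ball, dist_eq_norm, sub_sub_cancel_left, norm_neg, norm_mul, Complex.norm_I,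
      Complex.norm_real, mul_one, Real.norm_eq_abs, abs_of_pos (by positivity)]
    linarith
  obtain ⟨z, hz, hzq⟩ := hrs hq
  have h4 := him (g z) (interior_subset hz)
  simp only at hzq
  rw [hzq] at h4
  simp only [Complex.sub_im, Complex.mul_im, Complex.ofReal_re, Complex.I_im, mul_one,
    Complex.ofReal_im, Complex.I_re, mul_zero, add_zero, hp] at h4
  linarith

theorem exists_log_of_homeo (f : X → ℂ) (hf : Continuous f) (h0 : ∀ x, f x ≠ 0) :
    ∃ L : X → ℂ, Continuous L ∧ ∀ x, Complex.exp (L x) = f x := by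
  obtain ⟨L, hL, hLe⟩ := exists_log_S2 (fun x => f (h.symm x)) (hf.comp h.symm.continuous)
    (fun x => h0 _)
  refine ⟨fun x => L (h x), hL.comp h.continuous, fun x => ?_⟩
  rw [hLe, h.symm_apply_apply]

theorem isPreconnected_compl_finite_of_homeo (F : Set X) (hF : F.Finite) :
    IsPreconnected Fᶜ := by
  have h1 := isPreconnected_compl_finite_S2 (h.symm ⁻¹' F) (hF.preimage h.symm.injective.injOn)
  have h2 : Fᶜ = h.symm '' (h.symm ⁻¹' F)ᶜ := by
    rw [← preimage_compl, image_preimage_eq _ h.symm.surjective]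
  rw [h2]
  exact h1.image _ h.symm.continuous.continuousOn

end

end Pool.Agent.MP249bfd
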