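import Mathlib
import Pool.Agent.Lib.MP_249bfd_co.Geom2
import Pool.Agent.Lib.MP_249bfd_co.Transfer

set_option autoImplicit false
set_option linter.unusedSectionVars false

/-! Local structure of subcomplexes homeomorphic to the sphere. -/

namespace Pool.Agent.MP249bfd

open Finset Topology

theorem no_half_plane_set (X : Set E4) (h : X ≃ₜ S2) (p : E4) (hp : p ∈ X) (N : Set E4)
    (hN : N ∈ 𝓝 p) (ρ : E4 → ℂ) (hρ : Continuous ρ)
    (hinj : ∀ x ∈ X, x ∈ N → ∀ y ∈ X, y ∈ N → ρ x = ρ y → x = y)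
    (him : ∀ x ∈ X, x ∈ N → 0 ≤ (ρ x).im) (hp0 : (ρ p).im = 0) : False := by
  apply no_half_plane h ⟨p, hp⟩ (Subtype.val ⁻¹' N)
    (continuous_subtype_val.continuousAt.preimage_mem_nhds hN) (fun x => ρ x.1)
    (hρ.comp continuous_subtype_val).continuousOn
  · intro x hx y hy hxy
    exact Subtype.ext (hinj x.1 x.2 hx y.1 y.2 hy hxy)
  · intro x hx
    exact him x.1 x.2 hx
  · exact hp0

theorem page_contradiction (X : Set E4) (h : X ≃ₜ S2) (f : ℂ → E4) (hf : Continuous f)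
    (hinj : Set.InjOn f (Metric.ball 0 1)) (hm : ∀ w ∈ Metric.ball (0 : ℂ) 1, f w ∈ X)
    (γ : ℝ → E4) (hγ : Continuous γ) (hγ0 : γ 0 = f 0) (δ : ℝ) (hδ : 0 < δ)
    (hγX : ∀ r, 0 < r → r < δ → γ r ∈ X)
    (hγn : ∀ r, 0 < r → r < δ → ∀ w ∈ Metric.ball (0 : ℂ) 1, f w ≠ γ r) : False := by
  classical
  have h0 : (0 : ℂ) ∈ Metric.ball (0 : ℂ) 1 := by simp
  set F : ℂ → X := fun w => if hw : w ∈ Metric.ball (0 : ℂ) 1 then ⟨f w, hm w hw⟩
    else ⟨f 0, hm 0 h0⟩ with hF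
  have hFv : ∀ w ∈ Metric.ball (0 : ℂ) 1, (F w).1 = f w := by
    intro w hw
    simp only [hF, dif_pos hw]
  have hFc : ContinuousOn F (Metric.ball 0 1) := by
    rw [Topology.IsInducing.subtypeVal.continuousOn_iff]
    exact hf.continuousOn.congr hFv
  have hFi : Set.InjOn F (Metric.ball 0 1) := by
    intro a ha b hb hab
    apply hinj ha hb
    rw [← hFv a ha, ← hFv b hb, hab]
  have hopen := isOpen_image_of_homeo h (Metric.ball 0 1) Metric.isOpen_ball F hFc hFi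
  obtain ⟨W, hW, hWe⟩ := isOpen_induced_iff.mp hopen
  have hp : f 0 ∈ W := by
    have : F 0 ∈ Subtype.val ⁻¹' W := by
      rw [hWe]
      exact ⟨0, h0, rfl⟩
    rw [Set.mem_preimage, hFv 0 h0] at this
    exact this
  have hWn : γ ⁻¹' W ∈ 𝓝 (0 : ℝ) := by
    apply hγ.continuousAt.preimage_mem_nhds
    rw [hγ0]
    exact hW.mem_nhds hp
  obtain ⟨e, he, heW⟩ := Metric.mem_nhds_iff.mp hWn
  set r := min e δ / 2 with hr
  have hr0 : 0 < r := by positivity
  have hre : r < e := by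
    have := min_le_left e δ
    linarith
  have hrδ : r < δ := by
    have := min_le_right e δ
    linarith
  have hrW : γ r ∈ W := heW (by
    rw [Metric.mem_ball, dist_zero_right, Real.norm_eq_abs, abs_of_pos hr0]
    exact hre)
  have hmem : (⟨γ r, hγX r hr0 hrδ⟩ : X) ∈ F '' Metric.ball 0 1 := by
    rw [← hWe]
    exact hrW
  obtain ⟨w, hw, hwe⟩ := hmem
  apply hγn r hr0 hrδ w hw
  rw [← hFv w hw, hwe]

namespace Cell

variable {ι : Type} [DecidableEq ι] [Fintype ι] (C : Cell ι)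

/-- Points with small nonnegative slacks at the facets of a vertex belong to the polytope. -/
theorem exists_eps {τ : Finset ι} (hτ : τ ∈ C.Q) : ∃ ε : ℝ, 0 < ε ∧ ∀ μ : ι → ℝ,
    (∀ i ∈ τ, 0 ≤ μ i ∧ μ i ≤ ε) → C.Th τ μ ∈ C.P ∧ ∀ j, j ∉ τ → 0 < C.sl j (C.Th τ μ) := by
  obtain ⟨h4, hc⟩ := (C.mem_Q).mp hτ
  have hne : τ.Nonempty := card_pos.mp (by omega)
  obtain ⟨i0, hi0, hmin⟩ := Finset.exists_min_image τ (fun i => C.sl i (C.z (C.nbr τ i))) hne
  have hD0 := C.D_pos hτ hi0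
  refine ⟨C.sl i0 (C.z (C.nbr τ i0)) / 8, by positivity, fun μ hμ => ?_⟩
  set a : ι → ℝ := fun i => μ i * (C.sl i (C.z (C.nbr τ i)))⁻¹ with ha
  have ha0 : ∀ i ∈ τ, 0 ≤ a i := fun i hi =>
    mul_nonneg (hμ i hi).1 (inv_nonneg.mpr (C.D_pos hτ hi).le)
  have ha1 : ∀ i ∈ τ, a i ≤ 1 / 8 := by
    intro i hi
    have h1 := C.D_pos hτ hi
    simp only [ha]
    rw [mul_inv_le_iff₀ h1]
    have h2 := hmin i hi
    have h3 := (hμ i hi).2
    linarith
  have hcard : ∑ i ∈ τ, (1 / 4 : ℝ) = 1 := by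
    rw [Finset.sum_const, h4]
    norm_num
  have hTh : C.Th τ μ = ∑ i ∈ τ, (1 / 4 : ℝ) •
      ((1 - 4 * a i) • C.z τ + (4 * a i) • C.z (C.nbr τ i)) := by
    have h1 : ∀ i ∈ τ, (1 / 4 : ℝ) • ((1 - 4 * a i) • C.z τ + (4 * a i) • C.z (C.nbr τ i)) =
        (1 / 4 : ℝ) • C.z τ + μ i • C.dv τ i := by
      intro i _
      rw [dv, smul_smul]
      change _ = _ + a i • _
      module
    rw [Finset.sum_congr rfl h1, Finset.sum_add_distrib, ← Finset.sum_smul, hcard, one_smul, Th]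
  constructor
  · rw [hTh]
    apply C.convex_P.sum_mem (fun i _ => by norm_num) hcard
    intro i hi
    apply C.convex_P (C.z_mem_P hτ) (C.z_mem_P (C.nbr_spec hτ hi).1)
    · linarith [ha1 i hi]
    · linarith [ha0 i hi]
    · ring
  · intro j hj
    rw [hTh, C.sl_comb _ _ _ hcard]
    apply Finset.sum_pos _ hne
    intro i hi
    have h1 : C.sl j ((1 - 4 * a i) • C.z τ + (4 * a i) • C.z (C.nbr τ i)) =
        (1 - 4 * a i) * C.sl j (C.z τ) + (4 * a i) * C.sl j (C.z (C.nbr τ i)) := by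
      simp only [sl, inner_add_right, inner_smul_right]
      ring
    rw [h1]
    have h2 := C.sl_z_notMem hτ hj
    have h3 := C.sl_z_nonneg (C.nbr_spec hτ hi).1 j
    have h4 := ha0 i hi
    have h5 := ha1 i hi
    have h6 : 0 < (1 - 4 * a i) * C.sl j (C.z τ) := mul_pos (by linarith) h2
    have h7 : 0 ≤ (4 * a i) * C.sl j (C.z (C.nbr τ i)) := mul_nonneg (by linarith) h3
    linarith

theorem continuous_Th {Y : Type*} [TopologicalSpace Y] (τ : Finset ι) (m : Y → ι → ℝ)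
    (hm : ∀ i, Continuous (fun y => m y i)) : Continuous (fun y => C.Th τ (m y)) := by
  unfold Th
  apply continuous_const.add
  apply continuous_finsetSum
  intro i _
  exact (hm i).smul continuous_const

end Cell

end Pool.Agent.MP249bfd
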