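import Mathlib
import Pool.Agent.Lib.MP_249bfd_co.Local

set_option autoImplicit false
set_option linter.unusedSectionVars false

/-! Subcomplexes homeomorphic to the sphere: local combinatorics. -/

namespace Pool.Agent.MP249bfd

open Finset Topology

namespace Cell

variable {ι : Type} [DecidableEq ι] [Fintype ι] (C : Cell ι)

/-- A subcomplex of the boundary complex containing all vertices. -/
structure SC (K : Set (Set E4)) : Prop where
  proper : ∀ F ∈ K, F.Nonempty ∧ F ≠ C.P ∧ IsExposed ℝ C.P F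
  down : ∀ F ∈ K, ∀ G, G.Nonempty → G ≠ C.P → IsExposed ℝ C.P G → G ⊆ F → G ∈ K
  vert : ∀ τ ∈ C.Q, {C.z τ} ∈ K

/-- the members of the subcomplex as sets of facets -/
def KK (K : Set (Set E4)) (S : Finset ι) : Prop := S.Nonempty ∧ C.face S ∈ K

open Classical in
/-- the facets through a point -/
noncomputable def I (x : E4) : Finset ι := univ.filter (fun i => C.sl i x = 0)

theorem mem_I {x : E4} {i : ι} : i ∈ C.I x ↔ C.sl i x = 0 := by
  simp [I]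

theorem I_sup {x : E4} (hx : x ∈ C.P) : ∃ τ ∈ C.Q, C.I x ⊆ τ := by
  obtain ⟨τ, hτ, h⟩ := C.exists_sup hx
  exact ⟨τ, hτ, fun i hi => h i (C.mem_I.mp hi)⟩

theorem mem_face_iff {S : Finset ι} {x : E4} : x ∈ C.face S ↔ x ∈ C.P ∧ S ⊆ C.I x := by
  rw [mem_face]
  constructor
  · rintro ⟨h1, h2⟩
    exact ⟨h1, fun i hi => C.mem_I.mpr (h2 i hi)⟩
  · rintro ⟨h1, h2⟩
    exact ⟨h1, fun i hi => C.mem_I.mp (h2 hi)⟩

namespace SC

variable {C} {K : Set (Set E4)} (H : C.SC K)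

include H

theorem sub {S : Finset ι} (hS : C.KK K S) : ∃ τ ∈ C.Q, S ⊆ τ := by
  obtain ⟨x, hx⟩ := (H.proper _ hS.2).1
  rw [mem_face_iff] at hx
  obtain ⟨τ, hτ, h⟩ := C.I_sup hx.1
  exact ⟨τ, hτ, hx.2.trans h⟩

theorem up {S S' τ : Finset ι} (hτ : τ ∈ C.Q) (h1 : S ⊆ S') (h2 : S' ⊆ τ) (hS : C.KK K S) :
    C.KK K S' := by
  have hne : S'.Nonempty := hS.1.mono h1
  exact ⟨hne, H.down _ hS.2 _ ⟨C.z τ, C.z_mem_face hτ h2⟩ (C.face_ne_P hτ h2 hne)
    (C.isExposed_face hτ h2) (C.face_mono h1)⟩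

theorem kk_vert {τ : Finset ι} (hτ : τ ∈ C.Q) : C.KK K τ := by
  refine ⟨card_pos.mp (by rw [((C.mem_Q).mp hτ).1]; norm_num), ?_⟩
  rw [C.face_eq_singleton hτ]
  exact H.vert τ hτ

omit H in
theorem mem_of_face {S : Finset ι} (hS : C.KK K S) {x : E4} (hx : x ∈ C.P)
    (h : ∀ i ∈ S, C.sl i x = 0) : x ∈ ⋃₀ K := ⟨_, hS.2, hx, h⟩

theorem kk_of_mem {x : E4} (hx : x ∈ ⋃₀ K) : x ∈ C.P ∧ C.KK K (C.I x) := by
  obtain ⟨F, hF, hxF⟩ := hx
  obtain ⟨hne, hprop, hexp⟩ := H.proper F hF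
  obtain ⟨S, τ, hτ, hSτ, rfl⟩ := C.exists_face hexp hne
  have hSne : S.Nonempty := by
    rw [Finset.nonempty_iff_ne_empty]
    rintro rfl
    exact hprop C.face_empty
  rw [mem_face_iff] at hxF
  obtain ⟨τ', hτ', h'⟩ := C.I_sup hxF.1
  exact ⟨hxF.1, H.up hτ' hxF.2 h' ⟨hSne, hF⟩⟩

/-- four distinct facets through a vertex -/
theorem exists_fourth {a b c : ι} (hab : a ≠ b) (hac : a ≠ c) (hbc : b ≠ c)
    (hK : C.KK K {a, b, c}) : ∃ d, d ≠ a ∧ d ≠ b ∧ d ≠ c ∧ ({a, b, c, d} : Finset ι) ∈ C.Q := by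
  obtain ⟨τ, hτ, hs⟩ := H.sub hK
  have h3 : ({a, b, c} : Finset ι).card = 3 := Finset.card_eq_three.mpr ⟨a, b, c, hab, hac, hbc, rfl⟩
  have h4 := ((C.mem_Q).mp hτ).1
  have h1 : (τ \ {a, b, c}).card = 1 := by rw [card_sdiff_of_subset hs, h4, h3]
  obtain ⟨d, hd⟩ := card_eq_one.mp h1
  have hd' : d ∈ τ ∧ d ∉ ({a, b, c} : Finset ι) := by
    rw [← mem_sdiff, hd]
    exact mem_singleton_self d
  simp only [mem_insert, mem_singleton, not_or] at hd'
  refine ⟨d, hd'.2.1, hd'.2.2.1, hd'.2.2.2, ?_⟩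
  have : τ = {a, b, c, d} := by
    rw [← union_sdiff_of_subset hs, hd]
    ext z
    simp only [mem_union, mem_insert, mem_singleton]
    tauto
  rwa [← this]

end SC

/-- slack prescription at four facets -/
def mk4 (a b c : ι) (va vb vc vd : ℝ) : ι → ℝ := fun i =>
  if i = a then va else if i = b then vb else if i = c then vc else vd

theorem mk4_a (a b c : ι) (va vb vc vd : ℝ) : mk4 a b c va vb vc vd a = va := by simp [mk4]

theorem mk4_b {a b : ι} (c : ι) (hab : b ≠ a) (va vb vc vd : ℝ) :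
    mk4 a b c va vb vc vd b = vb := by simp [mk4, hab]

theorem mk4_c {a b c : ι} (hca : c ≠ a) (hcb : c ≠ b) (va vb vc vd : ℝ) :
    mk4 a b c va vb vc vd c = vc := by simp [mk4, hca, hcb]

theorem mk4_d {a b c d : ι} (hda : d ≠ a) (hdb : d ≠ b) (hdc : d ≠ c) (va vb vc vd : ℝ) :
    mk4 a b c va vb vc vd d = vd := by simp [mk4, hda, hdb, hdc]

theorem mk4_bounds (a b c : ι) (va vb vc vd ε : ℝ) (ha : 0 ≤ va ∧ va ≤ ε) (hb : 0 ≤ vb ∧ vb ≤ ε)
    (hc : 0 ≤ vc ∧ vc ≤ ε) (hd : 0 ≤ vd ∧ vd ≤ ε) (i : ι) :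
    0 ≤ mk4 a b c va vb vc vd i ∧ mk4 a b c va vb vc vd i ≤ ε := by
  unfold mk4
  split_ifs <;> assumption

theorem continuous_mk4 {Y : Type*} [TopologicalSpace Y] (a b c : ι) (va vb vc vd : Y → ℝ)
    (ha : Continuous va) (hb : Continuous vb) (hc : Continuous vc) (hd : Continuous vd) (i : ι) :
    Continuous (fun y => mk4 a b c (va y) (vb y) (vc y) (vd y) i) := by
  unfold mk4
  split_ifs <;> assumption

end Cell

end Pool.Agent.MP249bfd
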