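import Mathlib
import Pool.Agent.Lib.MP_249bfd_co.Topo

set_option autoImplicit false
set_option linter.unusedSectionVars false

/-! Subcomplexes homeomorphic to the sphere: local conditions. -/

namespace Pool.Agent.MP249bfd

open Finset Topology

namespace Cell

namespace SC

variable {ι : Type} [DecidableEq ι] [Fintype ι] {C : Cell ι} {K : Set (Set E4)} (H : C.SC K)

theorem re_lt {w : ℂ} (hw : w ∈ Metric.ball (0 : ℂ) 1) : -1 < w.re ∧ w.re < 1 := by
  rw [Metric.mem_ball, dist_zero_right] at hw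
  have h1 := Complex.abs_re_le_norm w
  have h2 := abs_le.mp h1
  constructor <;> linarith [h2.1, h2.2]

theorem im_lt {w : ℂ} (hw : w ∈ Metric.ball (0 : ℂ) 1) : -1 < w.im ∧ w.im < 1 := by
  rw [Metric.mem_ball, dist_zero_right] at hw
  have h1 := Complex.abs_im_le_norm w
  have h2 := abs_le.mp h1
  constructor <;> linarith [h2.1, h2.2]

include H

theorem two_le (h : (⋃₀ K : Set E4) ≃ₜ S2) {S : Finset ι} (hS : C.KK K S) : 2 ≤ S.card := by
  by_contra hlt
  push Not at hlt
  have h1 : S.card = 1 := by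
    have := card_pos.mpr hS.1
    omega
  obtain ⟨a, rfl⟩ := card_eq_one.mp h1
  obtain ⟨τ, hτ, hs⟩ := H.sub hS
  have haτ : a ∈ τ := hs (mem_singleton_self a)
  have h4 := ((C.mem_Q).mp hτ).1
  obtain ⟨b, c, d, hbc, hbd, hcd, he⟩ := Finset.card_eq_three.mp
    (show (τ.erase a).card = 3 by rw [card_erase_of_mem haτ, h4])
  have hb' : b ∈ τ.erase a := by rw [he]; simp
  have hc' : c ∈ τ.erase a := by rw [he]; simp
  have hd' : d ∈ τ.erase a := by rw [he]; simp
  rw [mem_erase] at hb' hc' hd'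
  obtain ⟨ε, hε, hmem⟩ := C.exists_eps hτ
  set f : ℂ → E4 := fun w => C.Th τ
    (mk4 a b c 0 (ε / 2 + ε / 4 * w.re) (ε / 2 + ε / 4 * w.im) (ε / 2)) with hf
  set γ : ℝ → E4 := fun r => C.Th τ (mk4 a b c 0 (ε / 2) (ε / 2) (ε / 2 + r)) with hγ
  apply page_contradiction (⋃₀ K) h f (C.continuous_Th τ _ (fun i => continuous_mk4 a b c _ _ _ _
    (by fun_prop) (by fun_prop) (by fun_prop) (by fun_prop) i)) ?_ ?_ γ
    (C.continuous_Th τ _ (fun i => continuous_mk4 a b c _ _ _ _
    (by fun_prop) (by fun_prop) (by fun_prop) (by fun_prop) i)) ?_ (ε / 2) (by positivity) ?_ ?_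
  · intro w hw w' hw' hww
    have e1 := congrArg (C.sl b) hww
    have e2 := congrArg (C.sl c) hww
    simp only [hf] at e1 e2
    rw [C.sl_Th hτ _ hb'.2, C.sl_Th hτ _ hb'.2, mk4_b c hb'.1, mk4_b c hb'.1] at e1
    rw [C.sl_Th hτ _ hc'.2, C.sl_Th hτ _ hc'.2, mk4_c hc'.1 hbc.symm,
      mk4_c hc'.1 hbc.symm] at e2
    apply Complex.ext
    · have : ε * (w.re - w'.re) = 0 := by linarith
      rcases mul_eq_zero.mp this with h | h
      · exact absurd h hε.ne'
      · linarith
    · have : ε * (w.im - w'.im) = 0 := by linarith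
      rcases mul_eq_zero.mp this with h | h
      · exact absurd h hε.ne'
      · linarith
  · intro w hw
    obtain ⟨r1, r2⟩ := re_lt hw
    obtain ⟨i1, i2⟩ := im_lt hw
    have hP := hmem (mk4 a b c 0 (ε / 2 + ε / 4 * w.re) (ε / 2 + ε / 4 * w.im) (ε / 2))
      (fun i _ => mk4_bounds a b c _ _ _ _ ε ⟨le_refl _, hε.le⟩ ⟨by nlinarith, by nlinarith⟩
        ⟨by nlinarith, by nlinarith⟩ ⟨by linarith, by linarith⟩ i)
    apply mem_of_face hS hP.1
    intro i hi
    rw [mem_singleton] at hi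
    rw [hi, C.sl_Th hτ _ haτ, mk4_a]
  · simp only [hγ, hf]
    simp
  · intro r hr0 hrε
    have hP := hmem (mk4 a b c 0 (ε / 2) (ε / 2) (ε / 2 + r))
      (fun i _ => mk4_bounds a b c _ _ _ _ ε ⟨le_refl _, hε.le⟩ ⟨by linarith, by linarith⟩
        ⟨by linarith, by linarith⟩ ⟨by linarith, by linarith⟩ i)
    apply mem_of_face hS hP.1
    intro i hi
    rw [mem_singleton] at hi
    rw [hi, C.sl_Th hτ _ haτ, mk4_a]
  · intro r hr0 hrε w hw hww
    have e1 := congrArg (C.sl d) hww
    simp only [hf, hγ] at e1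
    rw [C.sl_Th hτ _ hd'.2, C.sl_Th hτ _ hd'.2, mk4_d hd'.1 hbd.symm hcd.symm,
      mk4_d hd'.1 hbd.symm hcd.symm] at e1
    linarith

theorem not_three (h : (⋃₀ K : Set E4) ≃ₜ S2) (a b c : ι) (hab : a ≠ b) (hac : a ≠ c)
    (hbc : b ≠ c) (hK : C.KK K {a, b, c}) :
    ¬ (C.KK K {a, b} ∧ C.KK K {a, c} ∧ C.KK K {b, c}) := by
  rintro ⟨kab, kac, kbc⟩
  obtain ⟨d, hda, hdb, hdc, hτ⟩ := H.exists_fourth hab hac hbc hK
  set τ : Finset ι := {a, b, c, d} with hτd
  have ma : a ∈ τ := by simp [hτd]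
  have mb : b ∈ τ := by simp [hτd]
  have mc : c ∈ τ := by simp [hτd]
  have md : d ∈ τ := by simp [hτd]
  obtain ⟨ε, hε, hmem⟩ := C.exists_eps hτ
  set f : ℂ → E4 := fun w => C.Th τ
    (mk4 a b c 0 (ε / 2 * max (-w.im) 0) (ε / 2 * max w.im 0) (ε / 2 + ε / 4 * w.re)) with hf
  set γ : ℝ → E4 := fun r => C.Th τ (mk4 a b c r 0 0 (ε / 2)) with hγ
  have hε2 : ε / 2 ≠ 0 := by positivity
  apply page_contradiction (⋃₀ K) h f (C.continuous_Th τ _ (fun i => continuous_mk4 a b c _ _ _ _
    (by fun_prop) (by fun_prop) (by fun_prop) (by fun_prop) i)) ?_ ?_ γ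
    (C.continuous_Th τ _ (fun i => continuous_mk4 a b c _ _ _ _
    (by fun_prop) (by fun_prop) (by fun_prop) (by fun_prop) i)) ?_ (ε / 2) (by positivity) ?_ ?_
  · intro w hw w' hw' hww
    have e1 := congrArg (C.sl b) hww
    have e2 := congrArg (C.sl c) hww
    have e3 := congrArg (C.sl d) hww
    simp only [hf] at e1 e2 e3
    rw [C.sl_Th hτ _ mb, C.sl_Th hτ _ mb, mk4_b c hab.symm, mk4_b c hab.symm] at e1
    rw [C.sl_Th hτ _ mc, C.sl_Th hτ _ mc, mk4_c hac.symm hbc.symm,
      mk4_c hac.symm hbc.symm] at e2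
    rw [C.sl_Th hτ _ md, C.sl_Th hτ _ md, mk4_d hda hdb hdc, mk4_d hda hdb hdc] at e3
    have e1' := mul_left_cancel₀ hε2 e1
    have e2' := mul_left_cancel₀ hε2 e2
    apply Complex.ext
    · have : ε * (w.re - w'.re) = 0 := by linarith
      rcases mul_eq_zero.mp this with h | h
      · exact absurd h hε.ne'
      · linarith
    · have h1 : ∀ t : ℝ, t = max t 0 - max (-t) 0 := by
        intro t
        rcases le_total 0 t with ht | ht
        · rw [max_eq_left ht, max_eq_right (by linarith)]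
          ring
        · rw [max_eq_right ht, max_eq_left (by linarith)]
          ring
      rw [h1 w.im, h1 w'.im, e1', e2']
  · intro w hw
    obtain ⟨r1, r2⟩ := re_lt hw
    obtain ⟨i1, i2⟩ := im_lt hw
    have m1 : 0 ≤ max (-w.im) 0 := le_max_right _ _
    have m2 : 0 ≤ max w.im 0 := le_max_right _ _
    have m3 : max (-w.im) 0 ≤ 1 := max_le (by linarith) (by norm_num)
    have m4 : max w.im 0 ≤ 1 := max_le (by linarith) (by norm_num)
    have hP := hmem
      (mk4 a b c 0 (ε / 2 * max (-w.im) 0) (ε / 2 * max w.im 0) (ε / 2 + ε / 4 * w.re))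
      (fun i _ => mk4_bounds a b c _ _ _ _ ε ⟨le_refl _, hε.le⟩
        ⟨by positivity, by nlinarith⟩ ⟨by positivity, by nlinarith⟩
        ⟨by nlinarith, by nlinarith⟩ i)
    rcases le_total 0 w.im with hi | hi
    · apply mem_of_face kab hP.1
      intro i hi'
      simp only [mem_insert, mem_singleton] at hi'
      rcases hi' with rfl | rfl
      · rw [C.sl_Th hτ _ ma, mk4_a]
      · rw [C.sl_Th hτ _ mb, mk4_b c hab.symm, max_eq_right (by linarith), mul_zero]
    · apply mem_of_face kac hP.1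
      intro i hi'
      simp only [mem_insert, mem_singleton] at hi'
      rcases hi' with rfl | rfl
      · rw [C.sl_Th hτ _ ma, mk4_a]
      · rw [C.sl_Th hτ _ mc, mk4_c hac.symm hbc.symm, max_eq_right hi, mul_zero]
  · simp only [hγ, hf]
    simp
  · intro r hr0 hrε
    have hP := hmem (mk4 a b c r 0 0 (ε / 2))
      (fun i _ => mk4_bounds a b c _ _ _ _ ε ⟨by linarith, by linarith⟩ ⟨by linarith, by linarith⟩
        ⟨by linarith, by linarith⟩ ⟨by linarith, by linarith⟩ i)
    apply mem_of_face kbc hP.1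
    intro i hi'
    simp only [mem_insert, mem_singleton] at hi'
    rcases hi' with rfl | rfl
    · rw [C.sl_Th hτ _ mb, mk4_b c hab.symm]
    · rw [C.sl_Th hτ _ mc, mk4_c hac.symm hbc.symm]
  · intro r hr0 hrε w hw hww
    have e1 := congrArg (C.sl a) hww
    simp only [hf, hγ] at e1
    rw [C.sl_Th hτ _ ma, C.sl_Th hτ _ ma, mk4_a, mk4_a] at e1
    linarith

theorem two_of_three (h : (⋃₀ K : Set E4) ≃ₜ S2) (a b c : ι) (hab : a ≠ b) (hac : a ≠ c)
    (hbc : b ≠ c) (hK : C.KK K {a, b, c}) : C.KK K {a, c} ∨ C.KK K {b, c} := by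
  by_contra hcon
  push Not at hcon
  obtain ⟨nac, nbc⟩ := hcon
  obtain ⟨d, hda, hdb, hdc, hτ⟩ := H.exists_fourth hab hac hbc hK
  set τ : Finset ι := {a, b, c, d} with hτd
  have ma : a ∈ τ := by simp [hτd]
  have mb : b ∈ τ := by simp [hτd]
  have mc : c ∈ τ := by simp [hτd]
  have md : d ∈ τ := by simp [hτd]
  obtain ⟨ε, hε, hmem⟩ := C.exists_eps hτ
  set p : E4 := C.Th τ (mk4 a b c 0 0 0 ε) with hp
  have hP := hmem (mk4 a b c 0 0 0 ε)
      (fun i _ => mk4_bounds a b c _ _ _ _ ε ⟨le_refl _, hε.le⟩ ⟨le_refl _, hε.le⟩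
        ⟨le_refl _, hε.le⟩ ⟨hε.le, le_refl _⟩ i)
  have hpX : p ∈ ⋃₀ K := by
    apply mem_of_face hK hP.1
    intro i hi'
    simp only [mem_insert, mem_singleton] at hi'
    rcases hi' with rfl | rfl | rfl
    · rw [C.sl_Th hτ _ ma, mk4_a]
    · rw [C.sl_Th hτ _ mb, mk4_b c hab.symm]
    · rw [C.sl_Th hτ _ mc, mk4_c hac.symm hbc.symm]
  set N : Set E4 := ⋂ j ∈ (univ \ {a, b, c} : Finset ι), {x | 0 < C.sl j x} with hN
  have hNopen : IsOpen N := by
    apply isOpen_biInter_finset
    intro j _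
    exact isOpen_lt continuous_const (C.continuous_sl j)
  have hpN : p ∈ N := by
    simp only [hN, Set.mem_iInter, mem_sdiff, mem_univ, true_and]
    intro j hj
    by_cases hjτ : j ∈ τ
    · have : j = d := by
        simp only [hτd, mem_insert, mem_singleton] at hjτ hj
        tauto
      change 0 < C.sl j p
      rw [hp, this, C.sl_Th hτ _ md, mk4_d hda hdb hdc]
      exact hε
    · exact hP.2 j hjτ
  have key : ∀ x ∈ ⋃₀ K, x ∈ N → C.sl a x = 0 ∧ C.sl b x = 0 := by
    intro x hx hxN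
    obtain ⟨hxP, hxK⟩ := H.kk_of_mem hx
    have hsub : C.I x ⊆ {a, b, c} := by
      intro j hj
      by_contra hj'
      simp only [hN, Set.mem_iInter, mem_sdiff, mem_univ, true_and] at hxN
      have h1 := hxN j hj'
      rw [Set.mem_ofPred_eq, C.mem_I.mp hj] at h1
      exact lt_irrefl _ h1
    have h2 := H.two_le h hxK
    constructor
    · by_contra ha
      have ha' : a ∉ C.I x := fun h => ha (C.mem_I.mp h)
      apply nbc
      have hs : C.I x ⊆ {b, c} := by
        intro j hj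
        have h3 := hsub hj
        simp only [mem_insert, mem_singleton] at h3 ⊢
        rcases h3 with rfl | h3
        · exact absurd hj ha'
        · exact h3
      have he : C.I x = {b, c} := eq_of_subset_of_card_le hs (by rw [card_pair hbc]; exact h2)
      rwa [he] at hxK
    · by_contra hb
      have hb' : b ∉ C.I x := fun h => hb (C.mem_I.mp h)
      apply nac
      have hs : C.I x ⊆ {a, c} := by
        intro j hj
        have h3 := hsub hj
        simp only [mem_insert, mem_singleton] at h3 ⊢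
        rcases h3 with rfl | rfl | h3
        · exact Or.inl rfl
        · exact absurd hj hb'
        · exact Or.inr h3
      have he : C.I x = {a, c} := eq_of_subset_of_card_le hs (by rw [card_pair hac]; exact h2)
      rwa [he] at hxK
  apply no_half_plane_set (⋃₀ K) h p hpX N (hNopen.mem_nhds hpN)
    (fun x => ((C.sl d x : ℝ) : ℂ) + ((C.sl c x : ℝ) : ℂ) * Complex.I)
  · have h1 := C.continuous_sl d
    have h2 := C.continuous_sl c
    fun_prop
  · intro x hx hxN y hy hyN hxy
    obtain ⟨x1, x2⟩ := key x hx hxN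
    obtain ⟨y1, y2⟩ := key y hy hyN
    have hre := congrArg Complex.re hxy
    have him := congrArg Complex.im hxy
    simp only [Complex.add_re, Complex.ofReal_re, Complex.mul_re, Complex.I_re, mul_zero,
      Complex.ofReal_im, Complex.I_im, mul_one, sub_self, add_zero, Complex.add_im,
      Complex.mul_im, zero_add] at hre him
    apply C.eq_of_sl hτ
    intro i hi
    simp only [hτd, mem_insert, mem_singleton] at hi
    rcases hi with rfl | rfl | rfl | rfl
    · rw [x1, y1]
    · rw [x2, y2]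
    · exact him
    · exact hre
  · intro x hx hxN
    simp only [Complex.add_im, Complex.ofReal_im, Complex.mul_im, Complex.ofReal_re,
      Complex.I_im, mul_one, Complex.I_re, mul_zero, add_zero, zero_add]
    exact C.sl_nonneg (H.kk_of_mem hx).1 c
  · simp only [Complex.add_im, Complex.ofReal_im, Complex.mul_im, Complex.ofReal_re,
      Complex.I_im, mul_one, Complex.I_re, mul_zero, add_zero, zero_add]
    rw [hp, C.sl_Th hτ _ mc, mk4_c hac.symm hbc.symm]

theorem four (h : (⋃₀ K : Set E4) ≃ₜ S2) {τ : Finset ι} (hτ : τ ∈ C.Q) :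
    ∃ σ ⊆ τ, σ.card = 3 ∧ C.KK K σ := by
  by_contra hcon
  push Not at hcon
  have h4 := ((C.mem_Q).mp hτ).1
  have hpX : C.z τ ∈ ⋃₀ K := ⟨_, H.vert τ hτ, rfl⟩
  set N : Set E4 := ⋂ j ∈ (univ \ τ : Finset ι), {x | 0 < C.sl j x} with hN
  have hNopen : IsOpen N := by
    apply isOpen_biInter_finset
    intro j _
    exact isOpen_lt continuous_const (C.continuous_sl j)
  have hpN : C.z τ ∈ N := by
    simp only [hN, Set.mem_iInter, mem_sdiff, mem_univ, true_and]
    intro j hj
    exact C.sl_z_notMem hτ hj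
  have key : ∀ x ∈ ⋃₀ K, x ∈ N → x = C.z τ := by
    intro x hx hxN
    obtain ⟨hxP, hxK⟩ := H.kk_of_mem hx
    have hsub : C.I x ⊆ τ := by
      intro j hj
      by_contra hj'
      simp only [hN, Set.mem_iInter, mem_sdiff, mem_univ, true_and] at hxN
      have h1 := hxN j hj'
      rw [Set.mem_ofPred_eq, C.mem_I.mp hj] at h1
      exact lt_irrefl _ h1
    have hall : ∀ i ∈ τ, i ∈ C.I x := by
      intro i hi
      by_contra hi'
      have hs : C.I x ⊆ τ.erase i := by
        intro j hj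
        rw [mem_erase]
        exact ⟨fun e => hi' (e ▸ hj), hsub hj⟩
      exact hcon (τ.erase i) (erase_subset _ _) (by rw [card_erase_of_mem hi, h4])
        (H.up hτ hs (erase_subset _ _) hxK)
    apply C.eq_of_sl hτ
    intro i hi
    rw [C.mem_I.mp (hall i hi), C.sl_z_mem hτ hi]
  apply no_half_plane_set (⋃₀ K) h (C.z τ) hpX N (hNopen.mem_nhds hpN) (fun _ => 0)
    continuous_const
  · intro x hx hxN y hy hyN _
    rw [key x hx hxN, key y hy hyN]
  · intro x _ _
    simp
  · simp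

end SC

end Cell

end Pool.Agent.MP249bfd
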