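import Mathlib
import Pool.Agent.Lib.MP_249bfd_co.Topo2

set_option autoImplicit false
set_option linter.unusedSectionVars false

/-! Subcomplexes homeomorphic to the sphere: connectedness conditions. -/

namespace Pool.Agent.MP249bfd

open Finset Topology

namespace Cell

variable {ι : Type} [DecidableEq ι] [Fintype ι]

/-- open star of a vertex -/
def W (C : Cell ι) (τ : Finset ι) : Set E4 := {x | ∀ j, j ∉ τ → 0 < C.sl j x}

theorem isOpen_W (C : Cell ι) (τ : Finset ι) : IsOpen (C.W τ) := by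
  have : C.W τ = ⋂ j ∈ (univ \ τ : Finset ι), {x | 0 < C.sl j x} := by
    ext x
    simp [W]
  rw [this]
  apply isOpen_biInter_finset
  intro j _
  exact isOpen_lt continuous_const (C.continuous_sl j)

theorem mem_W_iff (C : Cell ι) {τ : Finset ι} {x : E4} (hx : x ∈ C.P) :
    x ∈ C.W τ ↔ C.I x ⊆ τ := by
  constructor
  · intro h j hj
    by_contra hj'
    have h1 := h j hj'
    rw [C.mem_I.mp hj] at h1
    exact lt_irrefl _ h1
  · intro h j hj
    apply lt_of_le_of_ne (C.sl_nonneg hx j)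
    intro h0
    exact hj (h (C.mem_I.mpr h0.symm))

theorem z_mem_W (C : Cell ι) {τ : Finset ι} (hτ : τ ∈ C.Q) : C.z τ ∈ C.W τ :=
  fun _ hj => C.sl_z_notMem hτ hj

theorem isClosed_face (C : Cell ι) (S : Finset ι) : IsClosed (C.face S) := by
  have h1 : IsClosed C.P := by
    apply Set.Finite.isClosed_convexHull
    exact (C.Q.finite_toSet).image _
  have h2 : C.face S = C.P ∩ ⋂ i ∈ S, {x | C.sl i x = 0} := by
    ext x
    simp [face]
  rw [h2]
  apply h1.inter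
  apply isClosed_biInter
  intro i _
  exact isClosed_eq (C.continuous_sl i) continuous_const

namespace SC

variable {C : Cell ι} {K : Set (Set E4)} (H : C.SC K)

include H

theorem exists_pair (h : (⋃₀ K : Set E4) ≃ₜ S2) {S : Finset ι} (hS : C.KK K S) :
    ∃ f ⊆ S, f.card = 2 ∧ C.KK K f := by
  have three : ∀ σ : Finset ι, σ.card = 3 → C.KK K σ → ∃ f ⊆ σ, f.card = 2 ∧ C.KK K f := by
    intro σ hσ hK
    obtain ⟨a, b, c, hab, hac, hbc, rfl⟩ := Finset.card_eq_three.mp hσ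
    rcases H.two_of_three h a b c hab hac hbc hK with h1 | h1
    · refine ⟨{a, c}, ?_, card_pair hac, h1⟩
      intro z; simp only [mem_insert, mem_singleton]; tauto
    · refine ⟨{b, c}, ?_, card_pair hbc, h1⟩
      intro z; simp only [mem_insert, mem_singleton]; tauto
  obtain ⟨τ, hτ, hs⟩ := H.sub hS
  have h4 := ((C.mem_Q).mp hτ).1
  have h2 := H.two_le h hS
  have hle := card_le_card hs
  have hc : S.card = 2 ∨ S.card = 3 ∨ S.card = 4 := by omega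
  rcases hc with hc | hc | hc
  · exact ⟨S, Subset.refl _, hc, hS⟩
  · exact three S hc hS
  · have hSτ : S = τ := eq_of_subset_of_card_le hs (by omega)
    obtain ⟨σ, hσ, hσ3, hσK⟩ := H.four h hτ
    obtain ⟨f, h5, h6, h7⟩ := three σ hσ3 hσK
    exact ⟨f, h5.trans (hSτ ▸ hσ), h6, h7⟩

omit H in
theorem preconn_compl (h : (⋃₀ K : Set E4) ≃ₜ S2) (V : Set E4) (hV : V.Finite) :
    IsPreconnected (⋃₀ K \ V) := by
  have h1 := isPreconnected_compl_finite_of_homeo h (Subtype.val ⁻¹' V)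
    (hV.preimage Subtype.val_injective.injOn)
  have h2 := h1.image Subtype.val continuous_subtype_val.continuousOn
  have h3 : Subtype.val '' (Subtype.val ⁻¹' V : Set (⋃₀ K : Set E4))ᶜ = ⋃₀ K \ V := by
    ext x
    constructor
    · rintro ⟨y, hy, rfl⟩
      exact ⟨y.2, hy⟩
    · rintro ⟨hx, hxV⟩
      exact ⟨⟨x, hx⟩, hxV, rfl⟩
  rwa [h3] at h2

theorem conn (h : (⋃₀ K : Set E4) ≃ₜ S2) (A : Finset ι → Prop)
    (hA : ∀ τ ∈ C.Q, ∀ τ' ∈ C.Q, C.KK K (τ ∩ τ') → A τ → A τ') :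
    ∀ τ ∈ C.Q, ∀ τ' ∈ C.Q, A τ → A τ' := by
  intro τ hτ τ' hτ' hAτ
  by_contra hAτ'
  have hpre : IsPreconnected (⋃₀ K : Set E4) := by
    have := preconn_compl h ∅ Set.finite_empty
    rwa [Set.sdiff_empty] at this
  set u : Set E4 := ⋃ t ∈ {t : Finset ι | t ∈ C.Q ∧ A t}, C.W t with hu
  set v : Set E4 := ⋃ t ∈ {t : Finset ι | t ∈ C.Q ∧ ¬ A t}, C.W t with hv
  have huo : IsOpen u := isOpen_biUnion fun t _ => C.isOpen_W t
  have hvo : IsOpen v := isOpen_biUnion fun t _ => C.isOpen_W t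
  have hcov : ⋃₀ K ⊆ u ∪ v := by
    intro x hx
    obtain ⟨hxP, hxK⟩ := H.kk_of_mem hx
    obtain ⟨t, ht, hts⟩ := C.I_sup hxP
    by_cases hAt : A t
    · left
      exact Set.mem_biUnion (show t ∈ {t : Finset ι | t ∈ C.Q ∧ A t} from ⟨ht, hAt⟩)
        ((C.mem_W_iff hxP).mpr hts)
    · right
      exact Set.mem_biUnion (show t ∈ {t : Finset ι | t ∈ C.Q ∧ ¬ A t} from ⟨ht, hAt⟩)
        ((C.mem_W_iff hxP).mpr hts)
  have hz : ∀ t ∈ C.Q, C.z t ∈ ⋃₀ K := fun t ht => ⟨_, H.vert t ht, rfl⟩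
  obtain ⟨x, hx, hxu, hxv⟩ := hpre u v huo hvo hcov
    ⟨C.z τ, hz τ hτ, Set.mem_biUnion (show τ ∈ {t : Finset ι | t ∈ C.Q ∧ A t} from ⟨hτ, hAτ⟩)
      (C.z_mem_W hτ)⟩
    ⟨C.z τ', hz τ' hτ', Set.mem_biUnion
      (show τ' ∈ {t : Finset ι | t ∈ C.Q ∧ ¬ A t} from ⟨hτ', hAτ'⟩) (C.z_mem_W hτ')⟩
  obtain ⟨hxP, hxK⟩ := H.kk_of_mem hx
  simp only [hu, hv, Set.mem_iUnion] at hxu hxv
  obtain ⟨t, ⟨ht, hAt⟩, hxt⟩ := hxu
  obtain ⟨t', ⟨ht', hAt'⟩, hxt'⟩ := hxv
  rw [C.mem_W_iff hxP] at hxt hxt'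
  exact hAt' (hA t ht t' ht' (H.up ht (subset_inter hxt hxt') inter_subset_left hxK) hAt)

/-- a point of a face whose facets are exactly the given ones -/
theorem exists_generic {S : Finset ι} (hS : C.KK K S) : ∃ x ∈ ⋃₀ K, C.I x = S := by
  obtain ⟨τ, hτ, hs⟩ := H.sub hS
  obtain ⟨ε, hε, hmem⟩ := C.exists_eps hτ
  classical
  have h1 := hmem (fun i => if i ∈ S then 0 else ε) (fun i _ => by
    split_ifs
    · exact ⟨le_refl _, hε.le⟩
    · exact ⟨hε.le, le_refl _⟩)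
  refine ⟨_, mem_of_face hS h1.1 ?_, ?_⟩
  · intro i hi
    rw [C.sl_Th hτ _ (hs hi), if_pos hi]
  · ext i
    rw [C.mem_I]
    by_cases hiτ : i ∈ τ
    · rw [C.sl_Th hτ _ hiτ]
      split_ifs with hi
      · simp [hi]
      · simp [hi, hε.ne']
    · have h2 := h1.2 i hiτ
      constructor
      · intro h3
        rw [h3] at h2
        exact absurd h2 (lt_irrefl _)
      · intro h3
        exact absurd (hs h3) hiτ

theorem sconn (h : (⋃₀ K : Set E4) ≃ₜ S2) (A : Finset ι → Prop)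
    (hA : ∀ f f' σ : Finset ι, f.card = 2 → f'.card = 2 → σ.card = 3 → C.KK K f → C.KK K f' →
      C.KK K σ → f ⊆ σ → f' ⊆ σ → A f → A f') :
    ∀ f f' : Finset ι, f.card = 2 → f'.card = 2 → C.KK K f → C.KK K f' → A f → A f' := by
  intro f f' hf hf' hfK hfK' hAf
  by_contra hAf'
  set V : Set E4 := C.z '' (C.Q : Set (Finset ι)) with hV
  have hVf : V.Finite := (C.Q.finite_toSet).image _
  have hpre := preconn_compl h V hVf
  set u : Set E4 := ⋃ t ∈ {t : Finset ι | t.card = 2 ∧ C.KK K t ∧ A t}, C.face t with hu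
  set v : Set E4 := ⋃ t ∈ {t : Finset ι | t.card = 2 ∧ C.KK K t ∧ ¬ A t}, C.face t with hv
  have huc : IsClosed u := Set.Finite.isClosed_biUnion (Set.toFinite _) fun t _ => C.isClosed_face t
  have hvc : IsClosed v := Set.Finite.isClosed_biUnion (Set.toFinite _) fun t _ => C.isClosed_face t
  have hcov : ⋃₀ K \ V ⊆ u ∪ v := by
    rintro x ⟨hx, -⟩
    obtain ⟨hxP, hxK⟩ := H.kk_of_mem hx
    obtain ⟨t, ht, ht2, htK⟩ := H.exists_pair h hxK
    have hxt : x ∈ C.face t := C.mem_face_iff.mpr ⟨hxP, ht⟩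
    by_cases hAt : A t
    · left
      exact Set.mem_biUnion
        (show t ∈ {t : Finset ι | t.card = 2 ∧ C.KK K t ∧ A t} from ⟨ht2, htK, hAt⟩) hxt
    · right
      exact Set.mem_biUnion
        (show t ∈ {t : Finset ι | t.card = 2 ∧ C.KK K t ∧ ¬ A t} from ⟨ht2, htK, hAt⟩) hxt
  have hgen : ∀ t : Finset ι, t.card = 2 → C.KK K t → ∃ x ∈ ⋃₀ K \ V, x ∈ C.face t := by
    intro t ht htK
    obtain ⟨x, hx, hxI⟩ := H.exists_generic htK
    refine ⟨x, ⟨hx, ?_⟩, C.mem_face_iff.mpr ⟨(H.kk_of_mem hx).1, hxI ▸ Subset.refl _⟩⟩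
    rintro ⟨τ, hτ, rfl⟩
    have h1 : C.I (C.z τ) = τ := by
      ext i
      rw [C.mem_I, C.sl_z_eq_zero hτ]
    rw [h1] at hxI
    have h4 := ((C.mem_Q).mp hτ).1
    rw [hxI, ht] at h4
    omega
  obtain ⟨x1, hx1, hx1f⟩ := hgen f hf hfK
  obtain ⟨x2, hx2, hx2f⟩ := hgen f' hf' hfK'
  obtain ⟨x, ⟨hx, hxV⟩, hxu, hxv⟩ := (isPreconnected_closed_iff.mp hpre) u v huc hvc hcov
    ⟨x1, hx1, Set.mem_biUnion
      (show f ∈ {t : Finset ι | t.card = 2 ∧ C.KK K t ∧ A t} from ⟨hf, hfK, hAf⟩) hx1f⟩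
    ⟨x2, hx2, Set.mem_biUnion
      (show f' ∈ {t : Finset ι | t.card = 2 ∧ C.KK K t ∧ ¬ A t} from ⟨hf', hfK', hAf'⟩) hx2f⟩
  obtain ⟨hxP, hxK⟩ := H.kk_of_mem hx
  simp only [hu, hv, Set.mem_iUnion] at hxu hxv
  obtain ⟨t, ⟨ht, htK, hAt⟩, hxt⟩ := hxu
  obtain ⟨t', ⟨ht', htK', hAt'⟩, hxt'⟩ := hxv
  rw [C.mem_face_iff] at hxt hxt'
  obtain ⟨τ, hτ, hsτ⟩ := C.I_sup hxP
  have h4 := ((C.mem_Q).mp hτ).1
  have hle := card_le_card hsτ
  have hne : t ≠ t' := fun e => hAt' (e ▸ hAt)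
  have hge : 3 ≤ (C.I x).card := by
    by_contra hlt
    push Not at hlt
    have hsub : t ∪ t' ⊆ C.I x := union_subset hxt.2 hxt'.2
    have hle' := card_le_card hsub
    have e1 : t = t ∪ t' := eq_of_subset_of_card_le subset_union_left (by omega)
    have e2 : t' = t ∪ t' := eq_of_subset_of_card_le subset_union_right (by omega)
    exact hne (e1.trans e2.symm)
  rcases Nat.lt_or_ge (C.I x).card 4 with hlt | hge4
  · exact hAt' (hA t t' (C.I x) ht ht' (by omega) htK htK' hxK hxt.2 hxt'.2 hAt)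
  · have he : C.I x = τ := eq_of_subset_of_card_le hsτ (by omega)
    apply hxV
    refine ⟨τ, hτ, ?_⟩
    symm
    apply C.eq_of_sl hτ
    intro i hi
    rw [← he] at hi
    rw [C.mem_I.mp hi, C.sl_z_mem hτ (he ▸ hi)]

end SC

end Cell

end Pool.Agent.MP249bfd
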