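import Mathlib
import Pool.Agent.Lib.MP_249bfd_co.Topo3

set_option autoImplicit false
set_option linter.unusedSectionVars false

/-! Subcomplexes homeomorphic to the sphere: vanishing of the first cohomology. -/

namespace Pool.Agent.MP249bfd

open Finset Topology

namespace Cell

variable {ι : Type} [DecidableEq ι] [Fintype ι]

/-- bump functions of the open stars -/
noncomputable def bump (C : Cell ι) (τ : Finset ι) (x : E4) : ℝ := ∏ j ∈ univ \ τ, C.sl j x

theorem continuous_bump (C : Cell ι) (τ : Finset ι) : Continuous (C.bump τ) := by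
  unfold bump
  apply continuous_finsetProd
  intro j _
  exact C.continuous_sl j

theorem bump_nonneg (C : Cell ι) (τ : Finset ι) {x : E4} (hx : x ∈ C.P) : 0 ≤ C.bump τ x :=
  Finset.prod_nonneg fun j _ => C.sl_nonneg hx j

theorem bump_pos (C : Cell ι) {τ : Finset ι} {x : E4} (hx : x ∈ C.W τ) : 0 < C.bump τ x := by
  apply Finset.prod_pos
  intro j hj
  rw [mem_sdiff] at hj
  exact hx j hj.2

theorem I_sub_of_bump (C : Cell ι) {τ : Finset ι} {x : E4} (hx : C.bump τ x ≠ 0) :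
    C.I x ⊆ τ := by
  intro j hj
  by_contra hj'
  apply hx
  exact Finset.prod_eq_zero (mem_sdiff.mpr ⟨mem_univ j, hj'⟩) (C.mem_I.mp hj)

/-- sum of the bump functions -/
noncomputable def tot (C : Cell ι) (x : E4) : ℝ := ∑ τ ∈ C.Q, C.bump τ x

theorem tot_pos (C : Cell ι) {x : E4} (hx : x ∈ C.P) : 0 < C.tot x := by
  obtain ⟨τ, hτ, hs⟩ := C.I_sup hx
  exact Finset.sum_pos' (fun t _ => C.bump_nonneg t hx) ⟨τ, hτ, C.bump_pos ((C.mem_W_iff hx).mpr hs)⟩

theorem continuous_tot (C : Cell ι) : Continuous C.tot := by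
  unfold tot
  apply continuous_finsetSum
  intro τ _
  exact C.continuous_bump τ

/-- averaged potential -/
noncomputable def pot (C : Cell ι) (c : Finset ι → Finset ι → ℤ) (τ : Finset ι) (x : E4) : ℝ :=
  (∑ w ∈ C.Q, C.bump w x * (c τ w : ℝ)) / C.tot x

namespace SC

variable {C : Cell ι} {K : Set (Set E4)} (H : C.SC K)

include H

theorem preconn_W {τ : Finset ι} (hτ : τ ∈ C.Q) : IsPreconnected (⋃₀ K ∩ C.W τ) := by
  apply isPreconnected_of_forall (C.z τ)
  rintro x ⟨hx, hxW⟩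
  obtain ⟨hxP, hxK⟩ := H.kk_of_mem hx
  refine ⟨segment ℝ (C.z τ) x, ?_, left_mem_segment ℝ _ _, right_mem_segment ℝ _ _,
    (convex_segment _ _).isPreconnected⟩
  rintro y ⟨a, b, ha, hb, hab, rfl⟩
  have hI : C.I x ⊆ τ := (C.mem_W_iff hxP).mp hxW
  have hsl : ∀ j, C.sl j (a • C.z τ + b • x) = a * C.sl j (C.z τ) + b * C.sl j x := by
    intro j
    simp only [sl, inner_add_right, inner_smul_right]
    linear_combination (-C.cst) * hab
  constructor
  · apply mem_of_face hxK (C.convex_P (C.z_mem_P hτ) hxP ha hb hab)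
    intro i hi
    rw [hsl, C.sl_z_mem hτ (hI hi), C.mem_I.mp hi]
    ring
  · intro j hj
    rw [hsl]
    have h1 := C.sl_z_notMem hτ hj
    have h2 := hxW j hj
    rcases ha.eq_or_lt with h0 | h0
    · rw [← h0, zero_mul, zero_add]
      have : b = 1 := by linarith
      rw [this, one_mul]
      exact h2
    · have h3 : 0 < a * C.sl j (C.z τ) := mul_pos h0 h1
      have h4 : 0 ≤ b * C.sl j x := mul_nonneg hb h2.le
      linarith

theorem coh (h : (⋃₀ K : Set E4) ≃ₜ S2) (c : Finset ι → Finset ι → ℤ)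
    (hc : ∀ τ ∈ C.Q, ∀ τ' ∈ C.Q, ∀ τ'' ∈ C.Q, C.KK K (τ ∩ τ' ∩ τ'') →
      c τ τ' + c τ' τ'' = c τ τ'') :
    ∃ g : Finset ι → ℤ, ∀ τ ∈ C.Q, ∀ τ' ∈ C.Q, C.KK K (τ ∩ τ') → c τ τ' = g τ' - g τ := by
  classical
  -- difference of potentials
  have hdiff : ∀ x ∈ ⋃₀ K, ∀ τ ∈ C.Q, ∀ τ' ∈ C.Q, C.I x ⊆ τ → C.I x ⊆ τ' →
      C.pot c τ x - C.pot c τ' x = c τ τ' := by
    intro x hx τ hτ τ' hτ' h1 h2
    obtain ⟨hxP, hxK⟩ := H.kk_of_mem hx
    have ht := C.tot_pos hxP
    rw [pot, pot, ← sub_div, ← Finset.sum_sub_distrib, div_eq_iff ht.ne', tot, Finset.mul_sum]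
    refine Finset.sum_congr rfl fun w hw => ?_
    by_cases hb : C.bump w x = 0
    · rw [hb]; ring
    · have h3 := C.I_sub_of_bump hb
      have h4 : C.KK K (τ ∩ τ' ∩ w) :=
        H.up hτ (subset_inter (subset_inter h1 h2) h3)
          (inter_subset_left.trans inter_subset_left) hxK
      have h5 := hc τ hτ τ' hτ' w hw h4
      rw [← h5]
      push_cast
      ring
  have hpotc : ∀ τ, ContinuousOn (C.pot c τ) C.P := by
    intro τ
    unfold pot
    apply ContinuousOn.div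
    · apply Continuous.continuousOn
      apply continuous_finsetSum
      intro w _
      exact (C.continuous_bump w).mul continuous_const
    · exact C.continuous_tot.continuousOn
    · intro x hx
      exact (C.tot_pos hx).ne'
  -- choice of a vertex for each point
  have hch : ∀ x : (⋃₀ K : Set E4), ∃ τ ∈ C.Q, C.I x.1 ⊆ τ := fun x =>
    C.I_sup (H.kk_of_mem x.2).1
  choose v hv hvs using hch
  set Φ : (⋃₀ K : Set E4) → ℂ := fun x =>
    Complex.exp (2 * Real.pi * Complex.I * (C.pot c (v x) x.1 : ℝ)) with hΦ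
  have hexp : ∀ (x : (⋃₀ K : Set E4)) (τ : Finset ι), τ ∈ C.Q → C.I x.1 ⊆ τ →
      Φ x = Complex.exp (2 * Real.pi * Complex.I * (C.pot c τ x.1 : ℝ)) := by
    intro x τ hτ hs
    have h1 := hdiff x.1 x.2 (v x) (hv x) τ hτ (hvs x) hs
    have h2 : C.pot c (v x) x.1 = C.pot c τ x.1 + c (v x) τ := by linarith
    simp only [hΦ]
    rw [h2]
    push_cast
    rw [mul_add, Complex.exp_add]
    have h3 : Complex.exp (2 * Real.pi * Complex.I * (c (v x) τ : ℂ)) = 1 := by
      rw [mul_comm]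
      exact Complex.exp_int_mul_two_pi_mul_I _
    rw [h3, mul_one]
  have hΦc : Continuous Φ := by
    rw [continuous_iff_continuousAt]
    intro x
    obtain ⟨hxP, hxK⟩ := H.kk_of_mem x.2
    have hWx : x.1 ∈ C.W (v x) := (C.mem_W_iff hxP).mpr (hvs x)
    have hev : ∀ᶠ y in 𝓝 x, Φ y =
        Complex.exp (2 * Real.pi * Complex.I * (C.pot c (v x) y.1 : ℝ)) := by
      have h1 : Subtype.val ⁻¹' (C.W (v x)) ∈ 𝓝 x :=
        continuous_subtype_val.continuousAt.preimage_mem_nhds ((C.isOpen_W _).mem_nhds hWx)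
      filter_upwards [h1] with y hy
      exact hexp y (v x) (hv x) ((C.mem_W_iff (H.kk_of_mem y.2).1).mp hy)
    have hcont : ContinuousAt (fun y : (⋃₀ K : Set E4) =>
        Complex.exp (2 * Real.pi * Complex.I * (C.pot c (v x) y.1 : ℝ))) x := by
      have h2 : Continuous (fun y : (⋃₀ K : Set E4) => C.pot c (v x) y.1) := by
        rw [← continuousOn_univ]
        exact (hpotc (v x)).comp continuous_subtype_val.continuousOn
          (fun y _ => (H.kk_of_mem y.2).1)
      have h3 : Continuous (fun y : (⋃₀ K : Set E4) =>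
        Complex.exp (2 * Real.pi * Complex.I * (C.pot c (v x) y.1 : ℝ))) := by fun_prop
      exact h3.continuousAt
    exact hcont.congr (hev.mono fun y hy => hy.symm)
  obtain ⟨L, hL, hLe⟩ := exists_log_of_homeo h Φ hΦc (fun x => Complex.exp_ne_zero _)
  -- the integer valued functions on the open stars
  set D : Finset ι → (⋃₀ K : Set E4) → ℝ := fun τ x =>
    (L x).im / (2 * Real.pi) - C.pot c τ x.1 with hD
  have hDint : ∀ τ ∈ C.Q, ∀ x : (⋃₀ K : Set E4), C.I x.1 ⊆ τ → ∃ n : ℤ, D τ x = n := by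
    intro τ hτ x hs
    have h1 : Complex.exp (L x) =
        Complex.exp (2 * Real.pi * Complex.I * (C.pot c τ x.1 : ℝ)) := by
      rw [hLe, hexp x τ hτ hs]
    obtain ⟨n, hn⟩ := Complex.exp_eq_exp_iff_exists_int.mp h1
    refine ⟨n, ?_⟩
    simp only [hD]
    rw [hn]
    have h2 : (2 * Real.pi * Complex.I * (C.pot c τ x.1 : ℝ) +
        n * (2 * Real.pi * Complex.I)).im = 2 * Real.pi * (C.pot c τ x.1 + n) := by
      simp
      ring
    rw [h2, mul_div_cancel_left₀ _ (by positivity)]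
    ring
  have hDc : ∀ τ, Continuous (D τ) := by
    intro τ
    have h2 : Continuous (fun y : (⋃₀ K : Set E4) => C.pot c τ y.1) := by
      rw [← continuousOn_univ]
      exact (hpotc τ).comp continuous_subtype_val.continuousOn (fun y _ => (H.kk_of_mem y.2).1)
    simp only [hD]
    exact ((Complex.continuous_im.comp hL).div_const _).sub h2
  have hconst : ∀ τ ∈ C.Q, ∀ x y : (⋃₀ K : Set E4), C.I x.1 ⊆ τ → C.I y.1 ⊆ τ →
      D τ x = D τ y := by
    intro τ hτ x y hx hy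
    have hpre : IsPreconnected (Subtype.val ⁻¹' (C.W τ) : Set (⋃₀ K : Set E4)) := by
      rw [← Topology.IsInducing.subtypeVal.isPreconnected_image]
      rw [Subtype.image_preimage_coe]
      exact H.preconn_W hτ
    apply int_valued_const hpre (D τ) (hDc τ).continuousOn
    · intro w hw
      exact hDint τ hτ w ((C.mem_W_iff (H.kk_of_mem w.2).1).mp hw)
    · exact (C.mem_W_iff (H.kk_of_mem x.2).1).mpr hx
    · exact (C.mem_W_iff (H.kk_of_mem y.2).1).mpr hy
  have hzX : ∀ τ, τ ∈ C.Q → C.z τ ∈ ⋃₀ K := fun τ hτ => ⟨_, H.vert τ hτ, rfl⟩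
  have hzI : ∀ τ, τ ∈ C.Q → C.I (C.z τ) = τ := by
    intro τ hτ
    ext i
    rw [C.mem_I, C.sl_z_eq_zero hτ]
  have hg : ∀ τ, ∃ n : ℤ, ∀ hτ : τ ∈ C.Q, D τ ⟨C.z τ, hzX τ hτ⟩ = n := by
    intro τ
    by_cases hτ : τ ∈ C.Q
    · obtain ⟨n, hn⟩ := hDint τ hτ ⟨C.z τ, hzX τ hτ⟩ (hzI τ hτ).subset
      exact ⟨n, fun _ => hn⟩
    · exact ⟨0, fun h => absurd h hτ⟩
  choose g hg using hg
  refine ⟨g, fun τ hτ τ' hτ' hK => ?_⟩
  obtain ⟨x, hx, hxI⟩ := H.exists_generic hK
  have s1 : C.I x ⊆ τ := hxI ▸ inter_subset_left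
  have s2 : C.I x ⊆ τ' := hxI ▸ inter_subset_right
  have h1 := hconst τ hτ ⟨x, hx⟩ ⟨C.z τ, hzX τ hτ⟩ s1 (hzI τ hτ).subset
  have h2 := hconst τ' hτ' ⟨x, hx⟩ ⟨C.z τ', hzX τ' hτ'⟩ s2 (hzI τ' hτ').subset
  rw [hg τ hτ] at h1
  rw [hg τ' hτ'] at h2
  have h3 := hdiff x hx τ hτ τ' hτ' s1 s2
  simp only [hD] at h1 h2
  have h4 : (c τ τ' : ℝ) = g τ' - g τ := by
    rw [← h3, ← h1, ← h2]
    ring
  exact_mod_cast h4

theorem hamData (h : (⋃₀ K : Set E4) ≃ₜ S2) : C.toCell0.HamData (C.KK K) where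
  vert := fun τ hτ => H.kk_vert hτ
  up := fun S S' τ hτ h1 h2 hS => H.up hτ h1 h2 hS
  sub := fun S hS => H.sub hS
  two_le := fun S hS => H.two_le h hS
  not_three := fun a b c hab hac hbc hK => H.not_three h a b c hab hac hbc hK
  two_of_three := fun a b c hab hac hbc hK => H.two_of_three h a b c hab hac hbc hK
  four := fun τ hτ => H.four h hτ
  conn := H.conn h
  sconn := H.sconn h
  coh := H.coh h

end SC

end Cell

end Pool.Agent.MP249bfd
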