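import Mathlib
import Pool.Agent.Lib.MP_249bfd_co.Data2
import Pool.Agent.Lib.MP_249bfd_co.Count
import Pool.Agent.Lib.MP_249bfd_co.Topo4
import Pool.Agent.Lib.MP_249bfd_co.Euler4

set_option autoImplicit false
set_option linter.unusedSectionVars false

/-! The 120-cell has 600 vertices; no vertex is the north pole; no Hamiltonian sphere. -/

namespace Pool.Agent.MP249bfd

namespace Dat

open Real

theorem chk_deg : ∀ i : Fin 120,
    (Finset.univ.filter (fun j : Fin 120 => adjB i j = true)).card = 12 := by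
  decide +kernel

theorem card_Q : cell0.Q.card = 600 := by
  classical
  have h1 := cell0.card_Q_Ed
  have h2 := cell0.card_Ed 12 (fun i => by
    refine Eq.trans (congrArg Finset.card ?_) (chk_deg i)
    ext j
    rw [Finset.mem_filter, Finset.mem_filter]
    exact Iff.rfl)
  rw [Fintype.card_fin] at h2
  omega

theorem Q_nonempty : cell0.Q.Nonempty := by
  rw [← Finset.card_pos, card_Q]
  norm_num

/-- No subcomplex of the boundary complex containing all vertices is a two-sphere. -/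
theorem no_sphere (K : Set (Set E4)) (H : cell.SC K) : IsEmpty ((⋃₀ K : Set E4) ≃ₜ S2) := by
  constructor
  intro h
  have h1 := (H.hamData h).not_three_dvd Q_nonempty
  apply h1
  show 3 ∣ cell0.Q.card
  rw [card_Q]
  exact ⟨200, rfl⟩

theorem parity (a b : ℤ) : 4 * a * b + 2 * b ^ 2 - 3 ≠ 0 := by
  intro h
  have h2 : 4 * a * b + 2 * b ^ 2 - 3 = 2 * (2 * a * b + b ^ 2 - 2) + 1 := by ring
  rw [h2] at h
  omega

theorem z_ne_north {τ : Finset (Fin 120)} (hτ : τ ∈ cell0.Q) : (cell.z τ) 3 ≠ 1 := by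
  intro h3
  have hτ' : τ ∈ cell.Q := hτ
  have hn := cell.norm_z hτ'
  have hsq : (cell.z τ 0) ^ 2 + (cell.z τ 1) ^ 2 + (cell.z τ 2) ^ 2 + (cell.z τ 3) ^ 2 = 1 := by
    have h1 := EuclideanSpace.norm_sq_eq (cell.z τ)
    rw [hn, Fin.sum_univ_four] at h1
    simp only [Real.norm_eq_abs, sq_abs] at h1
    linarith
  rw [h3] at hsq
  have h0 : cell.z τ 0 = 0 := by nlinarith [sq_nonneg (cell.z τ 0), sq_nonneg (cell.z τ 1), sq_nonneg (cell.z τ 2)]
  have h1 : cell.z τ 1 = 0 := by nlinarith [sq_nonneg (cell.z τ 0), sq_nonneg (cell.z τ 1), sq_nonneg (cell.z τ 2)]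
  have h2 : cell.z τ 2 = 0 := by nlinarith [sq_nonneg (cell.z τ 0), sq_nonneg (cell.z τ 1), sq_nonneg (cell.z τ 2)]
  obtain ⟨i, hi⟩ : τ.Nonempty := by
    rw [← Finset.card_pos, ((cell0.mem_Q).mp hτ).1]
    norm_num
  have hz := cell.sl_z_mem hτ' hi
  rw [Cell.sl, sub_eq_zero] at hz
  have hg : inner ℝ (cell.g i) (cell.z τ) = ((cf i 6 : ℝ) + cf i 7 * goldenRatio) / 2 := by
    rw [PiLp.inner_apply, Fin.sum_univ_four, h0, h1, h2, h3]
    simp only [cell, gv, Matrix.cons_val, RCLike.inner_apply, conj_trivial]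
    ring
  rw [hg] at hz
  have hr := cell.rad_sq
  have hrp := cell.rad_pos
  have hα : cell.α = goldenRatio / 2 := rfl
  have hc : cell.cst ^ 2 = (1 + 3 * cell.α) / 4 := by
    rw [Cell.cst, mul_pow, inv_pow, hr]
    have := cell.α_nonneg
    field_simp
    ring
  rw [hz, hα] at hc
  have hφ := goldenRatio_sq
  have hirr := goldenRatio_irrational
  generalize goldenRatio = p at hc hφ hirr
  generalize cf i 6 = a at hc
  generalize cf i 7 = b at hc
  have key : ((2 * a ^ 2 + 2 * b ^ 2 - 2 : ℤ) : ℝ) + ((4 * a * b + 2 * b ^ 2 - 3 : ℤ) : ℝ) * p = 0 := by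
    push_cast
    linear_combination 8 * hc - 2 * (b : ℝ) ^ 2 * hφ
  have hpar := parity a b
  generalize (2 * a ^ 2 + 2 * b ^ 2 - 2 : ℤ) = m at key
  generalize (4 * a * b + 2 * b ^ 2 - 3 : ℤ) = n at key hpar
  apply hirr
  refine ⟨-(m : ℚ) / n, ?_⟩
  push_cast
  have hn' : (n : ℝ) ≠ 0 := by exact_mod_cast hpar
  field_simp
  linarith

end Dat

end Pool.Agent.MP249bfd
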